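import Mathlib
import Pool.Agent.Results.MP_4b405e_nt.AlgebraicSets

/-! # Box dimension and the Hausdorff dimension of products -/

set_option autoImplicit false

open Set MeasureTheory Filter Topology
open Pool.Agent.Results.MP_4b405e_nt.AlgebraicSets (coverNum upperMinkowski)

open scoped MeasureTheory NNReal ENNReal

namespace Pool.Agent.Zk50.KakPack

/-- arbitrarily fine covers by few sets bound the Hausdorff dimension -/
theorem dimH_le_of_covers {Z : Type} [EMetricSpace Z] [MeasurableSpace Z] [BorelSpace Z]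
    (A : Set Z) (t : ℝ) (ht : 0 ≤ t)
    (h : ∀ ε > 0, ∃ δ : ℝ, 0 < δ ∧ δ < ε ∧ ∃ (N : ℕ) (U : Fin N → Set Z),
      (∀ i, Metric.ediam (U i) ≤ ENNReal.ofReal δ) ∧ A ⊆ ⋃ i, U i ∧ (N : ℝ) * δ ^ t ≤ 1) :
    dimH A ≤ ENNReal.ofReal t := by
  choose δ hδ hlt N U hU hA hN using fun l : ℕ => h (1 / ((l : ℝ) + 1)) (by positivity)
  have hlim1 : Tendsto (fun l : ℕ => 1 / ((l : ℝ) + 1)) atTop (𝓝 0) :=
    tendsto_one_div_add_atTop_nhds_zero_nat
  have hδ0 : Tendsto δ atTop (𝓝 0) :=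
    squeeze_zero (fun l => (hδ l).le) (fun l => (hlt l).le) hlim1
  have hfin := Measure.hausdorffMeasure_le_liminf_sum (X := Z)
    (ι := fun l : ℕ => Fin (N l)) t A (l := atTop)
    (fun l => ENNReal.ofReal (δ l)) (by
      have := ENNReal.tendsto_ofReal hδ0
      simpa using this) (fun l i => U l i)
    (Eventually.of_forall fun l i => hU l i)
    (Eventually.of_forall fun l => hA l)
  have hle : μH[t] A ≤ 1 := by
    refine hfin.trans ?_
    have h1 : liminf (fun _ : ℕ => (1 : ℝ≥0∞)) atTop = 1 := liminf_const _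
    rw [← h1]
    refine liminf_le_liminf (Eventually.of_forall fun l => ?_)
    calc ∑ i : Fin (N l), Metric.ediam (U l i) ^ t
        ≤ ∑ _i : Fin (N l), ENNReal.ofReal (δ l ^ t) := by
          refine Finset.sum_le_sum fun i _ => ?_
          rw [← ENNReal.ofReal_rpow_of_pos (hδ l)]
          exact ENNReal.rpow_le_rpow (hU l i) ht
      _ = ENNReal.ofReal ((N l : ℝ) * δ l ^ t) := by
          rw [Finset.sum_const, Finset.card_univ, Fintype.card_fin, nsmul_eq_mul,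
            ENNReal.ofReal_mul (Nat.cast_nonneg _), ENNReal.ofReal_natCast]
      _ ≤ 1 := by
          rw [← ENNReal.ofReal_one]
          exact ENNReal.ofReal_le_ofReal (hN l)
  exact dimH_le_of_hausdorffMeasure_ne_top (d := ⟨t, ht⟩) (by
    refine ne_top_of_le_ne_top ENNReal.one_ne_top ?_
    exact hle) |>.trans (by
      rw [ENNReal.ofReal, Real.toNNReal_of_nonneg ht]
      exact le_rfl)

/-- the covering numbers of a set of small box dimension -/
theorem cover_small {n : ℕ} (X : Set (EuclideanSpace ℝ (Fin n))) (hX : Bornology.IsBounded X)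
    {s t : ℝ} (hst : s < t) (h1 : upperMinkowski X ≤ (s : EReal)) :
    ∀ᶠ δ : ℝ in 𝓝[>] 0, 0 < δ ∧ ∃ (N : ℕ) (U : Fin N → Set (EuclideanSpace ℝ (Fin n))),
      (∀ i, ∀ x ∈ U i, ∀ y ∈ U i, dist x y ≤ δ) ∧ X ⊆ ⋃ i, U i ∧ (N : ℝ) * δ ^ t ≤ 1 := by
  have h2 : limsup (fun δ : ℝ => ((Real.log (coverNum X δ) / Real.log (1 / δ) : ℝ) : EReal))
      (𝓝[>] 0) < (t : EReal) := lt_of_le_of_lt h1 (EReal.coe_lt_coe_iff.2 hst)
  have h3 := eventually_lt_of_limsup_lt h2
  have h4 : ∀ᶠ δ : ℝ in 𝓝[>] 0, δ ∈ Ioo (0 : ℝ) 1 := Ioo_mem_nhdsGT one_pos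
  filter_upwards [h3, h4] with δ hδ hδ1
  refine ⟨hδ1.1, coverNum X δ, ?_⟩
  obtain ⟨U, hU, hXU⟩ := Nat.sInf_mem (Pool.Agent.TH539.AlgProg.cover_nonempty hX hδ1.1)
  refine ⟨U, hU, hXU, ?_⟩
  have hlog : 0 < Real.log (1 / δ) := Real.log_pos (by
    rw [lt_div_iff₀ hδ1.1]
    linarith [hδ1.2])
  have h5 : Real.log (coverNum X δ) < t * Real.log (1 / δ) := by
    have := EReal.coe_lt_coe_iff.1 hδ
    rwa [div_lt_iff₀ hlog] at this
  rcases Nat.eq_zero_or_pos (coverNum X δ) with h0 | h0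
  · rw [h0]
    simp
  · have h0' : (0 : ℝ) < coverNum X δ := by exact_mod_cast h0
    have h6 : (coverNum X δ : ℝ) < (1 / δ) ^ t := by
      rw [Real.lt_rpow_iff_log_lt h0' (by have := hδ1.1; positivity)]
      exact h5
    have h7 : 0 < δ ^ t := Real.rpow_pos_of_pos hδ1.1 t
    have h8 : (1 / δ) ^ t * δ ^ t = 1 := by
      rw [← Real.mul_rpow (by have := hδ1.1; positivity) hδ1.1.le, one_div,
        inv_mul_cancel₀ hδ1.1.ne', Real.one_rpow]
    nlinarith

theorem ediam_le_of_dist {Z : Type} [PseudoMetricSpace Z] {U : Set Z} {δ : ℝ}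
    (h : ∀ x ∈ U, ∀ y ∈ U, dist x y ≤ δ) : Metric.ediam U ≤ ENNReal.ofReal δ := by
  apply Metric.ediam_le
  intro x hx y hy
  rw [edist_dist]
  exact ENNReal.ofReal_le_ofReal (h x hx y hy)

theorem dimH_le_and_prod_le {n : ℕ} (X Y : Set (EuclideanSpace ℝ (Fin n)))
    (hX : Bornology.IsBounded X) (hY : Bornology.IsBounded Y)
    (s : ℝ) (hs : 0 ≤ s) (h1 : upperMinkowski X ≤ (s : EReal))
    (h2 : upperMinkowski Y ≤ (s : EReal)) :
    dimH X ≤ ENNReal.ofReal s ∧ dimH (X ×ˢ Y) ≤ ENNReal.ofReal (2 * s) := by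
  have key : ∀ t, s < t → dimH X ≤ ENNReal.ofReal t ∧ dimH (X ×ˢ Y) ≤ ENNReal.ofReal (2 * t) := by
    intro t hst
    have c1 := cover_small X hX hst h1
    have c2 := cover_small Y hY hst h2
    have small : ∀ ε : ℝ, 0 < ε → ∀ᶠ δ : ℝ in 𝓝[>] 0, δ < ε := fun ε hε =>
      (eventually_lt_nhds hε).filter_mono nhdsWithin_le_nhds
    constructor
    · refine dimH_le_of_covers X t (by linarith) fun ε hε => ?_
      obtain ⟨δ, ⟨h3, N, U, hU, hXU, hN⟩, h4⟩ := (c1.and (small ε hε)).exists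
      exact ⟨δ, h3, h4, N, U, fun i => ediam_le_of_dist (hU i), hXU, hN⟩
    · refine dimH_le_of_covers (X ×ˢ Y) (2 * t) (by linarith) fun ε hε => ?_
      obtain ⟨δ, ⟨⟨h3, N, U, hU, hXU, hN⟩, ⟨-, M, V, hV, hYV, hM⟩⟩, h4⟩ :=
        ((c1.and c2).and (small ε hε)).exists
      refine ⟨δ, h3, h4, N * M, fun k => U (finProdFinEquiv.symm k).1 ×ˢ
        V (finProdFinEquiv.symm k).2, fun k => ?_, ?_, ?_⟩
      · apply ediam_le_of_dist
        rintro ⟨x, y⟩ ⟨hx, hy⟩ ⟨x', y'⟩ ⟨hx', hy'⟩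
        rw [Prod.dist_eq]
        exact max_le (hU _ x hx x' hx') (hV _ y hy y' hy')
      · rintro ⟨x, y⟩ ⟨hx, hy⟩
        obtain ⟨i, hi⟩ := mem_iUnion.1 (hXU hx)
        obtain ⟨j, hj⟩ := mem_iUnion.1 (hYV hy)
        refine mem_iUnion.2 ⟨finProdFinEquiv (i, j), ?_⟩
        rw [Equiv.symm_apply_apply]
        exact ⟨hi, hj⟩
      · have h5 : δ ^ (2 * t) = δ ^ t * δ ^ t := by
          rw [← Real.rpow_add h3]
          congr 1
          ring
        have h6 : 0 ≤ (N : ℝ) * δ ^ t := by positivity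
        have h7 : 0 ≤ (M : ℝ) * δ ^ t := by positivity
        push_cast
        rw [h5]
        calc (N : ℝ) * M * (δ ^ t * δ ^ t) = (N * δ ^ t) * (M * δ ^ t) := by ring
          _ ≤ 1 * 1 := mul_le_mul hN hM h7 zero_le_one
          _ = 1 := one_mul 1
  have hev : ∀ᶠ t : ℝ in 𝓝[>] s, s < t := self_mem_nhdsWithin
  constructor
  · have hlim : Tendsto (fun t : ℝ => ENNReal.ofReal t) (𝓝[>] s) (𝓝 (ENNReal.ofReal s)) :=
      (ENNReal.continuous_ofReal.tendsto s).mono_left nhdsWithin_le_nhds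
    exact ge_of_tendsto hlim (hev.mono fun t ht => (key t ht).1)
  · have hlim : Tendsto (fun t : ℝ => ENNReal.ofReal (2 * t)) (𝓝[>] s)
        (𝓝 (ENNReal.ofReal (2 * s))) :=
      ((ENNReal.continuous_ofReal.comp (continuous_const.mul continuous_id)).tendsto s).mono_left
        nhdsWithin_le_nhds
    exact ge_of_tendsto hlim (hev.mono fun t ht => (key t ht).2)

end Pool.Agent.Zk50.KakPack
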