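import Pool.Agent.Zk50.GenC

/-!
The generators of the graded algebra with arbitrary weights, and generators over two charts.
-/

set_option autoImplicit false
set_option linter.overlappingInstances false

namespace Pool.Agent.Zk10.PG

open Pool.Agent.Y223.G

/-- The graded algebra is generated by the products of the generators (arbitrary weights). -/
theorem RZ_gen {k K : Type} [Field k] [Field K] [Algebra k K] {n : ℕ} {B : Fin n → Type}
    [∀ l, CommRing (B l)] [∀ l, Algebra k (B l)] (f : ∀ l, B l →ₐ[k] K)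
    (Φ : ∀ l, ℕ → Ideal (B l)) (D : ℕ) (hD : 0 < D) (hΦ : ∀ l, Flt (Φ l) D)
    (Z : Fin n → Type) (v : ∀ l, Z l → B l) (w : ∀ l, Z l → ℕ) (h1 : ∀ l, ∃ a, v l a = 1)
    (hZ : ∀ l, Algebra.adjoin k (Set.range (v l)) = ⊤) (hw : ∀ l a, v l a ∈ Φ l (w l a))
    (hZ2 : ∀ l, ∀ m, m ≤ D → Φ l m = Ideal.span {x | ∃ a, x = v l a ∧ m ≤ w l a}) :
    Algebra.adjoin k ({hm (-1) 1} ∪ Set.range fun a : (∀ l, Z l) =>
      hm ((∑ l, w l (a l) : ℕ) : ℤ) (∏ l, f l (v l (a l)))) =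
    RR k (fun l => (f l : B l →+* K)) Φ := by
  classical
  apply le_antisymm
  · refine Algebra.adjoin_le ?_
    rintro _ (rfl | ⟨a, rfl⟩)
    · exact Algebra.subset_adjoin (Or.inl rfl)
    · have e : hm ((∑ l, w l (a l) : ℕ) : ℤ) (∏ l, f l (v l (a l))) =
          ∏ l, hm ((w l (a l) : ℕ) : ℤ) (f l (v l (a l))) := by
        rw [Nat.cast_sum, hm_prod]
      simp only [e]
      refine Subalgebra.prod_mem _ fun l _ => Algebra.subset_adjoin (Or.inr ?_)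
      exact ⟨l, _, _, hw l (a l), rfl⟩
  · choose a1 ha1 using h1
    set A := Algebra.adjoin k ({hm (-1) 1} ∪ Set.range fun a : (∀ l, Z l) =>
      hm ((∑ l, w l (a l) : ℕ) : ℤ) (∏ l, f l (v l (a l)))) with hA
    have hneg : ∀ j : ℕ, (hm (-(j : ℤ)) 1 : LP K) ∈ A := by
      intro j
      have h2 : (hm (-1) 1 : LP K) ∈ A := Algebra.subset_adjoin (Or.inl rfl)
      have h3 := Subalgebra.pow_mem A h2 j
      rw [hm_pow, one_pow] at h3
      convert h3 using 2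
      ring
    have hlow : ∀ (d e : ℤ) (x : K), e ≤ d → hm d x ∈ A → hm e x ∈ A := by
      intro d e x hed hx
      obtain ⟨j, hj⟩ := Int.eq_ofNat_of_zero_le (sub_nonneg.2 hed)
      have h2 := Subalgebra.mul_mem A hx (hneg j)
      rw [hm_mul, mul_one] at h2
      convert h2 using 2
      omega
    have hgen : ∀ (l : Fin n) (z : Z l), ∀ m : ℕ, m ≤ w l z → hm (m : ℤ) (f l (v l z)) ∈ A := by
      intro l z m hm'
      let a : ∀ l, Z l := Function.update a1 l z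
      have ha : hm ((∑ l, w l (a l) : ℕ) : ℤ) (∏ l, f l (v l (a l))) ∈ A :=
        Algebra.subset_adjoin (Or.inr ⟨a, rfl⟩)
      have hal : a l = z := by
        simp only [a, Function.update_self]
      have hp : ∏ l, f l (v l (a l)) = f l (v l z) := by
        rw [Finset.prod_eq_single l]
        · rw [hal]
        · intro l' _ hl'
          simp only [a, Function.update_of_ne hl', ha1, map_one]
        · intro h
          exact absurd (Finset.mem_univ l) h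
      rw [hp] at ha
      refine hlow _ _ _ ?_ ha
      have h2 : w l (a l) ≤ ∑ l, w l (a l) :=
        Finset.single_le_sum (f := fun l => w l (a l)) (fun _ _ => Nat.zero_le _)
          (Finset.mem_univ l)
      rw [hal] at h2
      exact_mod_cast hm'.trans h2
    have h0 : ∀ (l : Fin n) (b : B l), hm 0 (f l b) ∈ A := by
      intro l b
      have hb : b ∈ Algebra.adjoin k (Set.range (v l)) := by
        rw [hZ l]
        exact Algebra.mem_top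
      induction hb using Algebra.adjoin_induction with
      | mem x hx =>
        obtain ⟨z, rfl⟩ := hx
        exact_mod_cast hgen l z 0 (Nat.zero_le _)
      | algebraMap r =>
        rw [AlgHom.commutes]
        exact Subalgebra.algebraMap_mem A r
      | add x y _ _ hx hy =>
        rw [map_add, hm_add]
        exact Subalgebra.add_mem A hx hy
      | mul x y _ _ hx hy =>
        have h2 := Subalgebra.mul_mem A hx hy
        rwa [hm_mul, add_zero, ← map_mul] at h2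
    have hsm : ∀ (l : Fin n) (m : ℕ), m ≤ D → ∀ x ∈ Φ l m, hm (m : ℤ) (f l x) ∈ A := by
      intro l m hmD x hx
      rw [hZ2 l m hmD] at hx
      induction hx using Submodule.span_induction with
      | mem x hx =>
        obtain ⟨a, rfl, ha⟩ := hx
        exact hgen l a m ha
      | zero =>
        rw [map_zero, hm_zero]
        exact Subalgebra.zero_mem A
      | add x y _ _ hx hy =>
        rw [map_add, hm_add]
        exact Subalgebra.add_mem A hx hy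
      | smul b x _ hx =>
        have h2 := Subalgebra.mul_mem A (h0 l b) hx
        rwa [hm_mul, zero_add, ← map_mul] at h2
    have hall : ∀ (l : Fin n) (m : ℕ), ∀ x ∈ Φ l m, hm (m : ℤ) (f l x) ∈ A := by
      intro l m
      induction m using Nat.strong_induction_on with
      | _ m ih =>
        intro x hx
        rcases le_or_gt m D with hmD | hmD
        · exact hsm l m hmD x hx
        · obtain ⟨m', rfl⟩ := Nat.exists_eq_add_of_le hmD.le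
          rw [add_comm, (hΦ l).per] at hx
          induction hx using Submodule.mul_induction_on' with
          | mem_mul_mem r hr s hs =>
            have h2 := Subalgebra.mul_mem A (hsm l D le_rfl r hr) (ih m' (by omega) s hs)
            rw [hm_mul, ← map_mul] at h2
            exact_mod_cast h2
          | add x _ y _ hx hy =>
            rw [map_add, hm_add]
            exact Subalgebra.add_mem A hx hy
    refine Algebra.adjoin_le ?_
    rintro _ (rfl | ⟨l, m, x, hx, rfl⟩)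
    · exact Algebra.subset_adjoin (Or.inl rfl)
    · exact hall l m x hx

/-- Generators over two charts. -/
theorem exists_gens2 {k M G : Type} [Field k] [Field M] [Algebra k M] [Group G] [Finite G]
    (ρ : G →* (M ≃ₐ[k] M)) {t : M} (ht0 : t ≠ 0) (htρ : ∀ g, ρ g t = t)
    (A₁ A₂ : Subalgebra k M) (h1G : ∀ g, ∀ x ∈ A₁, ρ g x ∈ A₁) (h2G : ∀ g, ∀ x ∈ A₂, ρ g x ∈ A₂)
    (hft₁ : Algebra.FiniteType k A₁) (hft₂ : Algebra.FiniteType k A₂) (ht : t ∈ A₁)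
    (ht' : t⁻¹ ∈ A₂) (h12 : ∀ x ∈ A₁, ∃ n : ℕ, t⁻¹ ^ n * x ∈ A₂)
    (h21 : ∀ x ∈ A₂, ∃ n : ℕ, t ^ n * x ∈ A₁) (Ξ : Type) [Finite Ξ] (D : ℕ)
    (Φ₁ : Ξ → ℕ → Ideal A₁) (Φ₂ : Ξ → ℕ → Ideal A₂) (z1 : ∀ ξ, Φ₁ ξ 0 = ⊤)
    (z2 : ∀ ξ, Φ₂ ξ 0 = ⊤) (a1 : ∀ ξ m n, m ≤ n → Φ₁ ξ n ≤ Φ₁ ξ m)
    (a2 : ∀ ξ m n, m ≤ n → Φ₂ ξ n ≤ Φ₂ ξ m)
    (tr12 : ∀ ξ m, ∀ x ∈ Φ₁ ξ m, ∃ N₀, ∀ N, N₀ ≤ N →
      ∃ h : t⁻¹ ^ N * (x : M) ∈ A₂, (⟨_, h⟩ : A₂) ∈ Φ₂ ξ m)
    (tr21 : ∀ ξ m, ∀ x ∈ Φ₂ ξ m, ∃ N₀, ∀ N, N₀ ≤ N →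
      ∃ h : t ^ N * (x : M) ∈ A₁, (⟨_, h⟩ : A₁) ∈ Φ₁ ξ m) :
    ∃ (N : ℕ) (Z : Set M) (w : Ξ → M → ℕ), Z.Finite ∧ 1 ∈ Z ∧ t ^ N ∈ Z ∧ 0 ∉ Z ∧
      (∀ g, ∀ z ∈ Z, ρ g z ∈ Z) ∧ (∀ z ∈ Z, z ∈ A₁) ∧ (∀ z ∈ Z, t⁻¹ ^ N * z ∈ A₂) ∧
      Algebra.adjoin k Z = A₁ ∧ Algebra.adjoin k ((fun z => t⁻¹ ^ N * z) '' Z) = A₂ ∧
      ∀ ξ, (∀ z ∈ Z, ∀ h : z ∈ A₁, (⟨z, h⟩ : A₁) ∈ Φ₁ ξ (w ξ z)) ∧
        (∀ z ∈ Z, ∀ h : t⁻¹ ^ N * z ∈ A₂, (⟨_, h⟩ : A₂) ∈ Φ₂ ξ (w ξ z)) ∧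
        ∀ m, m ≤ D →
          Φ₁ ξ m = Ideal.span {x : A₁ | (x : M) ∈ Z ∧ m ≤ w ξ x} ∧
          Φ₂ ξ m = Ideal.span {y : A₂ | ∃ z ∈ Z, (y : M) = t⁻¹ ^ N * z ∧ m ≤ w ξ z} := by
  classical
  have : IsNoetherianRing A₁ := Algebra.FiniteType.isNoetherianRing k A₁
  have : IsNoetherianRing A₂ := Algebra.FiniteType.isNoetherianRing k A₂
  obtain ⟨S₁, hS₁⟩ := Algebra.FiniteType.out (R := k) (A := A₁)
  obtain ⟨S₂, hS₂⟩ := Algebra.FiniteType.out (R := k) (A := A₂)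
  have hg1 : ∀ I : Ideal A₁, ∃ s : Finset A₁, Ideal.span (s : Set A₁) = I := fun I =>
    IsNoetherian.noetherian I
  have hg2 : ∀ I : Ideal A₂, ∃ s : Finset A₂, Ideal.span (s : Set A₂) = I := fun I =>
    IsNoetherian.noetherian I
  choose g₁ hg₁ using hg1
  choose g₂ hg₂ using hg2
  set X : Set A₁ := (S₁ : Set A₁) ∪ ⋃ ξ, ⋃ m ∈ Finset.range (D + 1), (g₁ (Φ₁ ξ m) : Set A₁) with hX
  set Y : Set A₂ := (S₂ : Set A₂) ∪ ⋃ ξ, ⋃ m ∈ Finset.range (D + 1), (g₂ (Φ₂ ξ m) : Set A₂) with hY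
  have hXf : X.Finite := S₁.finite_toSet.union (Set.finite_iUnion fun ξ =>
    (Finset.finite_toSet (Finset.range (D + 1))).biUnion fun m _ => (g₁ (Φ₁ ξ m)).finite_toSet)
  have hYf : Y.Finite := S₂.finite_toSet.union (Set.finite_iUnion fun ξ =>
    (Finset.finite_toSet (Finset.range (D + 1))).biUnion fun m _ => (g₂ (Φ₂ ξ m)).finite_toSet)
  have hXg : ∀ ξ, ∀ m ≤ D, ∀ x ∈ g₁ (Φ₁ ξ m), x ∈ X := fun ξ m hm x hx =>
    Or.inr (Set.mem_iUnion.2 ⟨ξ, Set.mem_biUnion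
      (Finset.mem_coe.2 (Finset.mem_range.2 (Nat.lt_succ_of_le hm))) hx⟩)
  have hYg : ∀ ξ, ∀ m ≤ D, ∀ x ∈ g₂ (Φ₂ ξ m), x ∈ Y := fun ξ m hm x hx =>
    Or.inr (Set.mem_iUnion.2 ⟨ξ, Set.mem_biUnion
      (Finset.mem_coe.2 (Finset.mem_range.2 (Nat.lt_succ_of_le hm))) hx⟩)
  have hti : ∀ N : ℕ, t⁻¹ ^ N * t ^ N = 1 := fun N => by
    rw [← mul_pow, inv_mul_cancel₀ ht0, one_pow]
  -- the choice of `N`
  have e1 : ∀ᶠ N in Filter.atTop, ∀ x ∈ X, t⁻¹ ^ N * (x : M) ∈ A₂ := by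
    rw [Filter.eventually_all_finite hXf]
    intro x _
    obtain ⟨n, hn⟩ := h12 x x.2
    filter_upwards [Filter.eventually_ge_atTop n] with N hN
    obtain ⟨j, rfl⟩ := Nat.exists_eq_add_of_le hN
    rw [add_comm, pow_add, mul_assoc]
    exact mul_mem (pow_mem ht' j) hn
  have e2 : ∀ᶠ N in Filter.atTop, ∀ y ∈ Y, t ^ N * (y : M) ∈ A₁ := by
    rw [Filter.eventually_all_finite hYf]
    intro y _
    obtain ⟨n, hn⟩ := h21 y y.2
    filter_upwards [Filter.eventually_ge_atTop n] with N hN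
    obtain ⟨j, rfl⟩ := Nat.exists_eq_add_of_le hN
    rw [add_comm, pow_add, mul_assoc]
    exact mul_mem (pow_mem ht j) hn
  have e3 : ∀ᶠ N in Filter.atTop, ∀ ξ, ∀ m ∈ Finset.range (D + 1), ∀ x ∈ X, x ∈ Φ₁ ξ m →
      ∃ h : t⁻¹ ^ N * (x : M) ∈ A₂, (⟨_, h⟩ : A₂) ∈ Φ₂ ξ m := by
    rw [Filter.eventually_all]
    intro ξ
    rw [Filter.eventually_all_finset]
    intro m _
    rw [Filter.eventually_all_finite hXf]
    intro x _
    by_cases hx : x ∈ Φ₁ ξ m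
    · obtain ⟨N₀, h⟩ := tr12 ξ m x hx
      filter_upwards [Filter.eventually_ge_atTop N₀] with N hN _
      exact h N hN
    · exact Filter.Eventually.of_forall fun N h => absurd h hx
  have e4 : ∀ᶠ N in Filter.atTop, ∀ ξ, ∀ m ∈ Finset.range (D + 1), ∀ y ∈ Y, y ∈ Φ₂ ξ m →
      ∃ h : t ^ N * (y : M) ∈ A₁, (⟨_, h⟩ : A₁) ∈ Φ₁ ξ m := by
    rw [Filter.eventually_all]
    intro ξ
    rw [Filter.eventually_all_finset]
    intro m _
    rw [Filter.eventually_all_finite hYf]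
    intro x _
    by_cases hx : x ∈ Φ₂ ξ m
    · obtain ⟨N₀, h⟩ := tr21 ξ m x hx
      filter_upwards [Filter.eventually_ge_atTop N₀] with N hN _
      exact h N hN
    · exact Filter.Eventually.of_forall fun N h => absurd h hx
  obtain ⟨N, ⟨hN1, hN2⟩, hN3, hN4⟩ := ((e1.and e2).and (e3.and e4)).exists
  -- the set
  set Z0 : Set M := {1, t ^ N} ∪ (fun x : A₁ => (x : M)) '' X ∪
    (fun y : A₂ => t ^ N * (y : M)) '' Y with hZ0
  have hZ0f : Z0.Finite := ((Set.toFinite _).union (hXf.image _)).union (hYf.image _)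
  have hZ01 : ∀ z ∈ Z0, z ∈ A₁ := by
    rintro z (((rfl | rfl) | ⟨x, hx, rfl⟩) | ⟨y, hy, rfl⟩)
    · exact one_mem _
    · exact pow_mem ht N
    · exact x.2
    · exact hN2 y hy
  have hZ02 : ∀ z ∈ Z0, t⁻¹ ^ N * z ∈ A₂ := by
    rintro z (((rfl | rfl) | ⟨x, hx, rfl⟩) | ⟨y, hy, rfl⟩)
    · rw [mul_one]; exact pow_mem ht' N
    · rw [hti]; exact one_mem _
    · exact hN1 x hx
    · simp only
      rw [← mul_assoc, hti, one_mul]
      exact y.2
  set Z1 : Set M := ⋃ g : G, ρ g '' Z0 with hZ1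
  have h01 : ∀ z ∈ Z0, z ∈ Z1 := fun z hz =>
    Set.mem_iUnion.2 ⟨1, z, hz, by rw [map_one]; rfl⟩
  have hρ0 : ∀ g z, ρ g z = 0 → z = 0 := fun g z h =>
    (map_eq_zero_iff (ρ g) (ρ g).injective).1 h
  have hρt : ∀ g z, t⁻¹ ^ N * ρ g z = ρ g (t⁻¹ ^ N * z) := by
    intro g z
    rw [map_mul, map_pow, map_inv₀, htρ]
  have hZA1 : ∀ z ∈ Z1 \ {0}, z ∈ A₁ := by
    rintro z ⟨hz, -⟩
    obtain ⟨g, y, hy, rfl⟩ := Set.mem_iUnion.1 hz
    exact h1G g y (hZ01 y hy)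
  have hZA2 : ∀ z ∈ Z1 \ {0}, t⁻¹ ^ N * z ∈ A₂ := by
    rintro z ⟨hz, -⟩
    obtain ⟨g, y, hy, rfl⟩ := Set.mem_iUnion.1 hz
    rw [hρt]
    exact h2G g _ (hZ02 y hy)
  set P : Ξ → M → ℕ → Prop := fun ξ z m => (∃ h : z ∈ A₁, (⟨z, h⟩ : A₁) ∈ Φ₁ ξ m) ∧
    ∃ h : t⁻¹ ^ N * z ∈ A₂, (⟨_, h⟩ : A₂) ∈ Φ₂ ξ m with hP
  set w : Ξ → M → ℕ := fun ξ z => Nat.findGreatest (P ξ z) D with hw
  have hwP : ∀ ξ, ∀ z ∈ Z1 \ {0}, P ξ z (w ξ z) := by
    intro ξ z hz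
    refine Nat.findGreatest_spec (P := P ξ z) (Nat.zero_le D) ?_
    refine ⟨⟨hZA1 z hz, ?_⟩, hZA2 z hz, ?_⟩
    · rw [z1]; exact Submodule.mem_top
    · rw [z2]; exact Submodule.mem_top
  have hXZ : ∀ x ∈ X, (x : M) ≠ 0 → (x : M) ∈ Z1 \ {0} := fun x hx h0 =>
    ⟨h01 _ (Or.inl (Or.inr ⟨x, hx, rfl⟩)), h0⟩
  have hYZ : ∀ y ∈ Y, (y : M) ≠ 0 → t ^ N * (y : M) ∈ Z1 \ {0} := fun y hy h0 =>
    ⟨h01 _ (Or.inr ⟨y, hy, rfl⟩), mul_ne_zero (pow_ne_zero _ ht0) h0⟩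
  refine ⟨N, Z1 \ {0}, w, (Set.finite_iUnion fun g => hZ0f.image _).subset Set.sdiff_subset,
    ⟨h01 1 (Or.inl (Or.inl (Or.inl rfl))), one_ne_zero⟩,
    ⟨h01 _ (Or.inl (Or.inl (Or.inr rfl))), pow_ne_zero _ ht0⟩, fun h => h.2 rfl, ?_, hZA1, hZA2,
    ?_, ?_, ?_⟩
  · rintro g z ⟨hz, hz0⟩
    obtain ⟨h, y, hy, rfl⟩ := Set.mem_iUnion.1 hz
    refine ⟨Set.mem_iUnion.2 ⟨g * h, y, hy, by rw [map_mul]; rfl⟩, ?_⟩
    intro h0
    exact hz0 (hρ0 g _ h0)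
  · apply le_antisymm
    · exact Algebra.adjoin_le fun z hz => hZA1 z hz
    · intro x hx
      have h2 : (⟨x, hx⟩ : A₁) ∈ Algebra.adjoin k (S₁ : Set A₁) := by
        rw [hS₁]; exact Algebra.mem_top
      have h3 : x ∈ (Algebra.adjoin k (S₁ : Set A₁)).map A₁.val := ⟨_, h2, rfl⟩
      rw [AlgHom.map_adjoin] at h3
      refine Algebra.adjoin_le ?_ h3
      rintro _ ⟨s, hs, rfl⟩
      by_cases h0 : (s : M) = 0
      · change (s : M) ∈ _
        rw [h0]; exact zero_mem _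
      · exact Algebra.subset_adjoin (hXZ s (Or.inl hs) h0)
  · apply le_antisymm
    · refine Algebra.adjoin_le ?_
      rintro _ ⟨z, hz, rfl⟩
      exact hZA2 z hz
    · intro x hx
      have h2 : (⟨x, hx⟩ : A₂) ∈ Algebra.adjoin k (S₂ : Set A₂) := by
        rw [hS₂]; exact Algebra.mem_top
      have h3 : x ∈ (Algebra.adjoin k (S₂ : Set A₂)).map A₂.val := ⟨_, h2, rfl⟩
      rw [AlgHom.map_adjoin] at h3
      refine Algebra.adjoin_le ?_ h3
      rintro _ ⟨s, hs, rfl⟩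
      by_cases h0 : (s : M) = 0
      · change (s : M) ∈ _
        rw [h0]; exact zero_mem _
      · refine Algebra.subset_adjoin ⟨t ^ N * (s : M), hYZ s (Or.inl hs) h0, ?_⟩
        change t⁻¹ ^ N * (t ^ N * (s : M)) = (s : M)
        rw [← mul_assoc, hti, one_mul]
  · intro ξ
    refine ⟨fun z hz h => ?_, fun z hz h => ?_, fun m hm => ⟨?_, ?_⟩⟩
    · obtain ⟨⟨_, h2⟩, -⟩ := hwP ξ z hz
      exact h2
    · obtain ⟨-, _, h2⟩ := hwP ξ z hz
      exact h2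
    · apply le_antisymm
      · conv_lhs => rw [← hg₁ (Φ₁ ξ m)]
        refine Ideal.span_le.2 fun x hx => ?_
        by_cases h0 : (x : M) = 0
        · have : x = 0 := Subtype.ext h0
          rw [this]; exact zero_mem _
        · have hxX := hXg ξ m hm x hx
          refine Ideal.subset_span ⟨hXZ x hxX h0, ?_⟩
          have hxm : x ∈ Φ₁ ξ m := by
            have : x ∈ Ideal.span (g₁ (Φ₁ ξ m) : Set A₁) := Ideal.subset_span hx
            rwa [hg₁] at this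
          exact Nat.le_findGreatest (P := P ξ x) hm
            ⟨⟨x.2, hxm⟩, hN3 ξ m (Finset.mem_range.2 (Nat.lt_succ_of_le hm)) x hxX hxm⟩
      · refine Ideal.span_le.2 ?_
        rintro x ⟨hxZ, hxw⟩
        obtain ⟨⟨_, h2⟩, -⟩ := hwP ξ _ hxZ
        exact a1 ξ m _ hxw h2
    · apply le_antisymm
      · conv_lhs => rw [← hg₂ (Φ₂ ξ m)]
        refine Ideal.span_le.2 fun y hy => ?_
        by_cases h0 : (y : M) = 0
        · have : y = 0 := Subtype.ext h0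
          rw [this]; exact zero_mem _
        · have hyY := hYg ξ m hm y hy
          have hty : t⁻¹ ^ N * (t ^ N * (y : M)) = (y : M) := by
            rw [← mul_assoc, hti, one_mul]
          refine Ideal.subset_span ⟨t ^ N * (y : M), hYZ y hyY h0, hty.symm, ?_⟩
          have hym : y ∈ Φ₂ ξ m := by
            have : y ∈ Ideal.span (g₂ (Φ₂ ξ m) : Set A₂) := Ideal.subset_span hy
            rwa [hg₂] at this
          refine Nat.le_findGreatest (P := P ξ (t ^ N * (y : M))) hm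
            ⟨hN4 ξ m (Finset.mem_range.2 (Nat.lt_succ_of_le hm)) y hyY hym, ?_, ?_⟩
          · rw [hty]; exact y.2
          · have : (⟨t⁻¹ ^ N * (t ^ N * (y : M)), by rw [hty]; exact y.2⟩ : A₂) = y :=
              Subtype.ext hty
            rw [this]; exact hym
      · refine Ideal.span_le.2 ?_
        rintro y ⟨z, hzZ, hyz, hzw⟩
        obtain ⟨-, h1, h2⟩ := hwP ξ _ hzZ
        have : y = ⟨t⁻¹ ^ N * z, h1⟩ := Subtype.ext hyz
        rw [this]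
        exact a2 ξ m _ hzw h2

end Pool.Agent.Zk10.PG
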