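import Pool.Agent.Zk10.W4
import Pool.Agent.Zk50.Gen2

/-!
The weighted blowup of the product, the factor `B 0` being the base, and finite generation.
-/

set_option autoImplicit false
set_option linter.overlappingInstances false
set_option linter.unusedVariables false
set_option linter.unusedSectionVars false

namespace Pool.Agent.Zk10.PG

open Pool.Agent.Y223.G
open Pool.Agent.R383.TM (WR WR_s WR_e WR_o WR_z low_mem)

section w9

variable {k k' K : Type} [Field k] [CommRing k'] [Field K] [Algebra k K] [Algebra k' K] {n : ℕ}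
  {B : Fin (n + 1) → Type} [∀ l, CommRing (B l)] [∀ l, Algebra k (B l)] [Algebra (B 0) K]
  (f : ∀ l, B l →ₐ[k] K)

theorem WR_pw (hf0 : ∀ o, algebraMap (B 0) K o = f 0 o) (𝔓 : Ideal (B 0)) (e : ℕ) {m : ℕ}
    (W : Fin (m + 1) → ℕ) (z : Fin (m + 1) → K) (j : Fin (m + 1)) (c : ℕ) :
    ∀ x ∈ 𝔓 ^ c, hm ((e * c : ℕ) : ℤ) (f 0 x) ∈ WR k' 𝔓 e W z j := by
  induction c with
  | zero =>
    intro x _
    have h := WR_o (k := k') (𝔓 := 𝔓) (e := e) (W := W) (z := z) (j := j) x
    rw [hf0] at h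
    simpa using h
  | succ c ih =>
    intro x hx
    rw [pow_succ] at hx
    induction hx using Submodule.mul_induction_on' with
    | mem_mul_mem r hr s hs =>
      have h1 := ih r hr
      have h2 := WR_e (k := k') (e := e) (W := W) (z := z) (j := j) hs
      rw [hf0] at h2
      have h3 := Subalgebra.mul_mem _ h1 h2
      rw [hm_mul, ← map_mul] at h3
      have h4 : ((e * c : ℕ) : ℤ) + (e : ℤ) = ((e * (c + 1) : ℕ) : ℤ) := by
        push_cast
        ring
      rw [h4] at h3
      exact h3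
    | add x _ y _ hx hy =>
      rw [map_add, hm_add]
      exact Subalgebra.add_mem _ hx hy

/-- (W9a) The weighted blowup in the chart `z j` (only the factors `B 1, ..., B n` have
coordinates; the factor `B 0` is the base). -/
theorem WR_eq2 (hf0 : ∀ o, algebraMap (B 0) K o = f 0 o)
    (hk : ∀ c : k, ∃ c' : k', algebraMap k' K c' = algebraMap k K c)
    (hk' : ∀ c : k', ∃ o : B 0, f 0 o = algebraMap k' K c) (𝔓 : Ideal (B 0)) (e : ℕ)
    (he : 0 < e) (Φ : ∀ l, ℕ → Ideal (B l)) (hΦ0 : Φ 0 = PF 𝔓 e) (D : ℕ) (hD : 0 < D)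
    (hΦ : ∀ l, Flt (Φ l) D) (Z : Fin n → Type) (v : ∀ l, Z l → B l.succ) (w : ∀ l, Z l → ℕ)
    (h1 : ∀ l, ∃ a, v l a = 1) (hZ : ∀ l, Algebra.adjoin k (Set.range (v l)) = ⊤)
    (hw : ∀ l a, v l a ∈ Φ l.succ (w l a))
    (hZ2 : ∀ l : Fin n, ∀ m, m ≤ D →
      Φ l.succ m = Ideal.span {x | ∃ a, x = v l a ∧ m ≤ w l a})
    {m : ℕ} (E : (∀ l, Z l) ≃ Fin (m + 1)) (z : Fin (m + 1) → K) (j : Fin (m + 1))
    (hz : ∀ i, z i / z j = ∏ l, f l.succ (v l (E.symm i l))) :
    WR k' 𝔓 e (fun i => ∑ l, w l (E.symm i l)) z j =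
      RR k' (fun l => (f l : B l →+* K)) Φ := by
  have h00 : Φ 0 0 = ⊤ := (hΦ 0).zero
  apply le_antisymm
  · unfold WR
    rw [Algebra.adjoin_le_iff]
    rintro g (((hg | ⟨a, ha, rfl⟩) | ⟨o, rfl⟩) | ⟨i, rfl⟩)
    · rw [hg]
      exact RR_T
    · rw [hf0]
      exact RR_g (k := k') (f := fun l => (f l : B l →+* K)) (Φ := Φ) (l := 0) (m := e) (x := a)
        (by rw [hΦ0, PF_self 𝔓 he]; exact ha)
    · rw [hf0]
      have h2 := RR_g (k := k') (f := fun l => (f l : B l →+* K)) (Φ := Φ) (l := 0) (m := 0)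
        (x := o) (by rw [h00]; trivial)
      exact_mod_cast h2
    · change hm ((∑ l, w l (E.symm i l) : ℕ) : ℤ) (z i / z j) ∈
        RR k' (fun l => (f l : B l →+* K)) Φ
      rw [hz]
      have e1 : hm ((∑ l, w l (E.symm i l) : ℕ) : ℤ) (∏ l, f l.succ (v l (E.symm i l))) =
          ∏ l, hm ((w l (E.symm i l) : ℕ) : ℤ) (f l.succ (v l (E.symm i l))) := by
        rw [Nat.cast_sum, hm_prod]
      rw [e1]
      refine Subalgebra.prod_mem _ fun l _ => ?_
      exact RR_g (k := k') (f := fun l => (f l : B l →+* K)) (Φ := Φ) (l := l.succ)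
        (m := w l (E.symm i l)) (x := v l (E.symm i l)) (hw l (E.symm i l))
  · have hall : ∀ (l : Fin (n + 1)) (q : ℕ) (x : B l), x ∈ Φ l q →
        hm (q : ℤ) (f l x) ∈ WR k' 𝔓 e (fun i => ∑ l, w l (E.symm i l)) z j := by
      intro l
      refine Fin.cases (motive := fun l => ∀ (q : ℕ) (x : B l), x ∈ Φ l q →
        hm (q : ℤ) (f l x) ∈ WR k' 𝔓 e (fun i => ∑ l, w l (E.symm i l)) z j) ?_ ?_ l
      · intro q x hx
        rw [hΦ0] at hx
        unfold PF at hx
        have h2 := WR_pw (k' := k') f hf0 𝔓 e (fun i => ∑ l, w l (E.symm i l)) z j _ x hx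
        refine low_mem WR_s h2 ?_
        have h3 : q ≤ e * ((q + (e - 1)) / e) := by
          have h4 := Nat.div_add_mod (q + (e - 1)) e
          have h5 := Nat.mod_lt (q + (e - 1)) he
          omega
        exact_mod_cast h3
      · intro l q x hx
        have hRZ := RZ_gen (fun l : Fin n => f l.succ) (fun l => Φ l.succ) D hD
          (fun l => hΦ l.succ) Z v w h1 hZ hw hZ2
        have h2 : hm (q : ℤ) (f l.succ x) ∈
            RR k (fun l : Fin n => (f l.succ : B l.succ →+* K)) (fun l => Φ l.succ) :=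
          RR_g (k := k) (f := fun l : Fin n => (f l.succ : B l.succ →+* K))
            (Φ := fun l => Φ l.succ) (l := l) (m := q) (x := x) hx
        have hsub : ∀ g ∈ RR k (fun l : Fin n => (f l.succ : B l.succ →+* K)) (fun l => Φ l.succ),
            g ∈ WR k' 𝔓 e (fun i => ∑ l, w l (E.symm i l)) z j := by
          intro g hg
          rw [← hRZ] at hg
          induction hg using Algebra.adjoin_induction with
          | mem x hx =>
            rcases hx with hx | ⟨a, rfl⟩
            · rw [Set.mem_singleton_iff] at hx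
              rw [hx]
              exact WR_s
            · have h2 := WR_z (k := k') (𝔓 := 𝔓) (e := e)
                (W := fun i => ∑ l, w l (E.symm i l)) (z := z) (j := j) (E a)
              rw [hz] at h2
              simp only [Equiv.symm_apply_apply] at h2
              exact h2
          | algebraMap r =>
            obtain ⟨c, hc⟩ := hk r
            rw [algebraMap_LP, ← hc, ← algebraMap_LP]
            exact Subalgebra.algebraMap_mem _ c
          | add x y _ _ hx hy => exact Subalgebra.add_mem _ hx hy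
          | mul x y _ _ hx hy => exact Subalgebra.mul_mem _ hx hy
        exact hsub _ h2
    unfold RR
    rw [Algebra.adjoin_le_iff]
    rintro g (hg | ⟨l, q, x, hx, rfl⟩)
    · rw [hg]
      exact WR_s
    · exact hall l q x hx

/-- Finite generation, for arbitrary periodic filtrations. -/
theorem RR_ft' [∀ l, Algebra.FiniteType k (B l)] (Φ : ∀ l, ℕ → Ideal (B l)) (D : ℕ)
    (hD : 0 < D) (hΦ : ∀ l, Flt (Φ l) D) :
    Algebra.FiniteType k (RR k (fun l => (f l : B l →+* K)) Φ) := by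
  have hex : ∀ l, ∃ Z : Set (B l), Z.Finite ∧ (1 : B l) ∈ Z ∧ Algebra.adjoin k Z = ⊤ ∧
      ∀ m, m ≤ D → Φ l m = Ideal.span (Z ∩ (Φ l m : Set (B l))) := by
    intro l
    have : Nontrivial (B l) := (f l : B l →+* K).domain_nontrivial
    have : IsNoetherianRing (B l) := Algebra.FiniteType.isNoetherianRing k (B l)
    obtain ⟨Z, hZf, hZ1, -, -, hZa, hZΦ⟩ := exists_gens (k := k) (B := B l) (G := PUnit)
      (1 : PUnit →* (B l ≃ₐ[k] B l)) {Φ l} (Set.finite_singleton _) D
    exact ⟨Z, hZf, hZ1, hZa, hZΦ (Φ l) rfl⟩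
  choose Z hZf hZ1 hZa hZΦ using hex
  have : ∀ l, Finite (Z l) := fun l => (hZf l).to_subtype
  rw [← Subalgebra.fg_iff_finiteType, ← RZ_eq f Φ D hD hΦ Z hZ1 hZa hZΦ, Subalgebra.fg_def]
  exact ⟨_, (Set.finite_singleton _).union (Set.finite_range _), rfl⟩

/-- (W9b) -/
theorem RR_ft [∀ l, Algebra.FiniteType k (B l)] (𝔓 : Ideal (B 0)) (e : ℕ) (he : 0 < e)
    (Φ : ∀ l, ℕ → Ideal (B l)) (hΦ0 : Φ 0 = PF 𝔓 e) (D : ℕ) (hD : 0 < D)
    (hΦ : ∀ l, Flt (Φ l) D) :
    Algebra.FiniteType k (RR k (fun l => (f l : B l →+* K)) Φ) :=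
  RR_ft' f Φ D hD hΦ

end w9

end Pool.Agent.Zk10.PG
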