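import Pool.Agent.Zk10.W2

/-!
The weights, finite stable sets of generators, and the generators of the graded algebra.
-/

set_option autoImplicit false
set_option linter.overlappingInstances false

namespace Pool.Agent.Zk10.PG

open Pool.Agent.Y223.G

section w

variable {B : Type} [CommRing B] {Φ : ℕ → Ideal B} {D : ℕ}

theorem wgt_mem (h : Φ 0 = ⊤) (x : B) : x ∈ Φ (wgt Φ D x) := by
  classical
  have h0 : x ∈ Φ 0 := by rw [h]; exact Submodule.mem_top
  unfold wgt
  exact Nat.findGreatest_spec (P := fun m => x ∈ Φ m) (Nat.zero_le D) h0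

theorem wgt_map {B' : Type} [CommRing B'] (Φ' : ℕ → Ideal B') (g : B → B')
    (h : ∀ m x, x ∈ Φ m ↔ g x ∈ Φ' m) (x : B) : wgt Φ' D (g x) = wgt Φ D x := by
  classical
  unfold wgt
  exact le_antisymm
    (Nat.findGreatest_mono_left (P := fun m => g x ∈ Φ' m) (Q := fun m => x ∈ Φ m)
      (fun m hm => (h m x).2 hm) D)
    (Nat.findGreatest_mono_left (P := fun m => x ∈ Φ m) (Q := fun m => g x ∈ Φ' m)
      (fun m hm => (h m x).1 hm) D)

theorem le_wgt {m : ℕ} (hm : m ≤ D) {x : B} (hx : x ∈ Φ m) : m ≤ wgt Φ D x := by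
  classical
  unfold wgt
  exact Nat.le_findGreatest (P := fun m => x ∈ Φ m) hm hx

end w

/-- Generators. -/
theorem exists_gens {k B G : Type} [Field k] [CommRing B] [Nontrivial B] [IsNoetherianRing B]
    [Algebra k B] [Algebra.FiniteType k B] [Group G] [Finite G] (θ : G →* (B ≃ₐ[k] B))
    (S : Set (ℕ → Ideal B)) (hS : S.Finite) (D : ℕ) :
    ∃ Z : Set B, Z.Finite ∧ 1 ∈ Z ∧ 0 ∉ Z ∧ (∀ g, ∀ z ∈ Z, θ g z ∈ Z) ∧
      Algebra.adjoin k Z = ⊤ ∧ ∀ Φ ∈ S, ∀ m, m ≤ D → Φ m = Ideal.span (Z ∩ (Φ m : Set B)) := by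
  classical
  obtain ⟨A, hA⟩ := Algebra.FiniteType.out (R := k) (A := B)
  have hgen : ∀ I : Ideal B, ∃ s : Finset B, Ideal.span (s : Set B) = I := fun I =>
    IsNoetherian.noetherian I
  choose gen hgen using hgen
  let Z0 : Set B := {1} ∪ (A : Set B) ∪ ⋃ Φ ∈ S, ⋃ m ∈ Finset.range (D + 1), (gen (Φ m) : Set B)
  have hZ0 : Z0.Finite := by
    refine ((Set.finite_singleton _).union A.finite_toSet).union ?_
    exact hS.biUnion fun Φ _ => (Finset.finite_toSet (Finset.range (D + 1))).biUnion fun m _ =>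
      (gen (Φ m)).finite_toSet
  let Z1 : Set B := ⋃ g : G, θ g '' Z0
  have hZ1 : Z1.Finite := Set.finite_iUnion fun g => hZ0.image _
  have h01 : ∀ z ∈ Z0, z ∈ Z1 := fun z hz =>
    Set.mem_iUnion.2 ⟨1, z, hz, by rw [map_one]; rfl⟩
  refine ⟨Z1 \ {0}, hZ1.subset Set.sdiff_subset, ⟨h01 1 (Or.inl (Or.inl rfl)), one_ne_zero⟩,
    fun h => h.2 rfl, ?_, ?_, ?_⟩
  · rintro g z ⟨hz, hz0⟩
    obtain ⟨h, y, hy, rfl⟩ := Set.mem_iUnion.1 hz
    refine ⟨Set.mem_iUnion.2 ⟨g * h, y, hy, by rw [map_mul]; rfl⟩, ?_⟩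
    intro h0
    exact hz0 ((map_eq_zero_iff (θ g) (θ g).injective).1 h0)
  · rw [eq_top_iff, ← hA]
    refine Algebra.adjoin_le fun x hx => ?_
    by_cases h0 : x = 0
    · rw [h0]
      exact zero_mem _
    · exact Algebra.subset_adjoin ⟨h01 x (Or.inl (Or.inr hx)), h0⟩
  · intro Φ hΦ m hm
    apply le_antisymm
    · conv_lhs => rw [← hgen (Φ m)]
      refine Ideal.span_le.2 fun x hx => ?_
      by_cases h0 : x = 0
      · rw [h0]
        exact zero_mem _
      · refine Ideal.subset_span ⟨⟨h01 x (Or.inr ?_), h0⟩, ?_⟩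
        · exact Set.mem_biUnion hΦ (Set.mem_biUnion
            (Finset.mem_coe.2 (Finset.mem_range.2 (Nat.lt_succ_of_le hm))) hx)
        · have : x ∈ Ideal.span (gen (Φ m) : Set B) := Ideal.subset_span hx
          rwa [hgen] at this
    · exact Ideal.span_le.2 Set.inter_subset_right

/-- The graded algebra is generated by the products of the generators. -/
theorem RZ_eq {k K : Type} [Field k] [Field K] [Algebra k K] {n : ℕ} {B : Fin n → Type}
    [∀ l, CommRing (B l)] [∀ l, Algebra k (B l)] (f : ∀ l, B l →ₐ[k] K)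
    (Φ : ∀ l, ℕ → Ideal (B l)) (D : ℕ) (hD : 0 < D) (hΦ : ∀ l, Flt (Φ l) D)
    (Z : ∀ l, Set (B l)) (h1 : ∀ l, (1 : B l) ∈ Z l) (hZ : ∀ l, Algebra.adjoin k (Z l) = ⊤)
    (hZ2 : ∀ l, ∀ m, m ≤ D → Φ l m = Ideal.span (Z l ∩ (Φ l m : Set (B l)))) :
    Algebra.adjoin k ({hm (-1) 1} ∪ Set.range fun a : (∀ l, Z l) =>
      hm ((∑ l, wgt (Φ l) D (a l : B l) : ℕ) : ℤ) (∏ l, f l (a l : B l))) =
    RR k (fun l => (f l : B l →+* K)) Φ := by
  classical
  apply le_antisymm
  · refine Algebra.adjoin_le ?_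
    rintro _ (rfl | ⟨a, rfl⟩)
    · exact Algebra.subset_adjoin (Or.inl rfl)
    · have e : hm ((∑ l, wgt (Φ l) D (a l : B l) : ℕ) : ℤ) (∏ l, f l (a l : B l)) =
          ∏ l, hm ((wgt (Φ l) D (a l : B l) : ℕ) : ℤ) (f l (a l : B l)) := by
        rw [Nat.cast_sum, hm_prod]
      simp only [e]
      refine Subalgebra.prod_mem _ fun l _ => Algebra.subset_adjoin (Or.inr ?_)
      exact ⟨l, _, _, wgt_mem (hΦ l).zero _, rfl⟩
  · set A := Algebra.adjoin k ({hm (-1) 1} ∪ Set.range fun a : (∀ l, Z l) =>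
      hm ((∑ l, wgt (Φ l) D (a l : B l) : ℕ) : ℤ) (∏ l, f l (a l : B l))) with hA
    have hneg : ∀ j : ℕ, (hm (-(j : ℤ)) 1 : LP K) ∈ A := by
      intro j
      have h2 : (hm (-1) 1 : LP K) ∈ A := Algebra.subset_adjoin (Or.inl rfl)
      have h3 := Subalgebra.pow_mem A h2 j
      rw [hm_pow, one_pow] at h3
      convert h3 using 2
      ring
    have hlow : ∀ (d e : ℤ) (x : K), e ≤ d → hm d x ∈ A → hm e x ∈ A := by
      intro d e x hed hx
      obtain ⟨j, hj⟩ := Int.eq_ofNat_of_zero_le (sub_nonneg.2 hed)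
      have h2 := Subalgebra.mul_mem A hx (hneg j)
      rw [hm_mul, mul_one] at h2
      convert h2 using 2
      omega
    have hgen : ∀ (l : Fin n) (z : B l), z ∈ Z l → ∀ m : ℕ, m ≤ wgt (Φ l) D z →
        hm (m : ℤ) (f l z) ∈ A := by
      intro l z hz m hm'
      let a : ∀ l, Z l := Function.update (fun l => ⟨1, h1 l⟩) l ⟨z, hz⟩
      have ha : hm ((∑ l, wgt (Φ l) D (a l : B l) : ℕ) : ℤ) (∏ l, f l (a l : B l)) ∈ A :=
        Algebra.subset_adjoin (Or.inr ⟨a, rfl⟩)
      have hal : (a l : B l) = z := by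
        simp only [a, Function.update_self]
      have hp : ∏ l, f l (a l : B l) = f l z := by
        rw [Finset.prod_eq_single l]
        · rw [hal]
        · intro l' _ hl'
          simp only [a, Function.update_of_ne hl', map_one]
        · intro h
          exact absurd (Finset.mem_univ l) h
      rw [hp] at ha
      refine hlow _ _ _ ?_ ha
      have h2 : wgt (Φ l) D (a l : B l) ≤ ∑ l, wgt (Φ l) D (a l : B l) :=
        Finset.single_le_sum (f := fun l => wgt (Φ l) D (a l : B l))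
          (fun _ _ => Nat.zero_le _) (Finset.mem_univ l)
      rw [hal] at h2
      exact_mod_cast hm'.trans h2
    have h0 : ∀ (l : Fin n) (b : B l), hm 0 (f l b) ∈ A := by
      intro l b
      have hb : b ∈ Algebra.adjoin k (Z l) := by
        rw [hZ l]
        exact Algebra.mem_top
      induction hb using Algebra.adjoin_induction with
      | mem x hx => exact_mod_cast hgen l x hx 0 (Nat.zero_le _)
      | algebraMap r =>
        rw [AlgHom.commutes]
        exact Subalgebra.algebraMap_mem A r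
      | add x y _ _ hx hy =>
        rw [map_add, hm_add]
        exact Subalgebra.add_mem A hx hy
      | mul x y _ _ hx hy =>
        have h2 := Subalgebra.mul_mem A hx hy
        rwa [hm_mul, add_zero, ← map_mul] at h2
    have hsm : ∀ (l : Fin n) (m : ℕ), m ≤ D → ∀ x ∈ Φ l m, hm (m : ℤ) (f l x) ∈ A := by
      intro l m hmD x hx
      rw [hZ2 l m hmD] at hx
      induction hx using Submodule.span_induction with
      | mem x hx => exact hgen l x hx.1 m (le_wgt hmD hx.2)
      | zero =>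
        rw [map_zero, hm_zero]
        exact Subalgebra.zero_mem A
      | add x y _ _ hx hy =>
        rw [map_add, hm_add]
        exact Subalgebra.add_mem A hx hy
      | smul b x _ hx =>
        have h2 := Subalgebra.mul_mem A (h0 l b) hx
        rwa [hm_mul, zero_add, ← map_mul] at h2
    have hall : ∀ (l : Fin n) (m : ℕ), ∀ x ∈ Φ l m, hm (m : ℤ) (f l x) ∈ A := by
      intro l m
      induction m using Nat.strong_induction_on with
      | _ m ih =>
        intro x hx
        rcases le_or_gt m D with hmD | hmD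
        · exact hsm l m hmD x hx
        · obtain ⟨m', rfl⟩ := Nat.exists_eq_add_of_le hmD.le
          rw [add_comm, (hΦ l).per] at hx
          induction hx using Submodule.mul_induction_on' with
          | mem_mul_mem r hr s hs =>
            have h2 := Subalgebra.mul_mem A (hsm l D le_rfl r hr) (ih m' (by omega) s hs)
            rw [hm_mul, ← map_mul] at h2
            exact_mod_cast h2
          | add x _ y _ hx hy =>
            rw [map_add, hm_add]
            exact Subalgebra.add_mem A hx hy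
    refine Algebra.adjoin_le ?_
    rintro _ (rfl | ⟨l, m, x, hx, rfl⟩)
    · exact Algebra.subset_adjoin (Or.inl rfl)
    · exact hall l m x hx

end Pool.Agent.Zk10.PG
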