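import Pool.Agent.Zk50.G2

set_option autoImplicit false

/-! # A function of class `C^r` which decodes mixed radix digits: general denominators -/

namespace Pool.Agent.Zk50.G2

open Set Filter Topology Metric Module MeasureTheory
open scoped ContDiff ENNReal

/-- H1: `hier_code` with general denominators -/
theorem hier_code_gen (r d K : ℕ) (hK : 1 ≤ K) (b : ℕ → ℕ) (hb : ∀ J, 2 ≤ b J) (P : ℕ → ℕ)
    (hP : ∀ J, P J = ∏ j ∈ Finset.range (J + 1), b j) (Y : ℕ → ℝ) (hY : ∀ J, 0 < Y J)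
    (G : ℕ → Finset ((Fin d → ℕ) × ℕ)) (M : ℕ → ℝ)
    (hG1 : ∀ J, ∀ x ∈ G J, ∀ i, x.1 i ≤ K * b J) (hG2 : ∀ J, ∀ x ∈ G J, (x.2 : ℝ) ≤ M J)
    (hsep : ∀ J, ∀ x ∈ G J, ∀ y ∈ G J, x ≠ y → ∃ i, (4 * K + 3 : ℤ) ≤ |(x.1 i : ℤ) - y.1 i|)
    (hM : Summable fun J => M J * (P J : ℝ) ^ r / Y J) :
    ∃ g : EuclideanSpace ℝ (Fin d) → ℝ, ContDiff ℝ r g ∧
      ∀ s : ℕ → (Fin d → ℕ) × ℕ, (∀ J, s J ∈ G J) →
        g (WithLp.toLp 2 fun i => ∑' J : ℕ, ((s J).1 i : ℝ) / (P J : ℝ)) =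
          ∑' J : ℕ, ((s J).2 : ℝ) / Y J := by
  have _ := hK
  have hPQ : ∀ J, (P J : ℝ) = Q b (J + 1) := by
    intro J
    rw [hP J, Q]
    push_cast
    rfl
  simp only [hPQ] at hM ⊢
  refine ⟨fun x => ∑' J : ℕ, lev (K : ℝ) b G J x / Y J, ?_, ?_⟩
  · choose C hC using fun k => Phi_bdd d (K : ℝ) k
    have hC0 : ∀ k, 0 ≤ C k := fun k => (norm_nonneg _).trans (hC k 0)
    refine contDiff_tsum (𝕜 := ℝ) (E := EuclideanSpace ℝ (Fin d)) (F := ℝ) (N := r)
      (f := fun (J : ℕ) x => lev (K : ℝ) b G J x / Y J)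
      (v := fun k (J : ℕ) => C k * |M J * Q b (J + 1) ^ r / Y J|) ?_ ?_ ?_
    · intro J
      exact (lev_contDiff (K : ℝ) b G J r).div_const _
    · intro k _
      exact hM.abs.mul_left _
    · intro k J x hk
      have hkr : k ≤ r := by exact_mod_cast hk
      have hq := Q_pos hb (J + 1)
      have hq1 := one_le_Q hb (J + 1)
      have hYJ := hY J
      have e1 : (fun x : EuclideanSpace ℝ (Fin d) => lev (K : ℝ) b G J x / Y J) =
          (Y J)⁻¹ • (lev (K : ℝ) b G J) := by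
        funext y
        simp only [Pi.smul_apply, smul_eq_mul]
        rw [div_eq_inv_mul]
      rw [e1, iteratedFDeriv_const_smul_apply (lev_contDiff (K : ℝ) b G J k).contDiffAt, norm_smul,
        norm_inv, Real.norm_of_nonneg hYJ.le]
      have h2 := lev_bound hb hG1 hG2 hsep k (hC k) J x
      calc (Y J)⁻¹ * ‖iteratedFDeriv ℝ k (lev (K : ℝ) b G J) x‖
          ≤ (Y J)⁻¹ * (|M J| * (C k * Q b (J + 1) ^ k)) :=
            mul_le_mul_of_nonneg_left h2 (by positivity)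
        _ ≤ (Y J)⁻¹ * (|M J| * (C k * Q b (J + 1) ^ r)) := by
            refine mul_le_mul_of_nonneg_left (mul_le_mul_of_nonneg_left
              (mul_le_mul_of_nonneg_left (pow_le_pow_right₀ hq1 hkr) (hC0 k)) (abs_nonneg _))
              (by positivity)
        _ = C k * |M J * Q b (J + 1) ^ r / Y J| := by
            rw [abs_div, abs_mul, abs_of_pos hYJ, abs_of_pos (pow_pos hq r)]
            field_simp
  · intro s hs
    refine tsum_congr fun J => ?_
    simp only [lev_value hb hG1 hsep s hs J]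

end Pool.Agent.Zk50.G2
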