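import Pool.Agent.Zk50.G3

set_option autoImplicit false

/-! # Almost all mixed radix digits: general bases -/

namespace Pool.Agent.Zk50.G3

open Set Filter Topology Metric Module MeasureTheory
open scoped ContDiff ENNReal

/-- the digits of a point, for the bases `B` -/
noncomputable def digsg {n : ℕ} (B : ℕ → Fin n → ℕ) (z : EuclideanSpace ℝ (Fin n)) (J : ℕ) :
    Fin n → ℕ :=
  fun i => dig (fun j => B j i) (z i) J

theorem cell_volg {n : ℕ} {B : ℕ → Fin n → ℕ} (hB : ∀ J i, 2 ≤ B J i) (J : ℕ) (δ : Fin n → ℕ) :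
    volume {z : EuclideanSpace ℝ (Fin n) | z ∈ cube n ∧ digsg B z J = δ} ≤
      ENNReal.ofReal ((∏ i, (B J i : ℝ))⁻¹) := by
  have hB0 : ∀ i, 0 < B J i := fun i => by have := hB J i; omega
  set S : Fin n → Set ℝ := fun i => T (Qn (fun j => B j i) J) (B J i) (δ i) with hS
  have hmeas : ∀ i, MeasurableSet (S i) := fun i => T_meas _ _ _
  have hsub : {z : EuclideanSpace ℝ (Fin n) | z ∈ cube n ∧ digsg B z J = δ} ⊆
      (@WithLp.ofLp 2 (Fin n → ℝ)) ⁻¹' (Set.univ.pi S) := by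
    rintro z ⟨hz, hd⟩ i _
    refine mem_T (Qn_pos (fun j => hB j i) J) (hB0 i) (hz _).1 (hz _).2 ?_
    have := congrFun hd i
    simp only [digsg, dig, Qn_succ] at this
    exact this
  refine (measure_mono hsub).trans ?_
  rw [(PiLp.volume_preserving_ofLp (Fin n)).measure_preimage
    (MeasurableSet.univ_pi hmeas).nullMeasurableSet, volume_pi_pi]
  have h1 : ∏ i : Fin n, volume (S i) ≤ ∏ i : Fin n, ENNReal.ofReal ((B J i : ℝ)⁻¹) :=
    Finset.prod_le_prod' fun i _ => T_vol (Qn_pos (fun j => hB j i) J) (hB0 i) _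
  refine h1.trans (le_of_eq ?_)
  rw [← ENNReal.ofReal_prod_of_nonneg fun i _ => by positivity]
  congr 1
  rw [Finset.prod_inv_distrib]

/-- H2: almost all digits, general bases -/
theorem digits_measure_gen (n : ℕ) (B : ℕ → Fin n → ℕ) (hB : ∀ J i, 2 ≤ B J i)
    (Bad : ℕ → Finset (Fin n → ℕ)) (η : ℕ → ℝ) (hη : Summable η)
    (hBad : ∀ J, ((Bad J).card : ℝ) ≤ η J * ∏ i, (B J i : ℝ)) :
    ENNReal.ofReal (1 - ∑' J, η J) ≤
      volume {z : EuclideanSpace ℝ (Fin n) | (∀ i, z i ∈ Icc (0 : ℝ) 1) ∧ ∃ x : ℕ → Fin n → ℕ,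
        (∀ J i, x J i < B J i) ∧ (∀ J, x J ∉ Bad J) ∧
        ∀ i, HasSum (fun J => (x J i : ℝ) / ∏ j ∈ Finset.range (J + 1), (B j i : ℝ)) (z i)} := by
  have hQ : ∀ (i : Fin n) (J : ℕ), ∏ j ∈ Finset.range (J + 1), (B j i : ℝ) =
      (Qn (fun j => B j i) (J + 1) : ℕ) := by
    intro i J
    rw [Qn]
    push_cast
    rfl
  have hB0 : ∀ J, (0 : ℝ) < ∏ i, (B J i : ℝ) := fun J => Finset.prod_pos fun i _ => by
    have := hB J i
    exact_mod_cast (by omega : 0 < B J i)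
  have hη0 : ∀ J, 0 ≤ η J := by
    intro J
    have h1 : (0 : ℝ) ≤ η J * ∏ i, (B J i : ℝ) := le_trans (by positivity) (hBad J)
    exact nonneg_of_mul_nonneg_left h1 (hB0 J)
  set good := {z : EuclideanSpace ℝ (Fin n) | (∀ i, z i ∈ Icc (0 : ℝ) 1) ∧ ∃ x : ℕ → Fin n → ℕ,
        (∀ J i, x J i < B J i) ∧ (∀ J, x J ∉ Bad J) ∧
        ∀ i, HasSum (fun J => (x J i : ℝ) / ∏ j ∈ Finset.range (J + 1), (B j i : ℝ)) (z i)}
    with hgood
  have hsub : cube n ⊆ good ∪ ⋃ J, ⋃ δ ∈ Bad J, {z | z ∈ cube n ∧ digsg B z J = δ} := by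
    intro z hz
    by_cases h : ∀ J, digsg B z J ∉ Bad J
    · left
      refine ⟨fun i => ⟨(hz i).1, (hz i).2.le⟩, fun J => digsg B z J,
        fun J i => dig_lt (fun j => hB j i) _ _, h, fun i => ?_⟩
      simp only [hQ]
      exact dig_hasSum (fun j => hB j i) (hz _).1 (hz _).2
    · right
      push Not at h
      obtain ⟨J, hJ⟩ := h
      exact Set.mem_iUnion.2 ⟨J, Set.mem_iUnion₂.2 ⟨_, hJ, hz, rfl⟩⟩
  have h1 : (1 : ℝ≥0∞) ≤ volume good + ∑' J, ENNReal.ofReal (η J) := by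
    rw [← cube_vol n]
    refine (measure_mono hsub).trans ((measure_union_le _ _).trans ?_)
    refine add_le_add le_rfl ((measure_iUnion_le _).trans (ENNReal.tsum_le_tsum fun J => ?_))
    refine (measure_biUnion_finset_le _ _).trans ?_
    refine (Finset.sum_le_sum fun δ _ => cell_volg hB J δ).trans ?_
    rw [Finset.sum_const, nsmul_eq_mul, ← ENNReal.ofReal_natCast, ← ENNReal.ofReal_mul
      (by positivity)]
    refine ENNReal.ofReal_le_ofReal ?_
    rw [← div_eq_mul_inv, div_le_iff₀ (hB0 J)]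
    exact hBad J
  rw [← ENNReal.ofReal_tsum_of_nonneg hη0 hη] at h1
  rw [ENNReal.ofReal_sub _ (tsum_nonneg hη0), ENNReal.ofReal_one]
  exact tsub_le_iff_right.2 h1

end Pool.Agent.Zk50.G3
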