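import Mathlib

set_option autoImplicit false

/-! # Differences of positive measure give finite sets with all differences -/

namespace Pool.Agent.Zk50.G5

open Set Filter Topology Metric Module MeasureTheory
open scoped ContDiff ENNReal

/-! ## Covering by translates -/

theorem greedy {X : Type*} [AddCommGroup X] [Fintype X] [DecidableEq X] (V : Finset X) (c : ℝ)
    (hc1 : c ≤ 1) (hV : c * Fintype.card X ≤ V.card) (j : ℕ) :
    ∃ T : Finset X, T.card ≤ j ∧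
      (((Finset.univ.filter fun ρ => ∀ τ ∈ T, ρ - τ ∉ V).card : ℕ) : ℝ) ≤
        (1 - c) ^ j * Fintype.card X := by
  induction j with
  | zero =>
    refine ⟨∅, by simp, ?_⟩
    simp only [pow_zero, one_mul]
    exact_mod_cast Finset.card_le_univ _
  | succ j ih =>
    obtain ⟨T, hT, hU⟩ := ih
    set U : Finset X := Finset.univ.filter fun ρ => ∀ τ ∈ T, ρ - τ ∉ V with hUdef
    -- the average over all translates
    have hsum : ∑ τ : X, (((U.filter fun ρ => ρ - τ ∈ V).card : ℕ) : ℝ) =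
        (U.card : ℝ) * V.card := by
      have h1 : ∀ τ : X, (((U.filter fun ρ => ρ - τ ∈ V).card : ℕ) : ℝ) =
          ∑ ρ ∈ U, if ρ - τ ∈ V then (1 : ℝ) else 0 := by
        intro τ
        rw [Finset.card_filter]
        push_cast
        rfl
      simp only [h1]
      rw [Finset.sum_comm]
      have h2 : ∀ ρ ∈ U, ∑ τ : X, (if ρ - τ ∈ V then (1 : ℝ) else 0) = V.card := by
        intro ρ _
        rw [← Equiv.sum_comp (Equiv.subLeft ρ) (fun τ => if ρ - τ ∈ V then (1 : ℝ) else 0)]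
        simp
      rw [Finset.sum_congr rfl h2, Finset.sum_const, nsmul_eq_mul]
    obtain ⟨τ, -, hτ⟩ : ∃ τ ∈ (Finset.univ : Finset X),
        c * U.card ≤ (((U.filter fun ρ => ρ - τ ∈ V).card : ℕ) : ℝ) := by
      refine Finset.exists_le_of_sum_le ⟨0, Finset.mem_univ _⟩ ?_
      rw [hsum, Finset.sum_const, nsmul_eq_mul, Finset.card_univ]
      calc (Fintype.card X : ℝ) * (c * U.card) = U.card * (c * Fintype.card X) := by ring
        _ ≤ U.card * V.card := mul_le_mul_of_nonneg_left hV (by positivity)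
    refine ⟨insert τ T, (Finset.card_insert_le _ _).trans (by omega), ?_⟩
    have hsplit : (Finset.univ.filter fun ρ => ∀ σ ∈ insert τ T, ρ - σ ∉ V) =
        U.filter fun ρ => ¬ (ρ - τ ∈ V) := by
      ext ρ
      simp only [hUdef, Finset.mem_filter, Finset.mem_univ, true_and, Finset.mem_insert,
        forall_eq_or_imp]
      tauto
    rw [hsplit]
    have h3 : ((U.filter fun ρ => ρ - τ ∈ V).card : ℝ) +
        ((U.filter fun ρ => ¬ (ρ - τ ∈ V)).card : ℝ) = U.card := by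
      exact_mod_cast Finset.card_filter_add_card_filter_not (fun ρ => ρ - τ ∈ V)
    calc ((U.filter fun ρ => ¬ (ρ - τ ∈ V)).card : ℝ) ≤ (1 - c) * U.card := by linarith
      _ ≤ (1 - c) * ((1 - c) ^ j * Fintype.card X) :=
          mul_le_mul_of_nonneg_left hU (by linarith)
      _ = (1 - c) ^ (j + 1) * Fintype.card X := by ring

/-- G5a: covering by translates -/
theorem exists_translates (N n : ℕ) (hN : 1 ≤ N) (V : Finset (Fin n → ZMod N)) (c : ℝ) (hc : 0 < c)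
    (hV : c * (N : ℝ) ^ n ≤ V.card) :
    ∃ T : Finset (Fin n → ZMod N), (T.card : ℝ) ≤ n * Real.log N / c + 2 ∧
      ∀ ρ, ∃ τ ∈ T, ρ - τ ∈ V := by
  classical
  have : NeZero N := ⟨by omega⟩
  have hcard : (Fintype.card (Fin n → ZMod N) : ℝ) = (N : ℝ) ^ n := by
    rw [Fintype.card_fun, ZMod.card, Fintype.card_fin]
    push_cast
    rfl
  have hN0 : (0 : ℝ) < (N : ℝ) := by exact_mod_cast hN
  have hNn : (0 : ℝ) < (N : ℝ) ^ n := by positivity
  have hc1 : c ≤ 1 := by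
    have h1 : (V.card : ℝ) ≤ (N : ℝ) ^ n := by
      rw [← hcard]
      exact_mod_cast Finset.card_le_univ V
    by_contra hcon
    have h2 : 1 * (N : ℝ) ^ n < c * (N : ℝ) ^ n := mul_lt_mul_of_pos_right (not_le.1 hcon) hNn
    linarith
  set L : ℝ := n * Real.log N / c with hL
  have hL0 : 0 ≤ L := div_nonneg (mul_nonneg (by positivity)
    (Real.log_nonneg (by exact_mod_cast hN))) hc.le
  obtain ⟨T, hT, hU⟩ := greedy V c hc1 (by rw [hcard]; exact hV) (⌊L⌋₊ + 1)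
  refine ⟨T, ?_, ?_⟩
  · have h1 : (T.card : ℝ) ≤ (⌊L⌋₊ : ℝ) + 1 := by exact_mod_cast hT
    have h2 := Nat.floor_le hL0
    linarith
  · have hlt : (1 - c) ^ (⌊L⌋₊ + 1) * (Fintype.card (Fin n → ZMod N) : ℝ) < 1 := by
      rw [hcard]
      have h1 : (1 - c) ^ (⌊L⌋₊ + 1) ≤ Real.exp (-c) ^ (⌊L⌋₊ + 1) := by
        refine pow_le_pow_left₀ (by linarith) ?_ _
        have := Real.add_one_le_exp (-c)
        linarith
      have h2 : Real.exp (-c) ^ (⌊L⌋₊ + 1) < Real.exp (-(n * Real.log N)) := by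
        rw [← Real.exp_nat_mul]
        refine Real.exp_lt_exp.2 ?_
        have h3 : L < (⌊L⌋₊ : ℝ) + 1 := Nat.lt_floor_add_one L
        have h4 : n * Real.log N = L * c := by
          rw [hL]
          field_simp
        rw [h4]
        push_cast
        nlinarith
      have h5 : Real.exp (-(n * Real.log N)) = ((N : ℝ) ^ n)⁻¹ := by
        rw [Real.exp_neg, Real.exp_nat_mul, Real.exp_log hN0]
      rw [h5] at h2
      calc (1 - c) ^ (⌊L⌋₊ + 1) * (N : ℝ) ^ n < ((N : ℝ) ^ n)⁻¹ * (N : ℝ) ^ n :=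
            mul_lt_mul_of_pos_right (h1.trans_lt h2) hNn
        _ = 1 := inv_mul_cancel₀ hNn.ne'
    have hzero : (Finset.univ.filter fun ρ : Fin n → ZMod N => ∀ τ ∈ T, ρ - τ ∉ V).card = 0 := by
      have h6 := hU.trans_lt hlt
      have h7 : (Finset.univ.filter fun ρ : Fin n → ZMod N => ∀ τ ∈ T, ρ - τ ∉ V).card < 1 := by
        exact_mod_cast h6
      omega
    rw [Finset.card_eq_zero] at hzero
    intro ρ
    by_contra hcon
    push Not at hcon
    have : ρ ∈ (Finset.univ.filter fun ρ : Fin n → ZMod N => ∀ τ ∈ T, ρ - τ ∉ V) :=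
      Finset.mem_filter.2 ⟨Finset.mem_univ _, hcon⟩
    rw [hzero] at this
    simp at this

/-! ## Cubes -/

/-- the part of a set in the cube `[-M, M) ^ n` -/
def cut {n : ℕ} (R : Set (EuclideanSpace ℝ (Fin n))) (M : ℕ) : Set (EuclideanSpace ℝ (Fin n)) :=
  {ρ | ρ ∈ R ∧ ∀ i, -(M : ℝ) ≤ ρ i ∧ ρ i < M}

theorem exists_cut {n : ℕ} {R : Set (EuclideanSpace ℝ (Fin n))} (hv : volume R ≠ 0) :
    ∃ M : ℕ, 1 ≤ M ∧ volume (cut R M) ≠ 0 := by
  by_contra hcon
  push Not at hcon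
  apply hv
  have hsub : R ⊆ ⋃ M : ℕ, cut R (M + 1) := by
    intro ρ hρ
    rw [Set.mem_iUnion]
    obtain ⟨M, hM⟩ := exists_nat_gt (∑ i, |ρ i|)
    refine ⟨M, hρ, fun i => ?_⟩
    have h1 : |ρ i| ≤ ∑ i, |ρ i| :=
      Finset.single_le_sum (f := fun i => |ρ i|) (fun i _ => abs_nonneg _) (Finset.mem_univ i)
    have h2 := abs_le.1 h1
    push_cast
    constructor <;> linarith [h2.1, h2.2]
  refine measure_mono_null hsub ?_
  rw [measure_iUnion_null_iff]
  intro M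
  exact hcon (M + 1) (by omega)

/-- integer vectors -/
noncomputable def fl {n : ℕ} (N : ℕ) (ρ : EuclideanSpace ℝ (Fin n)) : Fin n → ℤ := fun i => ⌊(N : ℝ) * ρ i⌋

open scoped Classical in
/-- the integer vectors `⌊N ρ⌋`, where `ρ` is in the set -/
noncomputable def WN {n : ℕ} (R : Set (EuclideanSpace ℝ (Fin n))) (M N : ℕ) :
    Finset (Fin n → ℤ) :=
  (Fintype.piFinset fun _ => Finset.Ico (-((M : ℤ) * N)) ((M : ℤ) * N)).filter
    fun w => ∃ ρ ∈ cut R M, fl N ρ = w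

theorem fl_mem {n : ℕ} {R : Set (EuclideanSpace ℝ (Fin n))} {M N : ℕ} (hN : 1 ≤ N)
    {ρ : EuclideanSpace ℝ (Fin n)} (hρ : ρ ∈ cut R M) : fl N ρ ∈ WN R M N := by
  classical
  have hN0 : (0 : ℝ) < (N : ℝ) := by exact_mod_cast hN
  refine Finset.mem_filter.2 ⟨Fintype.mem_piFinset.2 fun i => Finset.mem_Ico.2 ⟨?_, ?_⟩,
    ρ, hρ, rfl⟩
  · refine Int.le_floor.2 ?_
    push_cast
    have := mul_le_mul_of_nonneg_left (hρ.2 i).1 hN0.le
    linarith
  · refine Int.floor_lt.2 ?_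
    push_cast
    have := mul_lt_mul_of_pos_left (hρ.2 i).2 hN0
    linarith

theorem vol_cell {n : ℕ} {N : ℕ} (hN : 1 ≤ N) (w : Fin n → ℤ) :
    volume {ρ : EuclideanSpace ℝ (Fin n) | fl N ρ = w} ≤
      ENNReal.ofReal (((N : ℝ) ^ n)⁻¹) := by
  have hN0 : (0 : ℝ) < (N : ℝ) := by exact_mod_cast hN
  have h1 : {ρ : EuclideanSpace ℝ (Fin n) | fl N ρ = w} ⊆
      (@WithLp.ofLp 2 (Fin n → ℝ)) ⁻¹' (Set.univ.pi fun i =>
        Set.Ico ((w i : ℝ) / N) (((w i : ℝ) + 1) / N)) := by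
    intro ρ hρ i _
    have h2 : ⌊(N : ℝ) * ρ i⌋ = w i := congrFun hρ i
    rw [Int.floor_eq_iff] at h2
    constructor
    · show (w i : ℝ) / N ≤ ρ i
      rw [div_le_iff₀ hN0]
      linarith [h2.1]
    · show ρ i < ((w i : ℝ) + 1) / N
      rw [lt_div_iff₀ hN0]
      linarith [h2.2]
  refine (measure_mono h1).trans ?_
  rw [(PiLp.volume_preserving_ofLp (Fin n)).measure_preimage
    (MeasurableSet.univ_pi fun i => measurableSet_Ico).nullMeasurableSet, Real.volume_pi_Ico]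
  have h3 : ∀ i : Fin n, ((w i : ℝ) + 1) / N - (w i : ℝ) / N = (N : ℝ)⁻¹ := by
    intro i
    field_simp
    ring
  simp only [h3, Finset.prod_const, Finset.card_univ, Fintype.card_fin]
  rw [← ENNReal.ofReal_pow (by positivity), inv_pow]

theorem vol_le {n : ℕ} (R : Set (EuclideanSpace ℝ (Fin n))) (M : ℕ) {N : ℕ} (hN : 1 ≤ N) :
    volume (cut R M) ≤ ENNReal.ofReal ((WN R M N).card * ((N : ℝ) ^ n)⁻¹) := by
  have h1 : cut R M ⊆ ⋃ w ∈ WN R M N, {ρ : EuclideanSpace ℝ (Fin n) | fl N ρ = w} := by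
    intro ρ hρ
    simp only [Set.mem_iUnion]
    exact ⟨fl N ρ, fl_mem hN hρ, rfl⟩
  refine (measure_mono h1).trans ((measure_biUnion_finset_le _ _).trans ?_)
  refine (Finset.sum_le_sum fun w _ => vol_cell hN w).trans ?_
  rw [Finset.sum_const, nsmul_eq_mul, ENNReal.ofReal_mul (by positivity)]
  refine mul_le_mul_left ?_ _
  rw [ENNReal.ofReal_natCast]

theorem card_WN {n : ℕ} (R : Set (EuclideanSpace ℝ (Fin n))) (M : ℕ) {N : ℕ} (hN : 1 ≤ N) :
    (WN R M N).card ≤ ((WN R M N).image fun w i => ((w i : ℤ) : ZMod N)).card * (2 * M) ^ n := by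
  classical
  have hN0 : (0 : ℤ) < (N : ℤ) := by exact_mod_cast hN
  have hbox : (Fintype.piFinset fun _ : Fin n => Finset.Ico (-(M : ℤ)) (M : ℤ)).card =
      (2 * M) ^ n := by
    rw [Fintype.card_piFinset]
    simp only [Int.card_Ico, Finset.prod_const, Finset.card_univ, Fintype.card_fin]
    congr 1
    omega
  rw [← hbox, ← Finset.card_product]
  refine Finset.card_le_card_of_injOn (fun w => (fun i => ((w i : ℤ) : ZMod N), fun i => w i / N))
    ?_ ?_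
  · intro w hw
    have hw1 := (Finset.mem_filter.1 hw).1
    refine Finset.mem_coe.2 (Finset.mem_product.2 ⟨Finset.mem_image_of_mem _ hw, ?_⟩)
    refine Fintype.mem_piFinset.2 fun i => ?_
    have h1 := Finset.mem_Ico.1 ((Fintype.mem_piFinset.1 hw1) i)
    refine Finset.mem_Ico.2 ⟨?_, ?_⟩
    · refine Int.le_ediv_of_mul_le hN0 ?_
      have := h1.1
      linarith
    · exact Int.ediv_lt_of_lt_mul hN0 h1.2
  · intro w _ w' _ h
    simp only [Prod.mk.injEq] at h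
    funext i
    have h1 := congrFun h.1 i
    have h2 := congrFun h.2 i
    rw [ZMod.intCast_eq_intCast_iff'] at h1
    rw [← Int.mul_ediv_add_emod (w i) N, ← Int.mul_ediv_add_emod (w' i) N, h1, h2]

/-! ## The neighbourhood -/

/-- the integer points near `N x`, for `x` in `S` -/
noncomputable def nbd {n : ℕ} (S : Finset (EuclideanSpace ℝ (Fin n))) (N k : ℕ) :
    Finset (Fin n → ℤ) := by
  classical
  exact S.biUnion fun x => Fintype.piFinset fun i =>
    Finset.Icc ⌈(N : ℝ) * x i - (k + 1)⌉ ⌊(N : ℝ) * x i + (k + 1)⌋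

theorem card_nbd {n : ℕ} (S : Finset (EuclideanSpace ℝ (Fin n))) (N k : ℕ) :
    (nbd S N k).card ≤ S.card * (2 * k + 3) ^ n := by
  classical
  unfold nbd
  refine (Finset.card_biUnion_le).trans ?_
  rw [← smul_eq_mul, ← Finset.sum_const]
  refine Finset.sum_le_sum fun x _ => ?_
  rw [Fintype.card_piFinset]
  refine (Finset.prod_le_prod' (g := fun _ => 2 * k + 3) fun i _ => ?_).trans ?_
  · rw [Int.card_Icc]
    have h1 : ⌊(N : ℝ) * x i + (k + 1)⌋ + 1 - ⌈(N : ℝ) * x i - (k + 1)⌉ ≤ 2 * (k : ℤ) + 3 := by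
      have h2 := Int.floor_le ((N : ℝ) * x i + (k + 1))
      have h3 := Int.le_ceil ((N : ℝ) * x i - (k + 1))
      have h4 : ((⌊(N : ℝ) * x i + (k + 1)⌋ - ⌈(N : ℝ) * x i - (k + 1)⌉ : ℤ) : ℝ) ≤
          ((2 * (k : ℤ) + 2 : ℤ) : ℝ) := by
        push_cast
        linarith
      have h5 : ⌊(N : ℝ) * x i + (k + 1)⌋ - ⌈(N : ℝ) * x i - (k + 1)⌉ ≤ 2 * (k : ℤ) + 2 := by
        exact_mod_cast h4
      omega
    omega
  · simp

theorem mem_nbd {n : ℕ} {S : Finset (EuclideanSpace ℝ (Fin n))} {N k : ℕ} (hN : 1 ≤ N)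
    {B : Set (EuclideanSpace ℝ (Fin n))} (hB : B ⊆ ⋃ x ∈ S, ball x ((N : ℝ)⁻¹))
    {b : EuclideanSpace ℝ (Fin n)} (hb : b ∈ B) (z : Fin n → ℤ)
    (hz : ∀ i, |(z i : ℝ) - N * b i| ≤ k) : z ∈ nbd S N k := by
  classical
  have hN0 : (0 : ℝ) < (N : ℝ) := by exact_mod_cast hN
  obtain ⟨x, hx, hbx⟩ := Set.mem_iUnion₂.1 (hB hb)
  unfold nbd
  refine Finset.mem_biUnion.2 ⟨x, hx, Fintype.mem_piFinset.2 fun i => ?_⟩
  have h1 : |(b - x) i| ≤ ‖b - x‖ := by
    have := PiLp.norm_apply_le (p := 2) (b - x) i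
    rwa [Real.norm_eq_abs] at this
  have h2 : ‖b - x‖ < (N : ℝ)⁻¹ := by rwa [mem_ball_iff_norm] at hbx
  have h3 : |(N : ℝ) * b i - N * x i| ≤ 1 := by
    rw [← mul_sub, abs_mul, abs_of_pos hN0]
    have h4 : |b i - x i| ≤ (N : ℝ)⁻¹ := h1.trans h2.le
    calc (N : ℝ) * |b i - x i| ≤ N * (N : ℝ)⁻¹ := mul_le_mul_of_nonneg_left h4 hN0.le
      _ = 1 := mul_inv_cancel₀ hN0.ne'
  have h5 := abs_le.1 h3
  have h6 := abs_le.1 (hz i)
  refine Finset.mem_Icc.2 ⟨Int.ceil_le.2 ?_, Int.le_floor.2 ?_⟩ <;> linarith [h5.1, h5.2, h6.1, h6.2]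

/-- G5b: differences of positive measure give finite sets with all differences -/
theorem finite_of_measure (n k : ℕ) (hn : 1 ≤ n) (hk : 1 ≤ k)
    (B : Set (EuclideanSpace ℝ (Fin n))) (C : ℝ)
    (hcov : ∀ δ : ℝ, 0 < δ → δ < 1 → ∃ S : Finset (EuclideanSpace ℝ (Fin n)),
      B ⊆ (⋃ x ∈ S, ball x δ) ∧ (S.card : ℝ) ≤ C * δ ^ (-((n : ℝ) - 1)))
    (hv : volume {ρ : EuclideanSpace ℝ (Fin n) | ∃ a, ∀ j : ℕ, j < k → a + (j : ℝ) • ρ ∈ B} ≠ 0) :
    ∀ᶠ N : ℕ in atTop, ∃ A : Finset (Fin n → ℤ), (A.card : ℝ) ≤ (N : ℝ) ^ ((n : ℝ) - 1 / 2) ∧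
      ∀ v : Fin n → ℕ, (∀ i, v i < N) → ∃ α : Fin n → ℤ, ∀ j : ℕ, j < k →
        (fun i => α i + (j : ℤ) * (v i : ℤ)) ∈ A := by
  classical
  have _ := hn
  have _ := hk
  set R : Set (EuclideanSpace ℝ (Fin n)) :=
    {ρ | ∃ a, ∀ j : ℕ, j < k → a + (j : ℝ) • ρ ∈ B} with hR
  obtain ⟨M, hM1, hM⟩ := exists_cut hv
  have hfin : volume (cut R M) ≠ ⊤ :=
    ((vol_le R M (N := 1) le_rfl).trans_lt ENNReal.ofReal_lt_top).ne
  set m : ℝ := (volume (cut R M)).toReal with hm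
  have hm0 : 0 < m := ENNReal.toReal_pos hM hfin
  have hM2 : (0 : ℝ) < (2 * (M : ℝ)) ^ n := by
    have : (0 : ℝ) < (M : ℝ) := by exact_mod_cast hM1
    positivity
  set c : ℝ := m / (2 * (M : ℝ)) ^ n with hc
  have hc0 : 0 < c := div_pos hm0 hM2
  -- the constant
  set K0 : ℝ := k * ((2 * (M : ℝ) + 3) ^ n * (|C| * (2 * (k : ℝ) + 3) ^ n)) with hK0
  have hK00 : 0 ≤ K0 := by positivity
  have hevt : ∀ᶠ N : ℕ in atTop, K0 * (n * 4 / c + 2) ≤ (N : ℝ) ^ (1 / 4 : ℝ) :=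
    ((tendsto_rpow_atTop (by norm_num : (0 : ℝ) < 1 / 4)).comp
      tendsto_natCast_atTop_atTop).eventually_ge_atTop _
  filter_upwards [hevt, eventually_ge_atTop 2] with N hNK hN2
  have hN : 1 ≤ N := by omega
  have : NeZero N := ⟨by omega⟩
  have hN0 : (0 : ℝ) < (N : ℝ) := by exact_mod_cast hN
  have hN1 : (1 : ℝ) ≤ (N : ℝ) := by exact_mod_cast hN
  have hNn : (0 : ℝ) < (N : ℝ) ^ n := by positivity
  obtain ⟨S, hS, hScard⟩ := hcov (N : ℝ)⁻¹ (inv_pos.2 hN0)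
    (inv_lt_one_of_one_lt₀ (by exact_mod_cast (by omega : 1 < N)))
  -- the residues
  set V : Finset (Fin n → ZMod N) := (WN R M N).image fun w i => ((w i : ℤ) : ZMod N) with hVdef
  have hV : c * (N : ℝ) ^ n ≤ V.card := by
    have h1 : m ≤ (WN R M N).card * ((N : ℝ) ^ n)⁻¹ :=
      ENNReal.toReal_le_of_le_ofReal (by positivity) (vol_le R M hN)
    have h2 : m * (N : ℝ) ^ n ≤ (WN R M N).card := by
      rwa [← div_eq_mul_inv, le_div_iff₀ hNn] at h1
    have h3 : ((WN R M N).card : ℝ) ≤ V.card * (2 * (M : ℝ)) ^ n := by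
      have := card_WN R M hN
      exact_mod_cast this
    rw [hc, div_mul_eq_mul_div, div_le_iff₀ hM2]
    exact h2.trans h3
  obtain ⟨T, hTcard, hT⟩ := exists_translates N n hN V c hc0 hV
  set Zb : Finset (Fin n → ℤ) :=
    Fintype.piFinset fun _ => Finset.Icc (-((M : ℤ) + 1)) ((M : ℤ) + 1) with hZb
  have hZcard : Zb.card = (2 * M + 3) ^ n := by
    rw [hZb, Fintype.card_piFinset]
    simp only [Int.card_Icc, Finset.prod_const, Finset.card_univ, Fintype.card_fin]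
    congr 1
    omega
  set Q : Finset (ℕ × (Fin n → ZMod N) × (Fin n → ℤ) × (Fin n → ℤ)) :=
    Finset.range k ×ˢ (T ×ˢ (Zb ×ˢ nbd S N k)) with hQ
  refine ⟨Q.image fun p i => p.2.2.2 i + (p.1 : ℤ) * (((p.2.1 i).val : ℤ) + N * p.2.2.1 i), ?_, ?_⟩
  · have h1 : ((Q.image fun p i => p.2.2.2 i + (p.1 : ℤ) *
        (((p.2.1 i).val : ℤ) + N * p.2.2.1 i)).card : ℝ) ≤ Q.card := by
      exact_mod_cast Finset.card_image_le
    have h2 : (Q.card : ℝ) = k * (T.card * ((2 * (M : ℝ) + 3) ^ n * (nbd S N k).card)) := by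
      rw [hQ, Finset.card_product, Finset.card_product, Finset.card_product, Finset.card_range,
        hZcard]
      push_cast
      ring
    have h3 : ((nbd S N k).card : ℝ) ≤ |C| * (N : ℝ) ^ ((n : ℝ) - 1) * (2 * (k : ℝ) + 3) ^ n := by
      have h4 : ((nbd S N k).card : ℝ) ≤ S.card * (2 * (k : ℝ) + 3) ^ n := by
        exact_mod_cast card_nbd S N k
      refine h4.trans (mul_le_mul_of_nonneg_right (hScard.trans ?_) (by positivity))
      rw [Real.rpow_neg (by positivity), Real.inv_rpow hN0.le, inv_inv]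
      exact mul_le_mul_of_nonneg_right (le_abs_self C) (by positivity)
    have h5 : (T.card : ℝ) ≤ (n * 4 / c + 2) * (N : ℝ) ^ (1 / 4 : ℝ) := by
      have h6 : Real.log N ≤ (N : ℝ) ^ (1 / 4 : ℝ) / (1 / 4) :=
        Real.log_le_rpow_div hN0.le (by norm_num)
      have h7 : (1 : ℝ) ≤ (N : ℝ) ^ (1 / 4 : ℝ) := Real.one_le_rpow hN1 (by norm_num)
      have h8 : n * Real.log N / c ≤ n * 4 / c * (N : ℝ) ^ (1 / 4 : ℝ) := by
        rw [div_mul_eq_mul_div]
        refine div_le_div_of_nonneg_right ?_ hc0.le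
        have : n * Real.log N ≤ n * ((N : ℝ) ^ (1 / 4 : ℝ) / (1 / 4)) :=
          mul_le_mul_of_nonneg_left h6 (by positivity)
        linarith
      linarith
    have h9 : (N : ℝ) ^ ((n : ℝ) - 1 / 2) = (N : ℝ) ^ ((n : ℝ) - 1) *
        ((N : ℝ) ^ (1 / 4 : ℝ) * (N : ℝ) ^ (1 / 4 : ℝ)) := by
      rw [← Real.rpow_add hN0, ← Real.rpow_add hN0]
      congr 1
      ring
    have hP : (0 : ℝ) ≤ (N : ℝ) ^ ((n : ℝ) - 1) := by positivity
    have hP4 : (0 : ℝ) ≤ (N : ℝ) ^ (1 / 4 : ℝ) := by positivity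
    have hc2 : 0 ≤ (n : ℝ) * 4 / c + 2 := by positivity
    rw [h9]
    refine h1.trans ?_
    rw [h2]
    calc (k : ℝ) * (T.card * ((2 * (M : ℝ) + 3) ^ n * (nbd S N k).card))
        ≤ k * (((n * 4 / c + 2) * (N : ℝ) ^ (1 / 4 : ℝ)) * ((2 * (M : ℝ) + 3) ^ n *
          (|C| * (N : ℝ) ^ ((n : ℝ) - 1) * (2 * (k : ℝ) + 3) ^ n))) := by
          refine mul_le_mul_of_nonneg_left ?_ (by positivity)
          refine mul_le_mul h5 (mul_le_mul_of_nonneg_left h3 (by positivity)) (by positivity)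
            (by positivity)
      _ = (N : ℝ) ^ ((n : ℝ) - 1) * ((N : ℝ) ^ (1 / 4 : ℝ) * (K0 * (n * 4 / c + 2))) := by
          rw [hK0]
          ring
      _ ≤ (N : ℝ) ^ ((n : ℝ) - 1) * ((N : ℝ) ^ (1 / 4 : ℝ) * (N : ℝ) ^ (1 / 4 : ℝ)) :=
          mul_le_mul_of_nonneg_left (mul_le_mul_of_nonneg_left hNK hP4) hP
  · intro v hvN
    obtain ⟨τ, hτ, hτV⟩ := hT fun i => ((v i : ℤ) : ZMod N)
    obtain ⟨w, hw, hwe⟩ := Finset.mem_image.1 hτV
    obtain ⟨hw1, ρ, hρ, hfl⟩ := Finset.mem_filter.1 hw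
    obtain ⟨a, ha⟩ := hρ.1
    -- the quotients
    have hdiv : ∀ i, ∃ z : ℤ, (v i : ℤ) = w i + ((τ i).val : ℤ) + N * z ∧
        -((M : ℤ) + 1) ≤ z ∧ z ≤ (M : ℤ) + 1 := by
      intro i
      have h1 : ((w i : ℤ) : ZMod N) = ((v i : ℤ) : ZMod N) - τ i := congrFun hwe i
      have h2 : (((w i + ((τ i).val : ℤ) : ℤ)) : ZMod N) = ((v i : ℤ) : ZMod N) := by
        push_cast
        rw [h1, ZMod.natCast_zmod_val]
        push_cast
        ring
      rw [ZMod.intCast_eq_intCast_iff_dvd_sub] at h2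
      obtain ⟨z, hz⟩ := h2
      have h3 := Finset.mem_Ico.1 ((Fintype.mem_piFinset.1 hw1) i)
      have h4 : ((τ i).val : ℤ) < N := by exact_mod_cast ZMod.val_lt (τ i)
      have h5 : (0 : ℤ) ≤ ((τ i).val : ℤ) := by positivity
      have h6 : (v i : ℤ) < N := by exact_mod_cast hvN i
      have h7 : (0 : ℤ) ≤ (v i : ℤ) := by positivity
      have hNz : (0 : ℤ) < (N : ℤ) := by exact_mod_cast hN
      refine ⟨z, by linarith, ?_, ?_⟩
      · by_contra hcon
        have h8 : z ≤ -((M : ℤ) + 2) := by omega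
        have h9 : (N : ℤ) * z ≤ N * (-((M : ℤ) + 2)) := mul_le_mul_of_nonneg_left h8 hNz.le
        have h10 := h3.2
        nlinarith
      · by_contra hcon
        have h8 : (M : ℤ) + 2 ≤ z := by omega
        have h9 : (N : ℤ) * ((M : ℤ) + 2) ≤ N * z := mul_le_mul_of_nonneg_left h8 hNz.le
        have h10 := h3.1
        nlinarith
    choose z hz hz1 hz2 using hdiv
    refine ⟨fl N a, fun j hj => Finset.mem_image.2
      ⟨(j, τ, z, fun i => fl N a i + (j : ℤ) * w i), ?_, ?_⟩⟩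
    · refine Finset.mem_product.2 ⟨Finset.mem_range.2 hj, Finset.mem_product.2 ⟨hτ,
        Finset.mem_product.2 ⟨Fintype.mem_piFinset.2 fun i => Finset.mem_Icc.2
          ⟨hz1 i, hz2 i⟩, ?_⟩⟩⟩
      refine mem_nbd hN hS (ha j hj) _ fun i => ?_
      have h1 := Int.floor_le ((N : ℝ) * a i)
      have h2 := Int.lt_floor_add_one ((N : ℝ) * a i)
      have h3 := Int.floor_le ((N : ℝ) * ρ i)
      have h4 := Int.lt_floor_add_one ((N : ℝ) * ρ i)
      have h5 : w i = ⌊(N : ℝ) * ρ i⌋ := (congrFun hfl i).symm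
      have h6 : (fl N a i : ℝ) = ((⌊(N : ℝ) * a i⌋ : ℤ) : ℝ) := rfl
      have hj0 : (0 : ℝ) ≤ (j : ℝ) := by positivity
      have hjk : (j : ℝ) + 1 ≤ k := by exact_mod_cast hj
      have h7 : (a + (j : ℝ) • ρ) i = a i + j * ρ i := rfl
      rw [h7]
      push_cast
      rw [h5, h6]
      have h8 : (j : ℝ) * ((⌊(N : ℝ) * ρ i⌋ : ℤ) : ℝ) ≤ j * ((N : ℝ) * ρ i) :=
        mul_le_mul_of_nonneg_left h3 hj0
      have h9 : (j : ℝ) * ((N : ℝ) * ρ i) ≤ j * (((⌊(N : ℝ) * ρ i⌋ : ℤ) : ℝ) + 1) :=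
        mul_le_mul_of_nonneg_left h4.le hj0
      rw [abs_le]
      constructor
      · nlinarith
      · nlinarith
    · funext i
      simp only
      rw [hz i]
      ring

end Pool.Agent.Zk50.G5
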