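import Mathlib

set_option autoImplicit false

/-! # A function of class `C^r` which decodes mixed radix digits -/

namespace Pool.Agent.Zk50.G2

open Set Filter Topology Metric Module MeasureTheory
open scoped ContDiff ENNReal

/-! ## Mixed radix products -/

/-- the product of the first `n` bases -/
noncomputable def Q (b : ℕ → ℕ) (n : ℕ) : ℝ := ∏ j ∈ Finset.range n, (b j : ℝ)

theorem Q_succ (b : ℕ → ℕ) (n : ℕ) : Q b (n + 1) = Q b n * b n := Finset.prod_range_succ _ _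

theorem Q_pos {b : ℕ → ℕ} (hb : ∀ J, 2 ≤ b J) (n : ℕ) : 0 < Q b n := by
  refine Finset.prod_pos fun j _ => ?_
  have := hb j
  exact_mod_cast (by omega : 0 < b j)

theorem Q_double {b : ℕ → ℕ} (hb : ∀ J, 2 ≤ b J) (n : ℕ) : 2 * Q b n ≤ Q b (n + 1) := by
  rw [Q_succ, mul_comm]
  have h2 : (2 : ℝ) ≤ b n := by exact_mod_cast hb n
  exact mul_le_mul_of_nonneg_left h2 (Q_pos hb n).le

theorem Q_mono {b : ℕ → ℕ} (hb : ∀ J, 2 ≤ b J) : Monotone (Q b) := by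
  refine monotone_nat_of_le_succ fun n => ?_
  have := Q_double hb n
  have := Q_pos hb n
  linarith

theorem two_pow_le_Q {b : ℕ → ℕ} (hb : ∀ J, 2 ≤ b J) (n : ℕ) : (2 : ℝ) ^ n ≤ Q b n := by
  induction n with
  | zero => simp [Q]
  | succ n ih =>
    have := Q_double hb n
    rw [pow_succ]
    linarith

theorem one_le_Q {b : ℕ → ℕ} (hb : ∀ J, 2 ≤ b J) (n : ℕ) : 1 ≤ Q b n :=
  (one_le_pow₀ (by norm_num : (1 : ℝ) ≤ 2)).trans (two_pow_le_Q hb n)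

theorem digit_le {b : ℕ → ℕ} (hb : ∀ J, 2 ≤ b J) {K : ℝ} {a : ℝ} {j : ℕ}
    (ha : a ≤ K * b j) : a / Q b (j + 1) ≤ K / Q b j := by
  have h1 := Q_pos hb j
  have h2 := Q_pos hb (j + 1)
  rw [div_le_div_iff₀ h2 h1, Q_succ]
  calc a * Q b j ≤ K * b j * Q b j := mul_le_mul_of_nonneg_right ha h1.le
    _ = K * (Q b j * b j) := by ring

theorem step_le {b : ℕ → ℕ} (hb : ∀ J, 2 ≤ b J) {K : ℝ} (hK : 0 ≤ K) (j : ℕ) :
    K / Q b j ≤ 2 * K / Q b j - 2 * K / Q b (j + 1) := by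
  have h1 := Q_pos hb j
  have h2 := Q_pos hb (j + 1)
  have h3 : 2 * K / Q b (j + 1) ≤ K / Q b j := by
    rw [div_le_div_iff₀ h2 h1]
    have := mul_le_mul_of_nonneg_left (Q_double hb j) hK
    linarith
  have h4 : 2 * K / Q b j = K / Q b j + K / Q b j := by ring
  linarith

theorem block {b : ℕ → ℕ} (hb : ∀ J, 2 ≤ b J) {K : ℝ} (hK : 0 ≤ K) (a : ℕ → ℝ)
    (ha : ∀ j, a j ≤ K * b j) (m n : ℕ) (hmn : m ≤ n) :
    ∑ j ∈ Finset.Ico m n, a j / Q b (j + 1) ≤ 2 * K / Q b m - 2 * K / Q b n := by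
  induction n, hmn using Nat.le_induction with
  | base => simp
  | succ n hn ih =>
    rw [Finset.sum_Ico_succ_top hn]
    have h1 := digit_le hb (ha n)
    have h2 := step_le hb hK n
    linarith

theorem block' {b : ℕ → ℕ} (hb : ∀ J, 2 ≤ b J) {K : ℝ} (hK : 0 ≤ K) (a : ℕ → ℝ)
    (ha : ∀ j, a j ≤ K * b j) (m n : ℕ) (hmn : m ≤ n) :
    ∑ j ∈ Finset.Ico m n, a j / Q b (j + 1) ≤ 2 * K / Q b m := by
  have h1 := block hb hK a ha m n hmn
  have h2 : 0 ≤ 2 * K / Q b n := div_nonneg (by linarith) (Q_pos hb n).le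
  linarith

theorem block0 {b : ℕ → ℕ} (hb : ∀ J, 2 ≤ b J) (a : ℕ → ℝ) (ha : ∀ j, 0 ≤ a j) (m n : ℕ) :
    0 ≤ ∑ j ∈ Finset.Ico m n, a j / Q b (j + 1) :=
  Finset.sum_nonneg fun j _ => div_nonneg (ha j) (Q_pos hb (j + 1)).le

theorem sep_one {b : ℕ → ℕ} (hb : ∀ J, 2 ≤ b J) {K : ℝ} (hK : 0 ≤ K) (a a' : ℕ → ℝ)
    (ha0 : ∀ j, 0 ≤ a j) (ha : ∀ j, a j ≤ K * b j) (ha0' : ∀ j, 0 ≤ a' j)
    (ha' : ∀ j, a' j ≤ K * b j) (i J : ℕ) (hi : i ≤ J) (heq : ∀ j < i, a j = a' j)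
    (hd : 4 * K + 3 ≤ |a i - a' i|) :
    2 * K + 3 ≤ Q b (J + 1) * |∑ j ∈ Finset.range (J + 1), a j / Q b (j + 1) -
      ∑ j ∈ Finset.range (J + 1), a' j / Q b (j + 1)| := by
  have hsplit : ∀ a : ℕ → ℝ, ∑ j ∈ Finset.range (J + 1), a j / Q b (j + 1) =
      ∑ j ∈ Finset.range i, a j / Q b (j + 1) + (a i / Q b (i + 1) +
        ∑ j ∈ Finset.Ico (i + 1) (J + 1), a j / Q b (j + 1)) := by
    intro a
    rw [← Finset.sum_range_add_sum_Ico _ (by omega : i ≤ J + 1),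
      Finset.sum_eq_sum_Ico_succ_bot (by omega : i < J + 1)]
  have h0 : ∑ j ∈ Finset.range i, a j / Q b (j + 1) = ∑ j ∈ Finset.range i, a' j / Q b (j + 1) :=
    Finset.sum_congr rfl fun j hj => by rw [heq j (Finset.mem_range.1 hj)]
  rw [hsplit a, hsplit a', h0]
  have t1 := block' hb hK a ha (i + 1) (J + 1) (by omega)
  have t2 := block' hb hK a' ha' (i + 1) (J + 1) (by omega)
  have t3 := block0 hb a ha0 (i + 1) (J + 1)
  have t4 := block0 hb a' ha0' (i + 1) (J + 1)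
  set T := ∑ j ∈ Finset.Ico (i + 1) (J + 1), a j / Q b (j + 1)
  set T' := ∑ j ∈ Finset.Ico (i + 1) (J + 1), a' j / Q b (j + 1)
  set S := ∑ j ∈ Finset.range i, a' j / Q b (j + 1)
  have hq := Q_pos hb (i + 1)
  have hQ := Q_mono hb (by omega : i + 1 ≤ J + 1)
  have e1 : (S + (a i / Q b (i + 1) + T)) - (S + (a' i / Q b (i + 1) + T')) =
      (a i - a' i) / Q b (i + 1) - (T' - T) := by ring
  rw [e1]
  have h5 : |T' - T| ≤ 2 * K / Q b (i + 1) := by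
    rw [abs_le]
    constructor <;> linarith
  have h6 := abs_sub_abs_le_abs_sub ((a i - a' i) / Q b (i + 1)) (T' - T)
  have h7 : (4 * K + 3) / Q b (i + 1) ≤ |(a i - a' i) / Q b (i + 1)| := by
    rw [abs_div, abs_of_pos hq]
    exact div_le_div_of_nonneg_right hd hq.le
  have h8 : (2 * K + 3) / Q b (i + 1) ≤ |(a i - a' i) / Q b (i + 1) - (T' - T)| := by
    have : (2 * K + 3) / Q b (i + 1) = (4 * K + 3) / Q b (i + 1) - 2 * K / Q b (i + 1) := by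
      ring
    linarith
  have h9 := mul_le_mul_of_nonneg_left h8 (Q_pos hb (J + 1)).le
  refine le_trans ?_ h9
  rw [mul_div_assoc', le_div_iff₀ hq, mul_comm]
  exact mul_le_mul_of_nonneg_right hQ (by linarith)

/-! ## The bump -/

noncomputable def psi (K t : ℝ) : ℝ :=
  Real.smoothTransition (t + 1) * Real.smoothTransition (2 * K + 1 - t)

theorem psi_one {K t : ℝ} (h0 : 0 ≤ t) (h1 : t ≤ 2 * K) : psi K t = 1 := by
  rw [psi, Real.smoothTransition.one_of_one_le (by linarith),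
    Real.smoothTransition.one_of_one_le (by linarith), one_mul]

theorem psi_ne {K t : ℝ} (h : psi K t ≠ 0) : -1 ≤ t ∧ t ≤ 2 * K + 1 := by
  constructor
  · by_contra hc
    apply h
    rw [psi, Real.smoothTransition.zero_of_nonpos (by linarith [not_le.1 hc]), zero_mul]
  · by_contra hc
    apply h
    rw [psi, Real.smoothTransition.zero_of_nonpos (x := 2 * K + 1 - t)
      (by linarith [not_le.1 hc]), mul_zero]

theorem psi_contDiff (K : ℝ) : ContDiff ℝ ∞ (psi K) :=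
  (Real.smoothTransition.contDiff.comp (contDiff_id.add contDiff_const)).mul
    (Real.smoothTransition.contDiff.comp (contDiff_const.sub contDiff_id))

noncomputable def Phi (d : ℕ) (K : ℝ) (y : EuclideanSpace ℝ (Fin d)) : ℝ :=
  ∏ c, psi K (y c)

theorem Phi_contDiff (d : ℕ) (K : ℝ) : ContDiff ℝ ∞ (Phi d K) := by
  refine contDiff_prod fun c _ => ?_
  exact (psi_contDiff K).comp (EuclideanSpace.proj (𝕜 := ℝ) c).contDiff

theorem Phi_one {d : ℕ} {K : ℝ} {y : EuclideanSpace ℝ (Fin d)}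
    (h : ∀ c, 0 ≤ y c ∧ y c ≤ 2 * K) : Phi d K y = 1 :=
  Finset.prod_eq_one fun c _ => psi_one (h c).1 (h c).2

theorem Phi_ne {d : ℕ} {K : ℝ} {y : EuclideanSpace ℝ (Fin d)} (h : Phi d K y ≠ 0) (c : Fin d) :
    -1 ≤ y c ∧ y c ≤ 2 * K + 1 :=
  psi_ne (Finset.prod_ne_zero_iff.1 h c (Finset.mem_univ c))

theorem Phi_compact (d : ℕ) (K : ℝ) : HasCompactSupport (Phi d K) := by
  refine HasCompactSupport.of_support_subset_isCompact (K :=
    (WithLp.toLp 2) '' (Set.univ.pi fun _ : Fin d => Set.Icc (-1 : ℝ) (2 * K + 1)))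
    ((isCompact_univ_pi fun _ => isCompact_Icc).image (PiLp.continuous_toLp 2 _)) ?_
  intro y hy
  exact ⟨fun c => y c, fun c _ => Phi_ne hy c, rfl⟩

theorem Phi_bdd (d : ℕ) (K : ℝ) (k : ℕ) : ∃ M, ∀ y, ‖iteratedFDeriv ℝ k (Phi d K) y‖ ≤ M :=
  ((Phi_contDiff d K).continuous_iteratedFDeriv (by exact_mod_cast le_top))
    |>.bounded_above_of_compact_support ((Phi_compact d K).iteratedFDeriv k)

/-! ## One bump and sums of disjoint bumps -/

theorem one_bump {d : ℕ} {K : ℝ} {k : ℕ} {M : ℝ}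
    (hM : ∀ y, ‖iteratedFDeriv ℝ k (Phi d K) y‖ ≤ M) (p c m : ℝ) (hp : 0 ≤ p) (hc : |c| ≤ m)
    (z x : EuclideanSpace ℝ (Fin d)) :
    ‖iteratedFDeriv ℝ k (fun x => c * Phi d K (p • (x - z))) x‖ ≤ m * (M * p ^ k) := by
  have hM0 : 0 ≤ M := (norm_nonneg _).trans (hM 0)
  let L : EuclideanSpace ℝ (Fin d) →L[ℝ] EuclideanSpace ℝ (Fin d) :=
    p • ContinuousLinearMap.id ℝ (EuclideanSpace ℝ (Fin d))
  have hL : ‖L‖ ≤ p := by
    rw [norm_smul, Real.norm_of_nonneg hp]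
    exact (mul_le_mul_of_nonneg_left ContinuousLinearMap.norm_id_le hp).trans (by rw [mul_one])
  have hPk : ContDiff ℝ k (Phi d K) := (Phi_contDiff d K).of_le (by exact_mod_cast le_top)
  have h0 : ContDiff ℝ k (fun y => c * Phi d K (p • y)) :=
    contDiff_const.mul (hPk.comp (contDiff_id.const_smul p))
  have h1 : iteratedFDeriv ℝ k (fun x => c * Phi d K (p • (x - z))) x =
      iteratedFDeriv ℝ k (fun y => c * Phi d K (p • y)) (x - z) :=
    iteratedFDeriv_comp_sub (f := fun y => c * Phi d K (p • y)) k z x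
  have e1 : (fun y : EuclideanSpace ℝ (Fin d) => c * Phi d K (p • y)) = c • (Phi d K ∘ L) := by
    funext y
    simp only [Pi.smul_apply, Function.comp_apply, smul_eq_mul]
    rfl
  rw [h1, e1, iteratedFDeriv_const_smul_apply (hPk.comp L.contDiff).contDiffAt,
    L.iteratedFDeriv_comp_right hPk _ le_rfl, norm_smul, Real.norm_eq_abs]
  have e2 : ‖(iteratedFDeriv ℝ k (Phi d K) (L (x - z))).compContinuousLinearMap
      fun _ => L‖ ≤ M * p ^ k := by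
    refine (ContinuousMultilinearMap.norm_compContinuousLinearMap_le _ _).trans ?_
    rw [Finset.prod_const, Finset.card_univ, Fintype.card_fin]
    exact mul_le_mul (hM _) (pow_le_pow_left₀ (norm_nonneg _) hL k) (by positivity) hM0
  exact mul_le_mul hc e2 (norm_nonneg _) ((abs_nonneg c).trans hc)

theorem sum_disjoint {E : Type*} [NormedAddCommGroup E] [NormedSpace ℝ E] {ι : Type*}
    (W : Finset ι) (f : ι → E → ℝ) (k : ℕ) (hf : ∀ w ∈ W, ContDiff ℝ k (f w))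
    (A : ι → Set E) (hA : ∀ w ∈ W, IsClosed (A w)) (hs : ∀ w ∈ W, Function.support (f w) ⊆ A w)
    (hd : ∀ w ∈ W, ∀ w' ∈ W, w ≠ w' → Disjoint (A w) (A w')) (B : ℝ) (hB : 0 ≤ B)
    (x : E) (hb : ∀ w ∈ W, ‖iteratedFDeriv ℝ k (f w) x‖ ≤ B) :
    ‖iteratedFDeriv ℝ k (fun x => ∑ w ∈ W, f w x) x‖ ≤ B := by
  rw [iteratedFDeriv_sum hf, Finset.sum_apply]
  have hx : ∀ w ∈ W, iteratedFDeriv ℝ k (f w) x ≠ 0 → x ∈ A w := by
    intro w hw h
    have h1 : x ∈ tsupport (f w) := support_iteratedFDeriv_subset k h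
    exact closure_minimal (hs w hw) (hA w hw) h1
  by_cases h : ∃ w ∈ W, iteratedFDeriv ℝ k (f w) x ≠ 0
  · obtain ⟨w, hw, hne⟩ := h
    rw [Finset.sum_eq_single_of_mem w hw]
    · exact hb w hw
    · intro w' hw' hww'
      by_contra hc
      exact (Set.disjoint_left.1 (hd w hw w' hw' (Ne.symm hww'))) (hx w hw hne) (hx w' hw' hc)
  · push Not at h
    rw [Finset.sum_eq_zero h, norm_zero]
    exact hB

/-! ## Words -/

/-- the words of length `J + 1` -/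
def W {d : ℕ} (G : ℕ → Finset ((Fin d → ℕ) × ℕ)) (J : ℕ) :
    Finset (Fin (J + 1) → (Fin d → ℕ) × ℕ) :=
  Fintype.piFinset fun j => G j

/-- the digits of a word -/
def ex {d J : ℕ} (w : Fin (J + 1) → (Fin d → ℕ) × ℕ) (c : Fin d) (j : ℕ) : ℝ :=
  if h : j < J + 1 then ((w ⟨j, h⟩).1 c : ℝ) else 0

/-- the point of a word -/
noncomputable def X {d J : ℕ} (b : ℕ → ℕ) (w : Fin (J + 1) → (Fin d → ℕ) × ℕ) :
    EuclideanSpace ℝ (Fin d) :=
  WithLp.toLp 2 fun c => ∑ j ∈ Finset.range (J + 1), ex w c j / Q b (j + 1)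

theorem X_apply {d J : ℕ} (b : ℕ → ℕ) (w : Fin (J + 1) → (Fin d → ℕ) × ℕ) (c : Fin d) :
    X b w c = ∑ j ∈ Finset.range (J + 1), ex w c j / Q b (j + 1) := rfl

theorem ex_nonneg {d J : ℕ} (w : Fin (J + 1) → (Fin d → ℕ) × ℕ) (c : Fin d) (j : ℕ) :
    0 ≤ ex w c j := by
  unfold ex
  split_ifs
  · positivity
  · exact le_rfl

theorem ex_le {d K : ℕ} {b : ℕ → ℕ} {G : ℕ → Finset ((Fin d → ℕ) × ℕ)}
    (hG1 : ∀ J, ∀ x ∈ G J, ∀ i, x.1 i ≤ K * b J) {J : ℕ}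
    {w : Fin (J + 1) → (Fin d → ℕ) × ℕ} (hw : w ∈ W G J) (c : Fin d) (j : ℕ) :
    ex w c j ≤ (K : ℝ) * b j := by
  unfold ex
  split_ifs with h
  · have h1 := hG1 j (w ⟨j, h⟩) (by simpa using (Fintype.mem_piFinset.1 hw) ⟨j, h⟩) c
    exact_mod_cast h1
  · positivity

theorem sep_words {d K : ℕ} {b : ℕ → ℕ} (hb : ∀ J, 2 ≤ b J) {G : ℕ → Finset ((Fin d → ℕ) × ℕ)}
    (hG1 : ∀ J, ∀ x ∈ G J, ∀ i, x.1 i ≤ K * b J)
    (hsep : ∀ J, ∀ x ∈ G J, ∀ y ∈ G J, x ≠ y → ∃ i, (4 * K + 3 : ℤ) ≤ |(x.1 i : ℤ) - y.1 i|)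
    {J : ℕ} {w w' : Fin (J + 1) → (Fin d → ℕ) × ℕ} (hw : w ∈ W G J) (hw' : w' ∈ W G J)
    (hne : w ≠ w') : ∃ c, 2 * (K : ℝ) + 3 ≤ Q b (J + 1) * |X b w c - X b w' c| := by
  classical
  have hex : ∃ i : ℕ, ∃ h : i < J + 1, w ⟨i, h⟩ ≠ w' ⟨i, h⟩ := by
    by_contra hc
    push Not at hc
    exact hne (funext fun i => hc i.1 i.2)
  obtain ⟨hi, hiw⟩ := Nat.find_spec hex
  set i := Nat.find hex with hidef
  have hmin : ∀ j < i, ∀ h : j < J + 1, w ⟨j, h⟩ = w' ⟨j, h⟩ := by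
    intro j hj h
    by_contra hc
    exact Nat.find_min hex hj ⟨h, hc⟩
  obtain ⟨c, hc⟩ := hsep i (w ⟨i, hi⟩) (by simpa using (Fintype.mem_piFinset.1 hw) ⟨i, hi⟩)
    (w' ⟨i, hi⟩) (by simpa using (Fintype.mem_piFinset.1 hw') ⟨i, hi⟩) hiw
  refine ⟨c, ?_⟩
  rw [X_apply, X_apply]
  refine sep_one hb (by positivity) (ex w c) (ex w' c) (ex_nonneg w c) (ex_le hG1 hw c)
    (ex_nonneg w' c) (ex_le hG1 hw' c) i J (by omega) ?_ ?_
  · intro j hj
    have hj' : j < J + 1 := by omega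
    simp only [ex, hj', dif_pos, hmin j hj hj']
  · simp only [ex, hi, dif_pos]
    exact_mod_cast hc

/-- the box of a word -/
def box {d J : ℕ} (K : ℝ) (b : ℕ → ℕ) (w : Fin (J + 1) → (Fin d → ℕ) × ℕ) :
    Set (EuclideanSpace ℝ (Fin d)) :=
  {x | ∀ c, -1 ≤ (Q b (J + 1) • (x - X b w)) c ∧ (Q b (J + 1) • (x - X b w)) c ≤ 2 * K + 1}

theorem box_closed {d J : ℕ} (K : ℝ) (b : ℕ → ℕ) (w : Fin (J + 1) → (Fin d → ℕ) × ℕ) :
    IsClosed (box K b w) := by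
  have h : box K b w = ⋂ c, {x | -1 ≤ (Q b (J + 1) • (x - X b w)) c ∧
      (Q b (J + 1) • (x - X b w)) c ≤ 2 * K + 1} := by
    ext x
    simp [box]
  rw [h]
  refine isClosed_iInter fun c => ?_
  have hc : Continuous fun x : EuclideanSpace ℝ (Fin d) => (Q b (J + 1) • (x - X b w)) c :=
    (EuclideanSpace.proj (𝕜 := ℝ) c).continuous.comp
      ((continuous_id.sub continuous_const).const_smul (Q b (J + 1)))
  exact (isClosed_le continuous_const hc).inter (isClosed_le hc continuous_const)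

theorem box_disjoint {d K : ℕ} {b : ℕ → ℕ} (hb : ∀ J, 2 ≤ b J)
    {G : ℕ → Finset ((Fin d → ℕ) × ℕ)} (hG1 : ∀ J, ∀ x ∈ G J, ∀ i, x.1 i ≤ K * b J)
    (hsep : ∀ J, ∀ x ∈ G J, ∀ y ∈ G J, x ≠ y → ∃ i, (4 * K + 3 : ℤ) ≤ |(x.1 i : ℤ) - y.1 i|)
    {J : ℕ} {w w' : Fin (J + 1) → (Fin d → ℕ) × ℕ} (hw : w ∈ W G J) (hw' : w' ∈ W G J)
    (hne : w ≠ w') : Disjoint (box (K : ℝ) b w) (box (K : ℝ) b w') := by
  rw [Set.disjoint_left]
  intro x h1 h2
  obtain ⟨c, hc⟩ := sep_words hb hG1 hsep hw hw' hne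
  have a1 := h1 c
  have a2 := h2 c
  simp only [PiLp.smul_apply, PiLp.sub_apply, smul_eq_mul] at a1 a2
  rw [← abs_of_pos (Q_pos hb (J + 1)), ← abs_mul] at hc
  have e : Q b (J + 1) * (X b w c - X b w' c) =
      Q b (J + 1) * (x c - X b w' c) - Q b (J + 1) * (x c - X b w c) := by ring
  rw [e] at hc
  have : |Q b (J + 1) * (x c - X b w' c) - Q b (J + 1) * (x c - X b w c)| ≤ 2 * (K : ℝ) + 2 := by
    rw [abs_le]
    constructor <;> linarith [a1.1, a1.2, a2.1, a2.2]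
  linarith

/-- the last letter -/
def lst {d J : ℕ} (w : Fin (J + 1) → (Fin d → ℕ) × ℕ) : ℕ := (w (Fin.last J)).2

/-- one level of the decoder -/
noncomputable def lev {d : ℕ} (K : ℝ) (b : ℕ → ℕ) (G : ℕ → Finset ((Fin d → ℕ) × ℕ)) (J : ℕ)
    (x : EuclideanSpace ℝ (Fin d)) : ℝ :=
  ∑ w ∈ W G J, (lst w : ℝ) * Phi d K (Q b (J + 1) • (x - X b w))

theorem lev_term_contDiff {d J : ℕ} (K : ℝ) (b : ℕ → ℕ) (w : Fin (J + 1) → (Fin d → ℕ) × ℕ)
    (n : ℕ) : ContDiff ℝ n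
      (fun x => (lst w : ℝ) * Phi d K (Q b (J + 1) • (x - X b w))) :=
  contDiff_const.mul (((Phi_contDiff d K).of_le (by exact_mod_cast le_top)).comp
    ((contDiff_id.sub contDiff_const).const_smul _))

theorem lev_contDiff {d : ℕ} (K : ℝ) (b : ℕ → ℕ) (G : ℕ → Finset ((Fin d → ℕ) × ℕ)) (J n : ℕ) :
    ContDiff ℝ n (lev K b G J) :=
  ContDiff.sum fun w _ => lev_term_contDiff K b w n

theorem lev_bound {d K : ℕ} {b : ℕ → ℕ} (hb : ∀ J, 2 ≤ b J)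
    {G : ℕ → Finset ((Fin d → ℕ) × ℕ)} (hG1 : ∀ J, ∀ x ∈ G J, ∀ i, x.1 i ≤ K * b J)
    {M : ℕ → ℝ} (hG2 : ∀ J, ∀ x ∈ G J, (x.2 : ℝ) ≤ M J)
    (hsep : ∀ J, ∀ x ∈ G J, ∀ y ∈ G J, x ≠ y → ∃ i, (4 * K + 3 : ℤ) ≤ |(x.1 i : ℤ) - y.1 i|)
    (k : ℕ) {C : ℝ} (hC : ∀ y, ‖iteratedFDeriv ℝ k (Phi d (K : ℝ)) y‖ ≤ C) (J : ℕ)
    (x : EuclideanSpace ℝ (Fin d)) :
    ‖iteratedFDeriv ℝ k (lev (K : ℝ) b G J) x‖ ≤ |M J| * (C * Q b (J + 1) ^ k) := by
  have hC0 : 0 ≤ C := (norm_nonneg _).trans (hC 0)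
  have hq := Q_pos hb (J + 1)
  refine sum_disjoint (W G J) (fun w x => (lst w : ℝ) * Phi d (K : ℝ) (Q b (J + 1) • (x - X b w)))
    k (fun w _ => lev_term_contDiff _ b w k) (fun w => box (K : ℝ) b w)
    (fun w _ => box_closed _ b w) ?_ (fun w hw w' hw' hne => box_disjoint hb hG1 hsep hw hw' hne)
    _ (by positivity) x ?_
  · intro w _ y hy c
    exact Phi_ne (right_ne_zero_of_mul hy) c
  · intro w hw
    refine one_bump hC _ _ _ hq.le ?_ _ _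
    have h1 := hG2 J (w (Fin.last J)) (by
      simpa using (Fintype.mem_piFinset.1 hw) (Fin.last J))
    rw [abs_of_nonneg (by positivity)]
    exact h1.trans (le_abs_self _)

/-! ## Values -/

theorem summable_digits {b : ℕ → ℕ} (hb : ∀ J, 2 ≤ b J) {K : ℝ} (a : ℕ → ℝ)
    (ha0 : ∀ j, 0 ≤ a j) (ha : ∀ j, a j ≤ K * b j) : Summable fun j => a j / Q b (j + 1) := by
  have hK : 0 ≤ K := by
    have h1 := (ha0 0).trans (ha 0)
    have h2 : (0 : ℝ) < b 0 := by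
      have := hb 0
      exact_mod_cast (by omega : 0 < b 0)
    exact nonneg_of_mul_nonneg_left h1 h2
  refine Summable.of_nonneg_of_le (fun j => div_nonneg (ha0 j) (Q_pos hb _).le)
    (fun j => digit_le hb (ha j)) ?_
  refine Summable.of_nonneg_of_le (fun j => div_nonneg hK (Q_pos hb _).le)
    (fun j => ?_) ((summable_geometric_of_lt_one (r := 1 / 2) (by norm_num)
      (by norm_num)).mul_left K)
  rw [one_div, inv_pow, ← div_eq_mul_inv]
  exact div_le_div_of_nonneg_left hK (by positivity) (two_pow_le_Q hb j)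

theorem tail_mem {b : ℕ → ℕ} (hb : ∀ J, 2 ≤ b J) {K : ℝ} (a : ℕ → ℝ)
    (ha0 : ∀ j, 0 ≤ a j) (ha : ∀ j, a j ≤ K * b j) (m : ℕ) :
    0 ≤ Q b m * (∑' j, a j / Q b (j + 1) - ∑ j ∈ Finset.range m, a j / Q b (j + 1)) ∧
    Q b m * (∑' j, a j / Q b (j + 1) - ∑ j ∈ Finset.range m, a j / Q b (j + 1)) ≤ 2 * K := by
  have hK : 0 ≤ K := by
    have h1 := (ha0 0).trans (ha 0)
    have h2 : (0 : ℝ) < b 0 := by
      have := hb 0
      exact_mod_cast (by omega : 0 < b 0)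
    exact nonneg_of_mul_nonneg_left h1 h2
  have hs := summable_digits hb a ha0 ha
  have hq := Q_pos hb m
  have h1 : ∑ j ∈ Finset.range m, a j / Q b (j + 1) ≤ ∑' j, a j / Q b (j + 1) :=
    hs.sum_le_tsum _ fun j _ => div_nonneg (ha0 j) (Q_pos hb _).le
  have h2 : ∑' j, a j / Q b (j + 1) ≤
      ∑ j ∈ Finset.range m, a j / Q b (j + 1) + 2 * K / Q b m := by
    refine le_of_tendsto hs.hasSum.tendsto_sum_nat ?_
    filter_upwards [eventually_ge_atTop m] with n hn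
    rw [← Finset.sum_range_add_sum_Ico _ hn]
    have := block' hb hK a ha m n hn
    linarith
  constructor
  · exact mul_nonneg hq.le (by linarith)
  · rw [mul_comm, ← le_div_iff₀ hq]
    linarith

theorem lev_value {d K : ℕ} {b : ℕ → ℕ} (hb : ∀ J, 2 ≤ b J)
    {G : ℕ → Finset ((Fin d → ℕ) × ℕ)} (hG1 : ∀ J, ∀ x ∈ G J, ∀ i, x.1 i ≤ K * b J)
    (hsep : ∀ J, ∀ x ∈ G J, ∀ y ∈ G J, x ≠ y → ∃ i, (4 * K + 3 : ℤ) ≤ |(x.1 i : ℤ) - y.1 i|)
    (s : ℕ → (Fin d → ℕ) × ℕ) (hs : ∀ J, s J ∈ G J) (J : ℕ) :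
    lev (K : ℝ) b G J (WithLp.toLp 2 fun i => ∑' J : ℕ, ((s J).1 i : ℝ) / Q b (J + 1)) =
      (s J).2 := by
  set x : EuclideanSpace ℝ (Fin d) :=
    WithLp.toLp 2 fun i => ∑' J : ℕ, ((s J).1 i : ℝ) / Q b (J + 1) with hx
  let w0 : Fin (J + 1) → (Fin d → ℕ) × ℕ := fun j => s j
  have hw0 : w0 ∈ W G J := Fintype.mem_piFinset.2 fun j => hs j
  have hX : ∀ c, X b w0 c = ∑ j ∈ Finset.range (J + 1), ((s j).1 c : ℝ) / Q b (j + 1) := by
    intro c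
    rw [X_apply]
    refine Finset.sum_congr rfl fun j hj => ?_
    have hj' := Finset.mem_range.1 hj
    simp only [ex, hj', dif_pos, w0]
  have hin : ∀ c, 0 ≤ (Q b (J + 1) • (x - X b w0)) c ∧
      (Q b (J + 1) • (x - X b w0)) c ≤ 2 * (K : ℝ) := by
    intro c
    have h := tail_mem hb (K := (K : ℝ)) (fun j => ((s j).1 c : ℝ)) (fun j => by positivity)
      (fun j => by exact_mod_cast hG1 j (s j) (hs j) c) (J + 1)
    simp only [PiLp.smul_apply, PiLp.sub_apply, smul_eq_mul, hX c]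
    exact h
  have hbox0 : x ∈ box (K : ℝ) b w0 := fun c =>
    ⟨by linarith [(hin c).1], by linarith [(hin c).2]⟩
  rw [lev, Finset.sum_eq_single_of_mem w0 hw0]
  · rw [Phi_one hin, mul_one]
    rfl
  · intro w hw hne
    by_contra hc
    have hbox : x ∈ box (K : ℝ) b w := fun c => Phi_ne (right_ne_zero_of_mul hc) c
    exact Set.disjoint_left.1 (box_disjoint hb hG1 hsep hw hw0 hne) hbox hbox0

/-- G2: a function of class `C^r` which decodes mixed radix digits -/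
theorem hier_code (r d K : ℕ) (hK : 1 ≤ K) (b : ℕ → ℕ) (hb : ∀ J, 2 ≤ b J) (P : ℕ → ℕ)
    (hP : ∀ J, P J = ∏ j ∈ Finset.range (J + 1), b j)
    (G : ℕ → Finset ((Fin d → ℕ) × ℕ)) (M : ℕ → ℝ)
    (hG1 : ∀ J, ∀ x ∈ G J, ∀ i, x.1 i ≤ K * b J) (hG2 : ∀ J, ∀ x ∈ G J, (x.2 : ℝ) ≤ M J)
    (hsep : ∀ J, ∀ x ∈ G J, ∀ y ∈ G J, x ≠ y → ∃ i, (4 * K + 3 : ℤ) ≤ |(x.1 i : ℤ) - y.1 i|)
    (hM : Summable fun J => M J / (P J : ℝ)) :
    ∃ g : EuclideanSpace ℝ (Fin d) → ℝ, ContDiff ℝ r g ∧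
      ∀ s : ℕ → (Fin d → ℕ) × ℕ, (∀ J, s J ∈ G J) →
        g (WithLp.toLp 2 fun i => ∑' J : ℕ, ((s J).1 i : ℝ) / (P J : ℝ)) =
          ∑' J : ℕ, ((s J).2 : ℝ) / (P J : ℝ) ^ (r + 1) := by
  have _ := hK
  have hPQ : ∀ J, (P J : ℝ) = Q b (J + 1) := by
    intro J
    rw [hP J, Q]
    push_cast
    rfl
  simp only [hPQ] at hM ⊢
  refine ⟨fun x => ∑' J : ℕ, lev (K : ℝ) b G J x / Q b (J + 1) ^ (r + 1), ?_, ?_⟩
  · choose C hC using fun k => Phi_bdd d (K : ℝ) k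
    have hC0 : ∀ k, 0 ≤ C k := fun k => (norm_nonneg _).trans (hC k 0)
    refine contDiff_tsum (𝕜 := ℝ) (E := EuclideanSpace ℝ (Fin d)) (F := ℝ) (N := r)
      (f := fun (J : ℕ) x => lev (K : ℝ) b G J x / Q b (J + 1) ^ (r + 1))
      (v := fun k (J : ℕ) => C k * |M J / Q b (J + 1)|) ?_ ?_ ?_
    · intro J
      exact (lev_contDiff (K : ℝ) b G J r).div_const _
    · intro k _
      exact hM.abs.mul_left _
    · intro k J x hk
      have hkr : k ≤ r := by exact_mod_cast hk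
      have hq := Q_pos hb (J + 1)
      have hq1 := one_le_Q hb (J + 1)
      have e1 : (fun x : EuclideanSpace ℝ (Fin d) => lev (K : ℝ) b G J x /
          Q b (J + 1) ^ (r + 1)) = (Q b (J + 1) ^ (r + 1))⁻¹ • (lev (K : ℝ) b G J) := by
        funext y
        simp only [Pi.smul_apply, smul_eq_mul]
        rw [div_eq_inv_mul]
      rw [e1, iteratedFDeriv_const_smul_apply (lev_contDiff (K : ℝ) b G J k).contDiffAt, norm_smul,
        norm_inv, Real.norm_of_nonneg (by positivity : 0 ≤ Q b (J + 1) ^ (r + 1))]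
      have h2 := lev_bound hb hG1 hG2 hsep k (hC k) J x
      calc (Q b (J + 1) ^ (r + 1))⁻¹ * ‖iteratedFDeriv ℝ k (lev (K : ℝ) b G J) x‖
          ≤ (Q b (J + 1) ^ (r + 1))⁻¹ * (|M J| * (C k * Q b (J + 1) ^ k)) :=
            mul_le_mul_of_nonneg_left h2 (by positivity)
        _ ≤ (Q b (J + 1) ^ (r + 1))⁻¹ * (|M J| * (C k * Q b (J + 1) ^ r)) := by
            refine mul_le_mul_of_nonneg_left (mul_le_mul_of_nonneg_left
              (mul_le_mul_of_nonneg_left (pow_le_pow_right₀ hq1 hkr) (hC0 k)) (abs_nonneg _))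
              (by positivity)
        _ = C k * |M J / Q b (J + 1)| := by
            rw [abs_div, abs_of_pos hq, pow_succ]
            field_simp
  · intro s hs
    refine tsum_congr fun J => ?_
    simp only [lev_value hb hG1 hsep s hs J]

end Pool.Agent.Zk50.G2
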