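import Mathlib

set_option autoImplicit false

/-! # Almost all mixed radix digits -/

namespace Pool.Agent.Zk50.G3

open Set Filter Topology Metric Module MeasureTheory
open scoped ContDiff ENNReal

/-! ## Mixed radix expansions -/

/-- the product of the first `n` bases -/
def Qn (β : ℕ → ℕ) (n : ℕ) : ℕ := ∏ j ∈ Finset.range n, β j

theorem Qn_succ (β : ℕ → ℕ) (n : ℕ) : Qn β (n + 1) = Qn β n * β n := Finset.prod_range_succ _ _

theorem two_pow_le {β : ℕ → ℕ} (hβ : ∀ j, 2 ≤ β j) (n : ℕ) : 2 ^ n ≤ Qn β n := by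
  induction n with
  | zero => simp [Qn]
  | succ n ih =>
    rw [pow_succ, Qn_succ]
    exact Nat.mul_le_mul ih (hβ n)

theorem Qn_pos {β : ℕ → ℕ} (hβ : ∀ j, 2 ≤ β j) (n : ℕ) : 0 < Qn β n :=
  lt_of_lt_of_le (by positivity) (two_pow_le hβ n)

/-- the digits -/
noncomputable def dig (β : ℕ → ℕ) (x : ℝ) (j : ℕ) : ℕ := ⌊(Qn β (j + 1) : ℝ) * x⌋₊ % β j

theorem dig_lt {β : ℕ → ℕ} (hβ : ∀ j, 2 ≤ β j) (x : ℝ) (j : ℕ) : dig β x j < β j :=
  Nat.mod_lt _ (by have := hβ j; omega)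

theorem dig_sum {β : ℕ → ℕ} (hβ : ∀ j, 2 ≤ β j) {x : ℝ} (hx1 : x < 1) (n : ℕ) :
    ∑ j ∈ Finset.range n, (dig β x j : ℝ) / Qn β (j + 1) =
      (⌊(Qn β n : ℝ) * x⌋₊ : ℝ) / Qn β n := by
  induction n with
  | zero =>
    have h1 : ⌊((Qn β 0 : ℕ) : ℝ) * x⌋₊ = 0 := by
      rw [Nat.floor_eq_zero]
      simp [Qn, hx1]
    rw [h1]
    simp
  | succ n ih =>
    have hβ0 : (0 : ℝ) < (β n : ℝ) := by
      have := hβ n
      exact_mod_cast (by omega : 0 < β n)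
    have hQ : (0 : ℝ) < (Qn β n : ℝ) := by exact_mod_cast Qn_pos hβ n
    have h1 : ⌊(Qn β (n + 1) : ℝ) * x⌋₊ / β n = ⌊(Qn β n : ℝ) * x⌋₊ := by
      rw [← Nat.floor_div_natCast]
      congr 1
      rw [Qn_succ]
      push_cast
      field_simp
    have h2 := Nat.div_add_mod ⌊(Qn β (n + 1) : ℝ) * x⌋₊ (β n)
    rw [h1] at h2
    have h3 : ((⌊(Qn β (n + 1) : ℝ) * x⌋₊ : ℕ) : ℝ) =
        (β n : ℝ) * (⌊(Qn β n : ℝ) * x⌋₊ : ℕ) + (dig β x n : ℝ) := by
      rw [dig]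
      exact_mod_cast h2.symm
    rw [Finset.sum_range_succ, ih, h3, Qn_succ]
    push_cast
    field_simp

theorem dig_hasSum {β : ℕ → ℕ} (hβ : ∀ j, 2 ≤ β j) {x : ℝ} (hx0 : 0 ≤ x) (hx1 : x < 1) :
    HasSum (fun j => (dig β x j : ℝ) / Qn β (j + 1)) x := by
  rw [hasSum_iff_tendsto_nat_of_nonneg (fun j => by positivity)]
  have h0 : Tendsto (fun n : ℕ => x - (1 / 2 : ℝ) ^ n) atTop (𝓝 x) := by
    have := (tendsto_pow_atTop_nhds_zero_of_lt_one (by norm_num : (0 : ℝ) ≤ 1 / 2)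
      (by norm_num)).const_sub x
    simpa using this
  refine tendsto_of_tendsto_of_tendsto_of_le_of_le h0 tendsto_const_nhds ?_ ?_
  · intro n
    show x - (1 / 2 : ℝ) ^ n ≤ ∑ j ∈ Finset.range n, (dig β x j : ℝ) / Qn β (j + 1)
    rw [dig_sum hβ hx1]
    have hQ : (0 : ℝ) < (Qn β n : ℝ) := by exact_mod_cast Qn_pos hβ n
    have h1 := Nat.lt_floor_add_one ((Qn β n : ℝ) * x)
    have h2 : (2 : ℝ) ^ n ≤ (Qn β n : ℝ) := by exact_mod_cast two_pow_le hβ n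
    have h3 : (1 : ℝ) ≤ (1 / 2 : ℝ) ^ n * Qn β n := by
      rw [one_div, inv_pow]
      rw [← div_eq_inv_mul, le_div_iff₀ (by positivity)]
      linarith
    rw [le_div_iff₀ hQ]
    nlinarith
  · intro n
    show ∑ j ∈ Finset.range n, (dig β x j : ℝ) / Qn β (j + 1) ≤ x
    rw [dig_sum hβ hx1]
    have hQ : (0 : ℝ) < (Qn β n : ℝ) := by exact_mod_cast Qn_pos hβ n
    have h1 := Nat.floor_le (mul_nonneg hQ.le hx0)
    rw [div_le_iff₀ hQ]
    linarith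

/-! ## One digit -/

/-- the numbers with a given digit -/
def T (q β e : ℕ) : Set ℝ :=
  ⋃ m ∈ Finset.range q, Set.Ico (((m : ℝ) * β + e) / (q * β)) (((m : ℝ) * β + e + 1) / (q * β))

theorem T_meas (q β e : ℕ) : MeasurableSet (T q β e) :=
  Finset.measurableSet_biUnion _ fun _ _ => measurableSet_Ico

theorem T_vol {q β : ℕ} (hq : 0 < q) (hβ : 0 < β) (e : ℕ) :
    volume (T q β e) ≤ ENNReal.ofReal ((β : ℝ)⁻¹) := by
  have hq0 : (0 : ℝ) < (q : ℝ) := by exact_mod_cast hq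
  have hβ0 : (0 : ℝ) < (β : ℝ) := by exact_mod_cast hβ
  refine (measure_biUnion_finset_le _ _).trans ?_
  have h1 : ∀ m ∈ Finset.range q, volume (Set.Ico (((m : ℝ) * β + e) / (q * β))
      (((m : ℝ) * β + e + 1) / (q * β))) = ENNReal.ofReal (((q : ℝ) * β)⁻¹) := by
    intro m _
    rw [Real.volume_Ico]
    congr 1
    field_simp
    ring
  rw [Finset.sum_congr rfl h1, Finset.sum_const, Finset.card_range, nsmul_eq_mul,
    ← ENNReal.ofReal_natCast, ← ENNReal.ofReal_mul hq0.le]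
  refine ENNReal.ofReal_le_ofReal (le_of_eq ?_)
  field_simp

theorem mem_T {q β e : ℕ} (hq : 0 < q) (hβ : 0 < β) {x : ℝ} (hx0 : 0 ≤ x) (hx1 : x < 1)
    (h : ⌊((q * β : ℕ) : ℝ) * x⌋₊ % β = e) : x ∈ T q β e := by
  have hq0 : (0 : ℝ) < (q : ℝ) := by exact_mod_cast hq
  have hβ0 : (0 : ℝ) < (β : ℝ) := by exact_mod_cast hβ
  have hqβ : (0 : ℝ) < (q : ℝ) * β := by positivity
  set f := ⌊((q * β : ℕ) : ℝ) * x⌋₊ with hf
  have hflt : f < q * β := by
    rw [hf, Nat.floor_lt (by positivity)]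
    have : (0 : ℝ) < ((q * β : ℕ) : ℝ) := by
      push_cast
      exact hqβ
    nlinarith
  have hm : f / β < q := Nat.div_lt_of_lt_mul (by rwa [mul_comm])
  refine Set.mem_iUnion₂.2 ⟨f / β, Finset.mem_range.2 hm, ?_⟩
  have h2 := Nat.div_add_mod f β
  rw [h] at h2
  have h3 : ((f / β : ℕ) : ℝ) * β + e = f := by
    have h4 : ((β * (f / β) + e : ℕ) : ℝ) = (f : ℝ) := by exact_mod_cast h2
    push_cast at h4
    linarith
  have h5 := Nat.floor_le (a := ((q * β : ℕ) : ℝ) * x) (by positivity)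
  have h6 := Nat.lt_floor_add_one (((q * β : ℕ) : ℝ) * x)
  rw [← hf] at h5 h6
  push_cast at h5 h6
  constructor
  · rw [div_le_iff₀ hqβ, h3]
    linarith
  · rw [lt_div_iff₀ hqβ, h3]
    linarith

/-! ## The cube -/

/-- the unit cube -/
def cube (n : ℕ) : Set (EuclideanSpace ℝ (Fin n)) := {z | ∀ i, 0 ≤ z i ∧ z i < 1}

theorem cube_vol (n : ℕ) : volume (cube n) = 1 := by
  have h1 : cube n = (@WithLp.ofLp 2 (Fin n → ℝ)) ⁻¹' (Set.univ.pi fun _ =>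
      Set.Ico (0 : ℝ) 1) := by
    ext z
    simp [cube]
  rw [h1, (PiLp.volume_preserving_ofLp (Fin n)).measure_preimage
    (MeasurableSet.univ_pi fun i => measurableSet_Ico).nullMeasurableSet, Real.volume_pi_Ico]
  simp

/-- the digits of a point: the bases are `b` for the first coordinates and `b ^ (r + 1)` for the
last one -/
noncomputable def digs (d r : ℕ) (b : ℕ → ℕ) (z : EuclideanSpace ℝ (Fin (d + 1))) (J : ℕ) :
    (Fin d → ℕ) × ℕ :=
  (fun i => dig b (z (Fin.castSucc i)) J, dig (fun j => b j ^ (r + 1)) (z (Fin.last d)) J)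

theorem cell_vol (d r : ℕ) {b : ℕ → ℕ} (hb : ∀ j, 2 ≤ b j) (J : ℕ) (δ : (Fin d → ℕ) × ℕ) :
    volume {z : EuclideanSpace ℝ (Fin (d + 1)) | z ∈ cube (d + 1) ∧ digs d r b z J = δ} ≤
      ENNReal.ofReal (((b J : ℝ) ^ (d + (r + 1)))⁻¹) := by
  have hbJ : 0 < b J := by have := hb J; omega
  have hb0 : (0 : ℝ) < (b J : ℝ) := by exact_mod_cast hbJ
  have hβ : ∀ j, 2 ≤ b j ^ (r + 1) := fun j =>
    (hb j).trans (Nat.le_self_pow (by omega) _)
  -- the product set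
  set S : Fin (d + 1) → Set ℝ := Fin.snoc (α := fun _ => Set ℝ)
    (fun i : Fin d => T (Qn b J) (b J) (δ.1 i))
    (T (Qn (fun j => b j ^ (r + 1)) J) (b J ^ (r + 1)) δ.2) with hS
  have hS1 : ∀ i : Fin d, S (Fin.castSucc i) = T (Qn b J) (b J) (δ.1 i) := fun i => by
    rw [hS, Fin.snoc_castSucc]
  have hS2 : S (Fin.last d) = T (Qn (fun j => b j ^ (r + 1)) J) (b J ^ (r + 1)) δ.2 := by
    rw [hS, Fin.snoc_last]
  have hmeas : ∀ i, MeasurableSet (S i) := by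
    intro i
    refine Fin.lastCases ?_ (fun i => ?_) i
    · rw [hS2]
      exact T_meas _ _ _
    · rw [hS1]
      exact T_meas _ _ _
  have hsub : {z : EuclideanSpace ℝ (Fin (d + 1)) | z ∈ cube (d + 1) ∧ digs d r b z J = δ} ⊆
      (@WithLp.ofLp 2 (Fin (d + 1) → ℝ)) ⁻¹' (Set.univ.pi S) := by
    rintro z ⟨hz, hd⟩ i _
    refine Fin.lastCases ?_ (fun i => ?_) i
    · rw [hS2]
      refine mem_T (Qn_pos hβ J) (by positivity) (hz _).1 (hz _).2 ?_
      have := congrArg Prod.snd hd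
      simp only [digs, dig, Qn_succ] at this
      exact this
    · rw [hS1]
      refine mem_T (Qn_pos hb J) hbJ (hz _).1 (hz _).2 ?_
      have := congrFun (congrArg Prod.fst hd) i
      simp only [digs, dig, Qn_succ] at this
      exact this
  refine (measure_mono hsub).trans ?_
  rw [(PiLp.volume_preserving_ofLp (Fin (d + 1))).measure_preimage
    (MeasurableSet.univ_pi hmeas).nullMeasurableSet, volume_pi_pi, Fin.prod_univ_castSucc, hS2]
  simp only [hS1]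
  have h1 : ∏ i : Fin d, volume (T (Qn b J) (b J) (δ.1 i)) ≤
      ∏ _i : Fin d, ENNReal.ofReal ((b J : ℝ)⁻¹) :=
    Finset.prod_le_prod' fun i _ => T_vol (Qn_pos hb J) hbJ _
  have h2 : volume (T (Qn (fun j => b j ^ (r + 1)) J) (b J ^ (r + 1)) δ.2) ≤
      ENNReal.ofReal (((b J ^ (r + 1) : ℕ) : ℝ)⁻¹) :=
    T_vol (Qn_pos hβ J) (by positivity) _
  refine (mul_le_mul' h1 h2).trans (le_of_eq ?_)
  rw [Finset.prod_const, Finset.card_univ, Fintype.card_fin, ← ENNReal.ofReal_pow (by positivity),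
    ← ENNReal.ofReal_mul (by positivity)]
  congr 1
  push_cast
  rw [pow_add (b J : ℝ) d (r + 1), mul_inv, inv_pow]

/-- G3: almost all mixed radix digits -/
theorem digits_measure (d r : ℕ) (b : ℕ → ℕ) (hb : ∀ J, 2 ≤ b J) (P : ℕ → ℕ)
    (hP : ∀ J, P J = ∏ j ∈ Finset.range (J + 1), b j)
    (Bad : ℕ → Finset ((Fin d → ℕ) × ℕ)) (η : ℕ → ℝ) (hη : Summable η) (hη1 : ∑' J, η J < 1)
    (hBad : ∀ J, ((Bad J).card : ℝ) ≤ η J * (b J : ℝ) ^ (d + (r + 1))) :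
    volume {z : EuclideanSpace ℝ (Fin (d + 1)) | ∃ (ρ : ℕ → Fin d → ℕ) (y : ℕ → ℕ),
      (∀ J i, ρ J i < b J) ∧ (∀ J, y J < b J ^ (r + 1)) ∧ (∀ J, (ρ J, y J) ∉ Bad J) ∧
      (∀ i : Fin d, HasSum (fun J => (ρ J i : ℝ) / (P J : ℝ)) (z (Fin.castSucc i))) ∧
      HasSum (fun J => (y J : ℝ) / (P J : ℝ) ^ (r + 1)) (z (Fin.last d))} ≠ 0 := by
  have hPQ : ∀ J, P J = Qn b (J + 1) := hP
  have hPQ' : ∀ J, (P J : ℝ) ^ (r + 1) = (Qn (fun j => b j ^ (r + 1)) (J + 1) : ℕ) := by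
    intro J
    rw [hPQ J, Qn, Qn, Finset.prod_pow]
    push_cast
    rfl
  have hβ : ∀ j, 2 ≤ b j ^ (r + 1) := fun j =>
    (hb j).trans (Nat.le_self_pow (by omega) _)
  have hb0 : ∀ J, (0 : ℝ) < (b J : ℝ) := fun J => by
    have := hb J
    exact_mod_cast (by omega : 0 < b J)
  have hη0 : ∀ J, 0 ≤ η J := by
    intro J
    have h1 : (0 : ℝ) ≤ η J * (b J : ℝ) ^ (d + (r + 1)) := le_trans (by positivity) (hBad J)
    exact nonneg_of_mul_nonneg_left h1 (pow_pos (hb0 J) _)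
  intro hzero
  have hsub : cube (d + 1) ⊆ {z : EuclideanSpace ℝ (Fin (d + 1)) | ∃ (ρ : ℕ → Fin d → ℕ)
      (y : ℕ → ℕ), (∀ J i, ρ J i < b J) ∧ (∀ J, y J < b J ^ (r + 1)) ∧
      (∀ J, (ρ J, y J) ∉ Bad J) ∧
      (∀ i : Fin d, HasSum (fun J => (ρ J i : ℝ) / (P J : ℝ)) (z (Fin.castSucc i))) ∧
      HasSum (fun J => (y J : ℝ) / (P J : ℝ) ^ (r + 1)) (z (Fin.last d))} ∪
      ⋃ J, ⋃ δ ∈ Bad J, {z | z ∈ cube (d + 1) ∧ digs d r b z J = δ} := by
    intro z hz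
    by_cases h : ∀ J, digs d r b z J ∉ Bad J
    · left
      refine ⟨fun J => (digs d r b z J).1, fun J => (digs d r b z J).2, fun J i => dig_lt hb _ _,
        fun J => dig_lt hβ _ _, h, fun i => ?_, ?_⟩
      · simp only [hPQ]
        exact dig_hasSum hb (hz _).1 (hz _).2
      · simp only [hPQ']
        exact dig_hasSum hβ (hz _).1 (hz _).2
    · right
      push Not at h
      obtain ⟨J, hJ⟩ := h
      exact Set.mem_iUnion.2 ⟨J, Set.mem_iUnion₂.2 ⟨_, hJ, hz, rfl⟩⟩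
  have h1 : (1 : ℝ≥0∞) ≤ 0 + ∑' J, ENNReal.ofReal (η J) := by
    rw [← cube_vol (d + 1), ← hzero]
    refine (measure_mono hsub).trans ((measure_union_le _ _).trans ?_)
    refine add_le_add le_rfl ((measure_iUnion_le _).trans (ENNReal.tsum_le_tsum fun J => ?_))
    refine (measure_biUnion_finset_le _ _).trans ?_
    refine (Finset.sum_le_sum fun δ _ => cell_vol d r hb J δ).trans ?_
    rw [Finset.sum_const, nsmul_eq_mul, ← ENNReal.ofReal_natCast, ← ENNReal.ofReal_mul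
      (by positivity)]
    refine ENNReal.ofReal_le_ofReal ?_
    rw [← div_eq_mul_inv, div_le_iff₀ (pow_pos (hb0 J) _)]
    exact hBad J
  rw [zero_add, ← ENNReal.ofReal_tsum_of_nonneg hη0 hη, ENNReal.one_le_ofReal] at h1
  linarith

end Pool.Agent.Zk50.G3
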