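import Mathlib

/-! # A linear algebra inequality for the arithmetic Kakeya problem -/

set_option autoImplicit false

namespace Pool.Agent.Zk50.Kak

open Module

/-- Subspaces of eigenspaces for distinct eigenvalues are independent. -/
theorem sum_finrank {Q : Type} [AddCommGroup Q] [Module ℝ Q] [FiniteDimensional ℝ Q]
    (A : End ℝ Q) (K : ℝ → Submodule ℝ Q) (T : Finset ℝ)
    (hK : ∀ t ∈ T, K t ≤ End.eigenspace A (-t)) :
    ∑ t ∈ T, finrank ℝ (K t) = finrank ℝ (⨆ t ∈ T, K t : Submodule ℝ Q) := by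
  classical
  induction T using Finset.induction_on with
  | empty =>
    have h : (⨆ t ∈ (∅ : Finset ℝ), K t : Submodule ℝ Q) = ⊥ := by simp
    rw [Finset.sum_empty, h, finrank_bot]
  | insert a S ha ih =>
    rw [Finset.sum_insert ha, ih (fun t ht => hK t (Finset.mem_insert_of_mem ht)),
      Finset.iSup_insert]
    have h1 := (End.eigenspaces_iSupIndep A).disjoint_biSup (x := -a)
      (y := {s | ∃ t ∈ S, s = -t}) (by
        rintro ⟨t, ht, h⟩
        exact ha (by rwa [neg_injective h]))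
    have h2 : (⨆ t ∈ S, K t : Submodule ℝ Q) ≤
        ⨆ s ∈ {s | ∃ t ∈ S, s = -t}, End.eigenspace A s := by
      refine iSup₂_le fun t ht => ?_
      exact (hK t (Finset.mem_insert_of_mem ht)).trans
        (le_iSup₂ (f := fun s (_ : s ∈ {s | ∃ t ∈ S, s = -t}) => End.eigenspace A s) (-t)
          ⟨t, ht, rfl⟩)
    have h3 : Disjoint (K a) (⨆ t ∈ S, K t) :=
      h1.mono (hK a (Finset.mem_insert_self a S)) h2
    have h4 := Submodule.finrank_sup_add_finrank_inf_eq (K a) (⨆ t ∈ S, K t)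
    rw [h3.eq_bot, finrank_bot, add_zero] at h4
    exact h4.symm

theorem kakeya_linear {E : Type} [AddCommGroup E] [Module ℝ E] [FiniteDimensional ℝ E]
    (T : Finset ℝ) (V : ℝ → Submodule ℝ E) (L W : Submodule ℝ E)
    (hL : ∀ β, β ∈ L ↔ ∃ α, ∀ t ∈ T, α + t • β ∈ V t) (hW : ∀ β, β ∈ W ↔ ∀ t ∈ T, β ∈ V t) :
    finrank ℝ W + ∑ t ∈ T, (finrank ℝ L - finrank ℝ (V t)) ≤ finrank ℝ L := by
  -- a linear choice of `α`
  let M : Submodule ℝ (E × E) :=
    { carrier := {p | ∀ t ∈ T, p.1 + t • p.2 ∈ V t}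
      add_mem' := by
        intro p q hp hq t ht
        have := (V t).add_mem (hp t ht) (hq t ht)
        have e : (p + q).1 + t • (p + q).2 = p.1 + t • p.2 + (q.1 + t • q.2) := by
          simp only [Prod.fst_add, Prod.snd_add, smul_add]
          abel
        rw [e]
        exact this
      zero_mem' := by
        intro t _
        simp
      smul_mem' := by
        intro c p hp t ht
        have := (V t).smul_mem c (hp t ht)
        have e : (c • p).1 + t • (c • p).2 = c • (p.1 + t • p.2) := by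
          simp only [Prod.smul_fst, Prod.smul_snd, smul_add]
          rw [smul_comm]
        rw [e]
        exact this }
  let pr : M →ₗ[ℝ] L := LinearMap.codRestrict L ((LinearMap.snd ℝ E E).comp M.subtype) (by
    intro p
    exact (hL _).2 ⟨p.1.1, p.2⟩)
  have hpr : LinearMap.range pr = ⊤ := by
    rw [LinearMap.range_eq_top]
    intro β
    obtain ⟨α, hα⟩ := (hL β.1).1 β.2
    exact ⟨⟨(α, β.1), hα⟩, Subtype.ext rfl⟩
  obtain ⟨σ, hσ⟩ := pr.exists_rightInverse_of_surjective hpr
  let A₀ : L →ₗ[ℝ] E := (LinearMap.fst ℝ E E).comp (M.subtype.comp σ)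
  have hA₀ : ∀ (β : L), ∀ t ∈ T, A₀ β + t • (β : E) ∈ V t := by
    intro β t ht
    have h1 := (σ β).2 t ht
    have h2 : (σ β).1.2 = (β : E) := by
      have := LinearMap.congr_fun hσ β
      exact congrArg Subtype.val this
    rw [h2] at h1
    exact h1
  have hWL : W ≤ L := by
    intro β hβ
    refine (hL β).2 ⟨0, fun t ht => ?_⟩
    rw [zero_add]
    exact (V t).smul_mem t ((hW β).1 hβ t ht)
  have hWV : ∀ t ∈ T, W ≤ V t := fun t ht β hβ => (hW β).1 hβ t ht
  -- the quotient
  let f : L →ₗ[ℝ] (E ⧸ W) := W.mkQ.comp A₀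
  obtain ⟨g, hg⟩ := f.exists_extend
  have hg' : ∀ β : L, g β = W.mkQ (A₀ β) := fun β => LinearMap.congr_fun hg β
  have hgW : W ≤ LinearMap.ker g := by
    intro β hβ
    rw [LinearMap.mem_ker]
    have h1 := hg' ⟨β, hWL hβ⟩
    have h2 : A₀ ⟨β, hWL hβ⟩ ∈ W := by
      refine (hW _).2 fun t ht => ?_
      have h3 := hA₀ ⟨β, hWL hβ⟩ t ht
      have h4 : t • β ∈ V t := (V t).smul_mem t ((hW β).1 hβ t ht)
      exact ((V t).add_mem_iff_left h4).1 h3
    rw [h1, Submodule.mkQ_apply, Submodule.Quotient.mk_eq_zero]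
    exact h2
  let A : End ℝ (E ⧸ W) := W.liftQ g hgW
  have hA : ∀ β : L, A (W.mkQ β) = W.mkQ (A₀ β) := fun β => by
    rw [← hg' β]
    exact Submodule.liftQ_apply W g (β : E)
  -- the map `A + t` on `L`
  let F : ℝ → (L →ₗ[ℝ] (E ⧸ W)) := fun t => f + t • (W.mkQ.comp L.subtype)
  have hF : ∀ t ∈ T, LinearMap.range (F t) ≤ (V t).map W.mkQ := by
    rintro t ht _ ⟨β, rfl⟩
    refine ⟨A₀ β + t • (β : E), hA₀ β t ht, ?_⟩
    simp [F, f]
  let K : ℝ → Submodule ℝ (E ⧸ W) := fun t => ((LinearMap.ker (F t)).map L.subtype).map W.mkQ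
  have hK1 : ∀ t ∈ T, K t ≤ End.eigenspace A (-t) := by
    rintro t _ _ ⟨_, ⟨β, hβ, rfl⟩, rfl⟩
    rw [End.mem_eigenspace_iff]
    have h1 : F t β = 0 := hβ
    have h2 : W.mkQ (A₀ β) + t • W.mkQ (β : E) = 0 := by
      simpa [F, f] using h1
    have h3 := hA β
    rw [Submodule.subtype_apply, h3, neg_smul]
    exact eq_neg_of_add_eq_zero_left h2
  have hK2 : ∀ t, K t ≤ L.map W.mkQ := by
    intro t
    refine Submodule.map_mono ?_
    rintro _ ⟨β, _, rfl⟩
    exact β.2
  have dimker : ∀ U : Submodule ℝ E, finrank ℝ U =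
      finrank ℝ (U.map W.mkQ) + finrank ℝ ((LinearMap.ker (W.mkQ.domRestrict U)).map U.subtype) := by
    intro U
    have h1 := LinearMap.finrank_range_add_finrank_ker (W.mkQ.domRestrict U)
    have h2 : LinearMap.range (W.mkQ.domRestrict U) = U.map W.mkQ := by
      rw [LinearMap.range_domRestrict]
    rw [h2] at h1
    rw [Submodule.finrank_map_subtype_eq]
    exact h1.symm
  have kerle : ∀ U : Submodule ℝ E, (LinearMap.ker (W.mkQ.domRestrict U)).map U.subtype ≤ W := by
    intro U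
    rintro _ ⟨x, hx, rfl⟩
    have : W.mkQ (x : E) = 0 := hx
    rwa [Submodule.mkQ_apply, Submodule.Quotient.mk_eq_zero] at this
  have dimmap : ∀ U : Submodule ℝ E, finrank ℝ U ≤ finrank ℝ (U.map W.mkQ) + finrank ℝ W := by
    intro U
    have h1 := dimker U
    have h2 := Submodule.finrank_mono (kerle U)
    omega
  have dimmap' : ∀ U : Submodule ℝ E, W ≤ U →
      finrank ℝ (U.map W.mkQ) + finrank ℝ W = finrank ℝ U := by
    intro U hU
    have h1 := dimker U
    have h2 : (LinearMap.ker (W.mkQ.domRestrict U)).map U.subtype = W := by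
      refine le_antisymm (kerle U) fun x hx => ⟨⟨x, hU hx⟩, ?_, rfl⟩
      show W.mkQ x = 0
      rwa [Submodule.mkQ_apply, Submodule.Quotient.mk_eq_zero]
    rw [h2] at h1
    exact h1.symm
  have h1 : ∀ t ∈ T, finrank ℝ L - finrank ℝ (V t) ≤ finrank ℝ (K t) := by
    intro t ht
    have e1 := LinearMap.finrank_range_add_finrank_ker (F t)
    have e2 := Submodule.finrank_mono (hF t ht)
    have e3 := dimmap' (V t) (hWV t ht)
    have e4 := dimmap ((LinearMap.ker (F t)).map L.subtype)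
    have e5 : finrank ℝ ((LinearMap.ker (F t)).map L.subtype) = finrank ℝ (LinearMap.ker (F t)) :=
      Submodule.finrank_map_subtype_eq L _
    have e6 : finrank ℝ (((LinearMap.ker (F t)).map L.subtype).map W.mkQ) = finrank ℝ (K t) := rfl
    omega
  have h2 := Finset.sum_le_sum h1
  rw [sum_finrank A K T hK1] at h2
  have h3 : finrank ℝ (⨆ t ∈ T, K t : Submodule ℝ (E ⧸ W)) ≤ finrank ℝ (L.map W.mkQ) :=
    Submodule.finrank_mono (iSup₂_le fun t _ => hK2 t)
  have h4 := dimmap' L hWL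
  omega

end Pool.Agent.Zk50.Kak
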