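import Pool.Agent.Zk11.QD.Tor
import Pool.Agent.Zk11.QD.Exp

/-! Slab estimate for the free weights on the torus: the kernel operator with symbol
`((a(k) - E)^2 + η^2)^(-1/4)` restricted to a box of side `2 r + 1` has squared norm
`O((2 r + 1) log (1 / η))`, for `E` away from the critical values `4 j`. -/

set_option autoImplicit false
set_option linter.unusedSectionVars false

open scoped BigOperators

namespace Pool.Agent.Zk60.AE

open Pool.Agent.Zk11.QD
open Pool.Agent.W788.MFP.Four (T e NN adj adj_neg e_comm e_add_left e_add e_zero e_neg e_neg_left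
  e_normSq sum_e NN_pos card_T e_single)

variable {d L : ℕ} [NeZero L]

/-- the weight -/
noncomputable def tw (E η : ℝ) (k : T d L) : ℝ := ((aa k - E) ^ 2 + η ^ 2) ^ (-(1 / 4) : ℝ)

/-- the one-dimensional estimate -/
def OneD : Prop := ∀ c : ℝ, 0 < c → ∃ C : ℝ, 0 < C ∧ ∀ (L : ℕ) [NeZero L] (η : ℝ),
  1 / (L : ℝ) ≤ η → η ≤ 1 / 2 → ∀ E : ℝ,
    (1 / (L : ℝ)) * ∑ q ∈ (Finset.univ : Finset (ZMod L)).filter
      (fun q => c ≤ |(ZMod.stdAddChar q : ℂ).im|),
      ((2 - 2 * (ZMod.stdAddChar q : ℂ).re - E) ^ 2 + η ^ 2) ^ (-(1 / 2) : ℝ) ≤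
      C * Real.log (1 / η)

theorem tw_sq (E η : ℝ) (k : T d L) :
    tw E η k ^ 2 = ((aa k - E) ^ 2 + η ^ 2) ^ (-(1 / 2) : ℝ) := by
  unfold tw
  have h : 0 ≤ (aa k - E) ^ 2 + η ^ 2 := by positivity
  rw [← Real.rpow_natCast, ← Real.rpow_mul h]
  norm_num

theorem tw_nonneg (E η : ℝ) (k : T d L) : 0 ≤ tw E η k := by
  unfold tw
  positivity

theorem e_sing (i : Fin d) (m : ZMod L) (x : T d L) :
    e (Pi.single i m) x = (ZMod.stdAddChar (m * x i) : ℂ) := by
  unfold e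
  congr 1
  rw [Finset.sum_eq_single i]
  · simp
  · intro j _ hj
    simp [Pi.single_eq_of_ne hj]
  · intro hcon
    exact absurd (Finset.mem_univ i) hcon

theorem ind_sum (i : Fin d) (s : ZMod L) (x : T d L) :
    (L : ℂ)⁻¹ * ∑ m : ZMod L, (ZMod.stdAddChar (-(m * s)) : ℂ) * e (Pi.single i m) x =
      if x i = s then 1 else 0 := by
  have h1 : ∀ m : ZMod L, (ZMod.stdAddChar (-(m * s)) : ℂ) * e (Pi.single i m) x =
      ZMod.stdAddChar (m * (x i - s)) := by
    intro m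
    rw [e_sing, ← AddChar.map_add_eq_mul]
    congr 1
    ring
  have hL : (L : ℂ) ≠ 0 := by exact_mod_cast NeZero.ne L
  rw [Finset.sum_congr rfl fun m _ => h1 m,
    AddChar.sum_mulShift _ (ZMod.isPrimitive_stdAddChar L)]
  by_cases h : x i = s
  · rw [if_pos (sub_eq_zero.2 h), if_pos h, ZMod.card]
    exact inv_mul_cancel₀ hL
  · rw [if_neg (sub_ne_zero.2 h), if_neg h]
    simp

theorem char_norm (q : ZMod L) : ‖(ZMod.stdAddChar q : ℂ)‖ = 1 := by
  rw [ZMod.stdAddChar_apply]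
  exact Circle.norm_coe _

/-- the squared norm of the restriction to a slice -/
theorem slice (F : T d L → ℂ) (i : Fin d) (s : ZMod L) :
    ∑ x ∈ Finset.univ.filter (fun x : T d L => x i = s), ‖kc F x‖ ^ 2 ≤
      (1 / (L : ℝ)) * ∑ m : ZMod L, (NN d L)⁻¹ * ∑ k, ‖F (k - Pi.single i m)‖ * ‖F k‖ := by
  have h0 : ((∑ x ∈ Finset.univ.filter (fun x : T d L => x i = s), ‖kc F x‖ ^ 2 : ℝ) : ℂ) =
      (L : ℂ)⁻¹ * ∑ m : ZMod L, (ZMod.stdAddChar (-(m * s)) : ℂ) *
        (((NN d L : ℝ) : ℂ)⁻¹ * ∑ k, F (k - Pi.single i m) * (starRingEnd ℂ) (F k)) := by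
    have h1 : ∀ x : T d L, (if x i = s then (((‖kc F x‖ ^ 2 : ℝ)) : ℂ) else 0) =
        ∑ m : ZMod L, (L : ℂ)⁻¹ * ((ZMod.stdAddChar (-(m * s)) : ℂ) *
          (kc (fun k => F (k - Pi.single i m)) x * (starRingEnd ℂ) (kc F x))) := by
      intro x
      have h2 : (if x i = s then (((‖kc F x‖ ^ 2 : ℝ)) : ℂ) else 0) =
          (if x i = s then (1 : ℂ) else 0) * (kc F x * (starRingEnd ℂ) (kc F x)) := by
        rw [Complex.mul_conj, Complex.normSq_eq_norm_sq]
        split_ifs <;> simp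
      rw [h2, ← ind_sum, Finset.mul_sum, Finset.sum_mul]
      refine Finset.sum_congr rfl fun m _ => ?_
      rw [← kc_mod]
      ring
    rw [Finset.sum_filter, Complex.ofReal_sum]
    have h3 : ∀ x : T d L, ((if x i = s then ‖kc F x‖ ^ 2 else 0 : ℝ) : ℂ) =
        (if x i = s then (((‖kc F x‖ ^ 2 : ℝ)) : ℂ) else 0) := by
      intro x
      split_ifs <;> simp
    rw [Finset.sum_congr rfl fun x _ => (h3 x).trans (h1 x), Finset.sum_comm, Finset.mul_sum]
    refine Finset.sum_congr rfl fun m _ => ?_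
    rw [← Finset.mul_sum, ← Finset.mul_sum, parseval]
  have hN := NN_pos (d := d) (L := L)
  have hnn : 0 ≤ ∑ x ∈ Finset.univ.filter (fun x : T d L => x i = s), ‖kc F x‖ ^ 2 :=
    Finset.sum_nonneg fun _ _ => by positivity
  have h4 : ∑ x ∈ Finset.univ.filter (fun x : T d L => x i = s), ‖kc F x‖ ^ 2 =
      ‖((∑ x ∈ Finset.univ.filter (fun x : T d L => x i = s), ‖kc F x‖ ^ 2 : ℝ) : ℂ)‖ := by
    rw [Complex.norm_real, Real.norm_eq_abs, abs_of_nonneg hnn]
  rw [h4, h0, norm_mul, norm_inv, Complex.norm_natCast, one_div]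
  refine mul_le_mul_of_nonneg_left ?_ (by positivity)
  refine (norm_sum_le _ _).trans (Finset.sum_le_sum fun m _ => ?_)
  rw [norm_mul, char_norm, one_mul, norm_mul, norm_inv, Complex.norm_real, Real.norm_eq_abs,
    abs_of_pos hN]
  refine mul_le_mul_of_nonneg_left ?_ (by positivity)
  refine (norm_sum_le _ _).trans (Finset.sum_le_sum fun k _ => ?_)
  rw [norm_mul, RCLike.norm_conj]

/-- the weight of the class `i` -/
noncomputable def wi (c E η : ℝ) (i : Fin d) (k : T d L) : ℝ :=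
  if c ≤ |si (k i)| then tw E η k else 0

theorem wi_nonneg (c E η : ℝ) (i : Fin d) (k : T d L) : 0 ≤ wi c E η i k := by
  unfold wi
  split_ifs
  · exact tw_nonneg E η k
  · exact le_rfl

theorem line_sum (c E η B : ℝ) (i : Fin d)
    (hB : ∀ E : ℝ, (1 / (L : ℝ)) * ∑ q ∈ (Finset.univ : Finset (ZMod L)).filter
      (fun q => c ≤ |(ZMod.stdAddChar q : ℂ).im|),
      ((2 - 2 * (ZMod.stdAddChar q : ℂ).re - E) ^ 2 + η ^ 2) ^ (-(1 / 2) : ℝ) ≤ B)
    (k : T d L) : (1 / (L : ℝ)) * ∑ q : ZMod L, wi c E η i (Function.update k i q) ^ 2 ≤ B := by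
  refine le_trans (le_of_eq ?_) (hB (E - ∑ j ∈ Finset.univ.erase i, (2 - 2 * co (k j))))
  congr 1
  rw [Finset.sum_filter]
  refine Finset.sum_congr rfl fun q _ => ?_
  unfold wi
  rw [Function.update_self]
  have h1 : aa (Function.update k i q) = (2 - 2 * co q) +
      ∑ j ∈ Finset.univ.erase i, (2 - 2 * co (k j)) := by
    rw [aa_eq, ← Finset.add_sum_erase _ _ (Finset.mem_univ i), Function.update_self]
    congr 1
    refine Finset.sum_congr rfl fun j hj => ?_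
    rw [Function.update_of_ne (Finset.ne_of_mem_erase hj)]
  by_cases h : c ≤ |si q|
  · have h' : c ≤ |(ZMod.stdAddChar q : ℂ).im| := h
    rw [if_pos h, if_pos h', tw_sq, h1]
    congr 1
    unfold co
    ring
  · have h' : ¬ c ≤ |(ZMod.stdAddChar q : ℂ).im| := h
    rw [if_neg h, if_neg h']
    simp

theorem line_sub (w : T d L → ℝ) (i : Fin d) (k : T d L) :
    ∑ m : ZMod L, w (k - Pi.single i m) = ∑ q : ZMod L, w (Function.update k i q) := by
  rw [← Equiv.sum_comp (Equiv.subLeft (k i)) (fun q => w (Function.update k i q))]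
  refine Finset.sum_congr rfl fun m _ => ?_
  congr 1
  funext j
  by_cases h : j = i
  · subst h
    simp
  · rw [Function.update_of_ne h, Pi.sub_apply, Pi.single_eq_of_ne h, sub_zero]

theorem line_add (w : T d L → ℝ) (i : Fin d) (k : T d L) :
    ∑ m : ZMod L, w (k + Pi.single i m) = ∑ q : ZMod L, w (Function.update k i q) := by
  rw [← Equiv.sum_comp (Equiv.addLeft (k i)) (fun q => w (Function.update k i q))]
  refine Finset.sum_congr rfl fun m _ => ?_
  congr 1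
  funext j
  by_cases h : j = i
  · subst h
    simp
  · rw [Function.update_of_ne h, Pi.add_apply, Pi.single_eq_of_ne h, add_zero]

/-- the bound on a slice for a function carried by the class `i` -/
theorem slice_cls (c E η B : ℝ) (i : Fin d)
    (hB : ∀ E : ℝ, (1 / (L : ℝ)) * ∑ q ∈ (Finset.univ : Finset (ZMod L)).filter
      (fun q => c ≤ |(ZMod.stdAddChar q : ℂ).im|),
      ((2 - 2 * (ZMod.stdAddChar q : ℂ).re - E) ^ 2 + η ^ 2) ^ (-(1 / 2) : ℝ) ≤ B)
    (F g : T d L → ℂ) (hF : ∀ k, ‖F k‖ ≤ wi c E η i k * ‖g k‖) (s : ZMod L) :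
    ∑ x ∈ Finset.univ.filter (fun x : T d L => x i = s), ‖kc F x‖ ^ 2 ≤
      B * ((NN d L)⁻¹ * ∑ k, ‖g k‖ ^ 2) := by
  have hN := NN_pos (d := d) (L := L)
  have hL : (0 : ℝ) < L := by exact_mod_cast Nat.pos_of_ne_zero (NeZero.ne L)
  refine (slice F i s).trans ?_
  set w := wi (d := d) (L := L) c E η i with hw
  have hw0 : ∀ k, 0 ≤ w k := wi_nonneg c E η i
  have h1 : ∀ (m : ZMod L) (k : T d L), ‖F (k - Pi.single i m)‖ * ‖F k‖ ≤
      (1 / 2) * (w (k - Pi.single i m) ^ 2 * ‖g k‖ ^ 2) +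
      (1 / 2) * (w k ^ 2 * ‖g (k - Pi.single i m)‖ ^ 2) := by
    intro m k
    have h2 : ‖F (k - Pi.single i m)‖ * ‖F k‖ ≤
        (w (k - Pi.single i m) * ‖g (k - Pi.single i m)‖) * (w k * ‖g k‖) :=
      mul_le_mul (hF _) (hF _) (norm_nonneg _) (mul_nonneg (hw0 _) (norm_nonneg _))
    refine h2.trans ?_
    nlinarith [sq_nonneg (w (k - Pi.single i m) * ‖g k‖ - w k * ‖g (k - Pi.single i m)‖)]
  have h2 : ∀ m : ZMod L, ∑ k : T d L, w k ^ 2 * ‖g (k - Pi.single i m)‖ ^ 2 =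
      ∑ k : T d L, w (k + Pi.single i m) ^ 2 * ‖g k‖ ^ 2 := by
    intro m
    refine (Equiv.sum_comp (Equiv.addRight (Pi.single i m : T d L))
      (fun k : T d L => w k ^ 2 * ‖g (k - Pi.single i m)‖ ^ 2)).symm.trans ?_
    refine Finset.sum_congr rfl fun k _ => ?_
    rw [Equiv.coe_addRight, add_sub_cancel_right]
  have h3 : ∑ m : ZMod L, (NN d L)⁻¹ * ∑ k, ‖F (k - Pi.single i m)‖ * ‖F k‖ ≤
      ∑ m : ZMod L, (NN d L)⁻¹ * ((1 / 2) * ∑ k : T d L, w (k - Pi.single i m) ^ 2 * ‖g k‖ ^ 2 +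
        (1 / 2) * ∑ k : T d L, w (k + Pi.single i m) ^ 2 * ‖g k‖ ^ 2) := by
    refine Finset.sum_le_sum fun m _ => ?_
    refine mul_le_mul_of_nonneg_left ?_ (by positivity)
    rw [← h2 m, Finset.mul_sum, Finset.mul_sum, ← Finset.sum_add_distrib]
    exact Finset.sum_le_sum fun k _ => h1 m k
  refine (mul_le_mul_of_nonneg_left h3 (by positivity)).trans ?_
  have h4 : (1 / (L : ℝ)) * ∑ m : ZMod L, (NN d L)⁻¹ *
      ((1 / 2) * ∑ k : T d L, w (k - Pi.single i m) ^ 2 * ‖g k‖ ^ 2 +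
        (1 / 2) * ∑ k : T d L, w (k + Pi.single i m) ^ 2 * ‖g k‖ ^ 2) =
      (NN d L)⁻¹ * ∑ k : T d L, ((1 / (L : ℝ)) *
        ∑ q : ZMod L, w (Function.update k i q) ^ 2) * ‖g k‖ ^ 2 := by
    have h8 : ∑ m : ZMod L, ∑ k : T d L, w (k - Pi.single i m) ^ 2 * ‖g k‖ ^ 2 =
        ∑ k : T d L, ∑ m : ZMod L, w (k - Pi.single i m) ^ 2 * ‖g k‖ ^ 2 := Finset.sum_comm
    have h9 : ∑ m : ZMod L, ∑ k : T d L, w (k + Pi.single i m) ^ 2 * ‖g k‖ ^ 2 =
        ∑ k : T d L, ∑ m : ZMod L, w (k + Pi.single i m) ^ 2 * ‖g k‖ ^ 2 := Finset.sum_comm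
    rw [← Finset.mul_sum, Finset.sum_add_distrib, ← Finset.mul_sum, ← Finset.mul_sum, h8, h9]
    have h5 : ∀ k : T d L, ∑ m : ZMod L, w (k - Pi.single i m) ^ 2 * ‖g k‖ ^ 2 =
        (∑ q : ZMod L, w (Function.update k i q) ^ 2) * ‖g k‖ ^ 2 := by
      intro k
      rw [← Finset.sum_mul, line_sub (fun k => w k ^ 2)]
    have h6 : ∀ k : T d L, ∑ m : ZMod L, w (k + Pi.single i m) ^ 2 * ‖g k‖ ^ 2 =
        (∑ q : ZMod L, w (Function.update k i q) ^ 2) * ‖g k‖ ^ 2 := by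
      intro k
      rw [← Finset.sum_mul, line_add (fun k => w k ^ 2)]
    rw [Finset.sum_congr rfl fun k _ => h5 k, Finset.sum_congr rfl fun k _ => h6 k]
    have h7 : ∀ k : T d L, (1 / (L : ℝ)) * (∑ q : ZMod L, w (Function.update k i q) ^ 2) *
        ‖g k‖ ^ 2 = (1 / (L : ℝ)) * ((∑ q : ZMod L, w (Function.update k i q) ^ 2) *
        ‖g k‖ ^ 2) := fun k => by ring
    rw [Finset.sum_congr rfl fun k _ => h7 k, ← Finset.mul_sum]
    ring
  rw [h4, mul_left_comm]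
  refine mul_le_mul_of_nonneg_left ?_ (by positivity)
  rw [Finset.mul_sum]
  exact Finset.sum_le_sum fun k _ => mul_le_mul_of_nonneg_right (line_sum c E η B i hB k)
    (by positivity)

/-- momenta all of whose coordinates are nearly critical -/
theorem near_crit (c : ℝ) (k : T d L) (h : ∀ i, |si (k i)| < c) :
    ∃ j : ℕ, j ≤ d ∧ |aa k - 4 * j| ≤ 2 * d * c ^ 2 := by
  refine ⟨(Finset.univ.filter fun i : Fin d => co (k i) < 0).card, ?_, ?_⟩
  · exact (Finset.card_filter_le _ _).trans (by simp)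
  · have h1 : (4 : ℝ) * ((Finset.univ.filter fun i : Fin d => co (k i) < 0).card : ℕ) =
        ∑ i : Fin d, if co (k i) < 0 then (4 : ℝ) else 0 := by
      rw [← Finset.sum_filter, Finset.sum_const, nsmul_eq_mul, mul_comm]
    rw [h1, aa_eq, ← Finset.sum_sub_distrib]
    refine (Finset.abs_sum_le_sum_abs _ _).trans ?_
    have h2 : ∀ i : Fin d, |2 - 2 * co (k i) - (if co (k i) < 0 then (4 : ℝ) else 0)| ≤
        2 * c ^ 2 := by
      intro i
      have h3 := co_si (k i)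
      have h4 : si (k i) ^ 2 ≤ c ^ 2 := by
        rw [← sq_abs]
        exact pow_le_pow_left₀ (abs_nonneg _) (h i).le 2
      have h5 := abs_le.1 (co_le (k i))
      split_ifs with h6
      · rw [abs_le]
        constructor <;> nlinarith
      · rw [abs_le]
        constructor <;> nlinarith
    refine (Finset.sum_le_sum fun i _ => h2 i).trans (le_of_eq ?_)
    rw [Finset.sum_const, Finset.card_univ, Fintype.card_fin, nsmul_eq_mul]
    ring

/-- the number of residues in an interval -/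
theorem card_box (r : ℝ) (hr : 0 ≤ r) (y : ZMod L) :
    ((Finset.univ.filter (fun s : ZMod L => ((|(s - y).valMinAbs| : ℤ) : ℝ) ≤ r)).card : ℝ) ≤
      2 * r + 1 := by
  have h1 : (Finset.univ.filter (fun s : ZMod L => ((|(s - y).valMinAbs| : ℤ) : ℝ) ≤ r)).card ≤
      (Finset.Icc (-⌊r⌋) ⌊r⌋).card := by
    refine Finset.card_le_card_of_injOn (fun s => (s - y).valMinAbs) ?_ ?_
    · intro s hs
      have h2 := (Finset.mem_filter.1 hs).2
      have h3 : |(s - y).valMinAbs| ≤ ⌊r⌋ := Int.le_floor.2 h2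
      exact Finset.mem_coe.2 (Finset.mem_Icc.2 (abs_le.1 h3))
    · intro s _ t _ hst
      have h2 := ZMod.injective_valMinAbs hst
      exact sub_left_injective h2
  have h2 : ((Finset.Icc (-⌊r⌋) ⌊r⌋).card : ℝ) = 2 * ⌊r⌋ + 1 := by
    rw [Int.card_Icc]
    have h3 : 0 ≤ ⌊r⌋ := Int.floor_nonneg.2 hr
    have h4 : ((⌊r⌋ + 1 - -⌊r⌋).toNat : ℤ) = 2 * ⌊r⌋ + 1 := by
      rw [Int.toNat_of_nonneg (by omega)]
      ring
    exact_mod_cast h4
  calc ((Finset.univ.filter (fun s : ZMod L => ((|(s - y).valMinAbs| : ℤ) : ℝ) ≤ r)).card : ℝ)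
      ≤ ((Finset.Icc (-⌊r⌋) ⌊r⌋).card : ℝ) := by exact_mod_cast h1
    _ = 2 * ⌊r⌋ + 1 := h2
    _ ≤ _ := by linarith [Int.floor_le r]

/-- the weight in the class of nearly critical momenta -/
theorem tw_none (c κ E η : ℝ) (hκ : 0 < κ) (hc : 2 * d * c ^ 2 ≤ κ / 2)
    (hE : ∀ j : ℕ, j ≤ d → κ ≤ |E - 4 * j|) (k : T d L) (h : ∀ i, |si (k i)| < c) :
    tw E η k ^ 2 ≤ 2 / κ := by
  obtain ⟨j, hj, h1⟩ := near_crit c k h
  have h2 := hE j hj
  have h3 : κ / 2 ≤ |aa k - E| := by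
    have h4 : |E - 4 * j| ≤ |aa k - E| + |aa k - 4 * j| := by
      have : E - 4 * (j : ℝ) = -(aa k - E) + (aa k - 4 * j) := by ring
      rw [this]
      exact (abs_add_le _ _).trans (by rw [abs_neg])
    linarith
  have h5 : (κ / 2) ^ 2 ≤ (aa k - E) ^ 2 + η ^ 2 := by
    have h6 : (κ / 2) ^ 2 ≤ |aa k - E| ^ 2 := pow_le_pow_left₀ (by positivity) h3 2
    rw [sq_abs] at h6
    nlinarith [sq_nonneg η]
  rw [tw_sq]
  have h7 : ((aa k - E) ^ 2 + η ^ 2) ^ (-(1 / 2) : ℝ) ≤ ((κ / 2) ^ 2) ^ (-(1 / 2) : ℝ) :=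
    Real.rpow_le_rpow_of_nonpos (by positivity) h5 (by norm_num)
  refine h7.trans (le_of_eq ?_)
  rw [← Real.rpow_natCast, ← Real.rpow_mul (by positivity)]
  norm_num
  rw [Real.rpow_neg_one]
  field_simp

/-- the class of a momentum -/
noncomputable def cl (c : ℝ) (k : T d L) : Option (Fin d) :=
  haveI := Classical.dec (∃ i, c ≤ |si (k i)|)
  if h : ∃ i, c ≤ |si (k i)| then some (Classical.choose h) else none

theorem cl_some (c : ℝ) (k : T d L) (i : Fin d) (h : cl c k = some i) : c ≤ |si (k i)| := by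
  unfold cl at h
  split_ifs at h with h1
  have h2 := Classical.choose_spec h1
  rw [Option.some.injEq] at h
  rw [← h]
  exact h2

theorem cl_none (c : ℝ) (k : T d L) (h : cl c k = none) (i : Fin d) : |si (k i)| < c := by
  unfold cl at h
  split_ifs at h with h1
  push Not at h1
  exact h1 i

theorem log_ge (η : ℝ) (h0 : 0 < η) (h1 : η ≤ 1 / 2) : 1 / 2 ≤ Real.log (1 / η) := by
  have h2 : Real.log 2 ≤ Real.log (1 / η) := by
    refine Real.log_le_log (by norm_num) ?_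
    rw [le_div_iff₀ h0]
    linarith
  have h3 := Real.log_two_gt_d9
  linarith

/-- a constant for both theorems -/
theorem slab' (h1 : OneD) (d : ℕ) (hd : 1 ≤ d) (κ : ℝ) (hκ : 0 < κ) :
    ∃ C : ℝ, 0 < C ∧ ∀ (L : ℕ) [NeZero L] (η : ℝ), 1 / (L : ℝ) ≤ η → η ≤ 1 / 2 →
      ∀ E : ℝ, (∀ j : ℕ, j ≤ d → κ ≤ |E - 4 * j|) →
      (∀ (g : T d L → ℂ) (y : T d L) (r : ℝ), 0 ≤ r →
        ∑ x ∈ Finset.univ.filter
          (fun x : T d L => ∀ i, ((|((x - y) i).valMinAbs| : ℤ) : ℝ) ≤ r),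
          ‖kc (fun k => (tw E η k : ℂ) * g k) x‖ ^ 2 ≤
        C * (2 * r + 1) * Real.log (1 / η) * ((NN d L)⁻¹ * ∑ k, ‖g k‖ ^ 2)) := by
  have hd' : (0 : ℝ) < d := by exact_mod_cast hd
  obtain ⟨C1, hC1, h2⟩ := h1 (Real.sqrt (κ / (4 * d))) (by positivity)
  set c := Real.sqrt (κ / (4 * d)) with hcdef
  have hc : 2 * (d : ℝ) * c ^ 2 ≤ κ / 2 := by
    rw [hcdef, Real.sq_sqrt (by positivity)]
    refine le_of_eq ?_
    field_simp
    ring
  refine ⟨(d + 1) * (4 / κ + d * C1), by positivity, ?_⟩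
  intro L _ η hη1 hη2 E hE g y r hr
  have hL : (0 : ℝ) < L := by exact_mod_cast Nat.pos_of_ne_zero (NeZero.ne L)
  have hη0 : 0 < η := lt_of_lt_of_le (by positivity) hη1
  have hlog := log_ge η hη0 hη2
  have hN := NN_pos (d := d) (L := L)
  set G := (NN d L)⁻¹ * ∑ k : T d L, ‖g k‖ ^ 2 with hG
  have hG0 : 0 ≤ G := mul_nonneg (inv_nonneg.2 hN.le) (Finset.sum_nonneg fun _ _ => by positivity)
  classical
  set F : Option (Fin d) → T d L → ℂ := fun a k => if cl c k = a then (tw E η k : ℂ) * g k else 0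
    with hF
  have hsum : (fun k : T d L => (tw E η k : ℂ) * g k) = fun k => ∑ a, F a k := by
    funext k
    simp only [hF]
    rw [Finset.sum_ite_eq]
    simp
  set S := Finset.univ.filter
    (fun x : T d L => ∀ i, ((|((x - y) i).valMinAbs| : ℤ) : ℝ) ≤ r) with hS
  have hkc : ∀ x : T d L, ‖kc (fun k => (tw E η k : ℂ) * g k) x‖ ^ 2 ≤
      (d + 1) * ∑ a, ‖kc (F a) x‖ ^ 2 := by
    intro x
    rw [hsum, kc_sum Finset.univ F x]
    have h3 : ‖∑ a, kc (F a) x‖ ^ 2 ≤ (∑ a, ‖kc (F a) x‖) ^ 2 :=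
      pow_le_pow_left₀ (norm_nonneg _) (norm_sum_le _ _) 2
    have h4 : (∑ a, ‖kc (F a) x‖) ^ 2 ≤
        (Finset.univ : Finset (Option (Fin d))).card * ∑ a, ‖kc (F a) x‖ ^ 2 :=
      sq_sum_le_card_mul_sum_sq
    rw [Finset.card_univ, Fintype.card_option, Fintype.card_fin] at h4
    push_cast at h4
    exact h3.trans h4
  have hcl : ∀ i : Fin d, ∑ x ∈ S, ‖kc (F (some i)) x‖ ^ 2 ≤
      (2 * r + 1) * (C1 * Real.log (1 / η) * G) := by
    intro i
    set R := Finset.univ.filter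
      (fun s : ZMod L => ((|(s - y i).valMinAbs| : ℤ) : ℝ) ≤ r) with hR
    have h3 : ∀ s : ZMod L, ∑ x ∈ Finset.univ.filter (fun x : T d L => x i = s),
        ‖kc (F (some i)) x‖ ^ 2 ≤ C1 * Real.log (1 / η) * G := by
      intro s
      refine slice_cls c E η (C1 * Real.log (1 / η)) i (h2 L η hη1 hη2) (F (some i)) g ?_ s
      intro k
      simp only [hF]
      unfold wi
      by_cases h : cl c k = some i
      · rw [if_pos h, if_pos (cl_some c k i h), norm_mul, Complex.norm_real, Real.norm_eq_abs,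
          abs_of_nonneg (tw_nonneg E η k)]
      · rw [if_neg h, norm_zero]
        exact mul_nonneg (by split_ifs; exacts [tw_nonneg E η k, le_rfl]) (norm_nonneg _)
    have h4 : ∑ x ∈ S, ‖kc (F (some i)) x‖ ^ 2 ≤
        ∑ s ∈ R, ∑ x ∈ Finset.univ.filter (fun x : T d L => x i = s),
          ‖kc (F (some i)) x‖ ^ 2 := by
      rw [← Finset.sum_fiberwise_of_maps_to (s := S) (t := R) (g := fun x => x i)]
      · refine Finset.sum_le_sum fun s _ => ?_
        refine Finset.sum_le_sum_of_subset_of_nonneg ?_ (fun _ _ _ => by positivity)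
        intro x hx
        exact Finset.mem_filter.2 ⟨Finset.mem_univ _, (Finset.mem_filter.1 hx).2⟩
      · intro x hx
        refine Finset.mem_filter.2 ⟨Finset.mem_univ _, ?_⟩
        have := (Finset.mem_filter.1 hx).2 i
        rw [Pi.sub_apply] at this
        exact this
    refine h4.trans ((Finset.sum_le_sum fun s _ => h3 s).trans ?_)
    rw [Finset.sum_const, nsmul_eq_mul]
    exact mul_le_mul_of_nonneg_right (card_box r hr (y i)) (by positivity)
  have hno : ∑ x ∈ S, ‖kc (F none) x‖ ^ 2 ≤ (2 / κ) * G := by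
    have h3 : ∑ x ∈ S, ‖kc (F none) x‖ ^ 2 ≤ ∑ x, ‖kc (F none) x‖ ^ 2 :=
      Finset.sum_le_sum_of_subset_of_nonneg (Finset.subset_univ _) (fun _ _ _ => by positivity)
    refine h3.trans ?_
    rw [parseval_sq, hG, mul_left_comm]
    refine mul_le_mul_of_nonneg_left ?_ (by positivity)
    rw [Finset.mul_sum]
    refine Finset.sum_le_sum fun k _ => ?_
    simp only [hF]
    by_cases h : cl c k = none
    · rw [if_pos h, norm_mul, Complex.norm_real, Real.norm_eq_abs,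
        abs_of_nonneg (tw_nonneg E η k), mul_pow]
      exact mul_le_mul_of_nonneg_right (tw_none c κ E η hκ hc hE k (cl_none c k h))
        (by positivity)
    · rw [if_neg h, norm_zero, zero_pow two_ne_zero]
      positivity
  calc ∑ x ∈ S, ‖kc (fun k => (tw E η k : ℂ) * g k) x‖ ^ 2
      ≤ ∑ x ∈ S, (d + 1) * ∑ a, ‖kc (F a) x‖ ^ 2 := Finset.sum_le_sum fun x _ => hkc x
    _ = (d + 1) * (∑ x ∈ S, ‖kc (F none) x‖ ^ 2 +
          ∑ i : Fin d, ∑ x ∈ S, ‖kc (F (some i)) x‖ ^ 2) := by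
        rw [← Finset.mul_sum, Finset.sum_comm, Fintype.sum_option]
    _ ≤ (d + 1) * ((2 / κ) * G + ∑ i : Fin d, (2 * r + 1) * (C1 * Real.log (1 / η) * G)) := by
        refine mul_le_mul_of_nonneg_left ?_ (by positivity)
        exact add_le_add hno (Finset.sum_le_sum fun i _ => hcl i)
    _ = (d + 1) * ((2 / κ) * G + d * ((2 * r + 1) * (C1 * Real.log (1 / η) * G))) := by
        rw [Finset.sum_const, Finset.card_univ, Fintype.card_fin, nsmul_eq_mul]
    _ ≤ (d + 1) * ((4 / κ) * ((2 * r + 1) * Real.log (1 / η)) * G +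
          d * ((2 * r + 1) * (C1 * Real.log (1 / η) * G))) := by
        refine mul_le_mul_of_nonneg_left ?_ (by positivity)
        refine add_le_add ?_ le_rfl
        refine mul_le_mul_of_nonneg_right ?_ hG0
        have h5 : 1 / 2 ≤ (2 * r + 1) * Real.log (1 / η) := by nlinarith
        calc 2 / κ = (4 / κ) * (1 / 2) := by ring
          _ ≤ _ := mul_le_mul_of_nonneg_left h5 (by positivity)
    _ = _ := by ring

/-- the slab estimate -/
theorem slab (h1 : OneD) (d : ℕ) (hd : 1 ≤ d) (κ : ℝ) (hκ : 0 < κ) :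
    ∃ C : ℝ, 0 < C ∧ ∀ (L : ℕ) [NeZero L] (η : ℝ), 1 / (L : ℝ) ≤ η → η ≤ 1 / 2 →
      ∀ E : ℝ, (∀ j : ℕ, j ≤ d → κ ≤ |E - 4 * j|) →
      (∀ (g : T d L → ℂ) (y : T d L) (r : ℝ), 0 ≤ r →
        ∑ x ∈ Finset.univ.filter
          (fun x : T d L => ∀ i, ((|((x - y) i).valMinAbs| : ℤ) : ℝ) ≤ r),
          ‖kc (fun k => (tw E η k : ℂ) * g k) x‖ ^ 2 ≤
        C * (2 * r + 1) * Real.log (1 / η) * ((NN d L)⁻¹ * ∑ k, ‖g k‖ ^ 2)) :=
  slab' h1 d hd κ hκ

/-- the diagonal of the squared weight -/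
theorem diag0 (h1 : OneD) (d : ℕ) (hd : 1 ≤ d) (κ : ℝ) (hκ : 0 < κ) :
    ∃ C : ℝ, 0 < C ∧ ∀ (L : ℕ) [NeZero L] (η : ℝ), 1 / (L : ℝ) ≤ η → η ≤ 1 / 2 →
      ∀ E : ℝ, (∀ j : ℕ, j ≤ d → κ ≤ |E - 4 * j|) →
      (NN d L)⁻¹ * ∑ k : T d L, tw E η k ^ 2 ≤ C * Real.log (1 / η) := by
  obtain ⟨C, hC, h2⟩ := slab' h1 d hd κ hκ
  refine ⟨C, hC, ?_⟩
  intro L _ η hη1 hη2 E hE
  have hN := NN_pos (d := d) (L := L)
  set g : T d L → ℂ := fun k => (tw E η k : ℂ) with hg
  set A := (NN d L)⁻¹ * ∑ k : T d L, tw E η k ^ 2 with hA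
  have hA0 : 0 ≤ A := mul_nonneg (inv_nonneg.2 hN.le) (Finset.sum_nonneg fun _ _ => by positivity)
  have h3 := h2 L η hη1 hη2 E hE g 0 0 le_rfl
  have h4 : ((NN d L)⁻¹ * ∑ k : T d L, ‖g k‖ ^ 2) = A := by
    rw [hA]
    congr 1
    refine Finset.sum_congr rfl fun k _ => ?_
    rw [hg, Complex.norm_real, Real.norm_eq_abs, sq_abs]
  rw [h4] at h3
  have h5 : ‖kc (fun k : T d L => (tw E η k : ℂ) * g k) 0‖ = A := by
    unfold kc
    simp only [e_zero, mul_one]
    rw [norm_mul, norm_inv, Complex.norm_real, Real.norm_eq_abs, abs_of_pos hN, hA]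
    congr 1
    have h6 : ∑ k : T d L, (tw E η k : ℂ) * g k = ((∑ k : T d L, tw E η k ^ 2 : ℝ) : ℂ) := by
      push_cast
      refine Finset.sum_congr rfl fun k _ => ?_
      rw [hg]
      ring
    rw [h6, Complex.norm_real, Real.norm_eq_abs,
      abs_of_nonneg (Finset.sum_nonneg fun _ _ => by positivity)]
  have h6 : A ^ 2 ≤ C * (2 * 0 + 1) * Real.log (1 / η) * A := by
    refine le_trans ?_ h3
    rw [← h5]
    refine Finset.single_le_sum
      (f := fun x : T d L => ‖kc (fun k => (tw E η k : ℂ) * g k) x‖ ^ 2)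
      (fun x _ => sq_nonneg _) ?_
    refine Finset.mem_filter.2 ⟨Finset.mem_univ _, fun i => ?_⟩
    simp
  rcases hA0.eq_or_lt with h7 | h7
  · rw [← h7]
    have hL : (0 : ℝ) < L := by exact_mod_cast Nat.pos_of_ne_zero (NeZero.ne L)
    have hη0 : 0 < η := lt_of_lt_of_le (by positivity : (0 : ℝ) < 1 / L) hη1
    have h8 := log_ge η hη0 hη2
    have h9 : 0 < Real.log (1 / η) := by linarith
    positivity
  · have h8 : A * A ≤ (C * Real.log (1 / η)) * A := by nlinarith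
    exact le_of_mul_le_mul_right h8 h7

end Pool.Agent.Zk60.AE
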